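import Pool.Agent.W763.RM.MixF

/-!
Assembly: from the relative statement to sets.
-/

set_option autoImplicit false
set_option linter.unusedSectionVars false

namespace Pool.Agent.W763.RM

open MeasureTheory Filter Topology H567MM

section

variable {X Y G : Type*} [MeasurableSpace X] [MeasurableSpace Y] [MeasurableSpace G]
  [CommGroup G] [MulAction G Y] [MeasurableSMul₂ G Y]
  {μ : Measure X} {ν : Measure Y} [IsProbabilityMeasure μ] [IsProbabilityMeasure ν]
  {S : X → X} {φ : X → G} {Q : Y → Y}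

/-- the relative statement for bounded functions -/
theorem rel_bdd {k : ℕ}
    (H : ∀ F : Fin (k + 1) → X × Y → ℝ, (∀ i, Measurable (F i)) → (∀ i z, |F i z| ≤ 1) →
      Tendsto (fun n => LT (μ.prod ν) (skw S φ Q) F n - ME μ ν S F n) (FF_gap k) (𝓝 0))
    (F : Fin (k + 1) → X × Y → ℝ) (hF : ∀ i, Measurable (F i))
    (hb : ∀ i, ∃ C : ℝ, ∀ z, |F i z| ≤ C) (ε : ℝ) (hε : 0 < ε) :
    ∃ N : ℕ, ∀ n : Fin (k + 1) → ℕ, n 0 = 0 → (∀ j : Fin k, n j.castSucc + N ≤ n j.succ) →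
      |∫ z, ∏ i, F i ((skw S φ Q)^[n i] z) ∂(μ.prod ν) -
        ∫ x, ∏ i, (∫ y, F i (S^[n i] x, y) ∂ν) ∂μ| < ε := by
  choose C hC using hb
  set D : Fin (k + 1) → ℝ := fun i => |C i| + 1 with hD
  have hD0 : ∀ i, 0 < D i := fun i => by positivity
  set F' : Fin (k + 1) → X × Y → ℝ := fun i z => (D i)⁻¹ * F i z with hF'
  have hF'm : ∀ i, Measurable (F' i) := fun i => (hF i).const_mul _
  have hF'1 : ∀ i z, |F' i z| ≤ 1 := by
    intro i z
    simp only [hF']
    rw [abs_mul, abs_of_pos (inv_pos.2 (hD0 i)), inv_mul_le_iff₀ (hD0 i), mul_one]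
    exact (hC i z).trans ((le_abs_self _).trans (by simp [hD]))
  have h1 := (H F' hF'm hF'1).const_mul (∏ i, D i)
  have e1 : ∀ n, (∏ i, D i) * (LT (μ.prod ν) (skw S φ Q) F' n - ME μ ν S F' n) =
      LT (μ.prod ν) (skw S φ Q) F n - ME μ ν S F n := by
    intro n
    rw [mul_sub, ← LT_smul, ← ME_smul (μ := μ) (ν := ν)]
    have e2 : (fun i z => D i * F' i z) = F := by
      funext i z
      simp only [hF']
      rw [mul_inv_cancel_left₀ (hD0 i).ne']
    rw [e2]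
  simp only [e1, mul_zero] at h1
  rw [Metric.tendsto_nhds] at h1
  obtain ⟨N, hN⟩ := (FF_eventually k _).1 (h1 ε hε)
  refine ⟨N, fun n h0 hn => ?_⟩
  have h2 := hN n h0 hn
  rw [Real.dist_eq, sub_zero] at h2
  exact h2

theorem mix_up (h : Sys μ ν S φ Q) {k : ℕ}
    (H : ∀ F : Fin (k + 1) → X × Y → ℝ, (∀ i, Measurable (F i)) → (∀ i z, |F i z| ≤ 1) →
      Tendsto (fun n => LT (μ.prod ν) (skw S φ Q) F n - ME μ ν S F n) (FF_gap k) (𝓝 0))
    (hk : MixOrd μ S k) : MixOrd (μ.prod ν) (skw S φ Q) k := by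
  intro A hA ε hε
  set F : Fin (k + 1) → X × Y → ℝ := fun i => (A i).indicator fun _ => 1 with hF
  have hFm : ∀ i, Measurable (F i) := fun i => measurable_const.indicator (hA i)
  have hF1 : ∀ i z, |F i z| ≤ 1 := by
    intro i z
    by_cases hz : z ∈ A i <;> simp [hF, hz]
  have h1 := H F hFm hF1
  have h2 := mix_real h.hS k hk (fun i => E ν (F i)) (fun i => E_meas (hFm i))
    (fun i x => E_le (hF1 i) x)
  have h3 := h1.add h2
  have e1 : (fun n => LT (μ.prod ν) (skw S φ Q) F n - ME μ ν S F n +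
      ∫ x, ∏ i, E ν (F i) (S^[n i] x) ∂μ) = LT (μ.prod ν) (skw S φ Q) F := by
    funext n
    unfold ME
    ring
  rw [e1, zero_add, Metric.tendsto_nhds] at h3
  obtain ⟨N, hN⟩ := (FF_eventually k _).1 (h3 ε hε)
  refine ⟨N, fun n h0 hn => ?_⟩
  have h4 := hN n h0 hn
  rw [Real.dist_eq] at h4
  have hm : MeasurableSet (⋂ j, (skw S φ Q)^[n j] ⁻¹' A j) :=
    MeasurableSet.iInter fun j => (h.mp.iterate (n j)).measurable (hA j)
  have e2 : LT (μ.prod ν) (skw S φ Q) F n =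
      (μ.prod ν).real (⋂ j, (skw S φ Q)^[n j] ⁻¹' A j) := by
    unfold LT
    have e3 : (fun z => ∏ i, F i ((skw S φ Q)^[n i] z)) =
        (⋂ j, (skw S φ Q)^[n j] ⁻¹' A j).indicator fun _ => (1 : ℝ) := by
      funext z
      by_cases hz : z ∈ ⋂ j, (skw S φ Q)^[n j] ⁻¹' A j
      · rw [Set.indicator_of_mem hz]
        refine Finset.prod_eq_one fun j _ => ?_
        have hj : (skw S φ Q)^[n j] z ∈ A j := Set.mem_iInter.1 hz j
        exact Set.indicator_of_mem hj (fun _ => (1 : ℝ))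
      · rw [Set.indicator_of_notMem hz]
        rw [Set.mem_iInter, not_forall] at hz
        obtain ⟨j, hj⟩ := hz
        have hj' : (skw S φ Q)^[n j] z ∉ A j := hj
        exact Finset.prod_eq_zero (Finset.mem_univ j)
          (Set.indicator_of_notMem hj' (fun _ => (1 : ℝ)))
    rw [e3, integral_indicator_const _ hm, smul_eq_mul, mul_one]
  have e4 : ∀ i, ∫ x, E ν (F i) x ∂μ = (μ.prod ν).real (A i) := by
    intro i
    have e5 := int_prod (μ := μ) (ν := ν) (hFm i) (hF1 i)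
    have e6 : ∫ x, E ν (F i) x ∂μ = ∫ z, F i z ∂(μ.prod ν) := by rw [e5]; rfl
    rw [e6]
    simp only [hF]
    rw [integral_indicator_const _ (hA i), smul_eq_mul, mul_one]
  rw [e2] at h4
  simp only [e4] at h4
  exact h4

theorem mix_down (h : Sys μ ν S φ Q) {k : ℕ} (hk : MixOrd (μ.prod ν) (skw S φ Q) k) :
    MixOrd μ S k := by
  intro A hA ε hε
  obtain ⟨N, hN⟩ := hk (fun j => Prod.fst ⁻¹' (A j)) (fun j => measurable_fst (hA j)) ε hε
  refine ⟨N, fun n h0 hn => ?_⟩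
  have h1 := hN n h0 hn
  have hfst : MeasurePreserving (Prod.fst : X × Y → X) (μ.prod ν) μ := measurePreserving_fst
  have e1 : (⋂ j, (skw S φ Q)^[n j] ⁻¹' (Prod.fst ⁻¹' (A j)))
      = Prod.fst ⁻¹' (⋂ j, S^[n j] ⁻¹' (A j)) := by
    ext z
    simp only [Set.mem_iInter, Set.mem_preimage, h.iterate_fst]
  have hm : MeasurableSet (⋂ j, S^[n j] ⁻¹' (A j)) :=
    MeasurableSet.iInter fun j => (h.hS.iterate (n j)).measurable (hA j)
  have e2 : ∀ B : Set X, MeasurableSet B →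
      (μ.prod ν).real (Prod.fst ⁻¹' B) = μ.real B := by
    intro B hB
    simp only [Measure.real]
    rw [hfst.measure_preimage hB.nullMeasurableSet]
  rw [e1, e2 _ hm] at h1
  rw [Finset.prod_congr rfl (fun j _ => e2 (A j) (hA j))] at h1
  exact h1

end

/-- **Skew products with a mixing fibre action** -/
theorem mainA {X Y G : Type*} [MeasurableSpace X] [MeasurableSpace Y] (μ : Measure X)
    [IsProbabilityMeasure μ] (ν : Measure Y) [IsProbabilityMeasure ν] (S : X → X)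
    (hS : MeasurePreserving S μ μ) (hmixS : MixOrd μ S 1) [CommGroup G] [Countable G]
    [MeasurableSpace G] [DiscreteMeasurableSpace G] [MulAction G Y]
    (hR : ∀ v : G, MeasurePreserving (fun y : Y => v • y) ν ν)
    (hmixR : ∀ A B : Set Y, MeasurableSet A → MeasurableSet B →
      Tendsto (fun v : G => ν.real (A ∩ (fun y : Y => v • y) ⁻¹' B)) cofinite
        (𝓝 (ν.real A * ν.real B)))
    (Q : Y → Y) (hQ : MeasurePreserving Q ν ν) (hQR : ∀ (v : G) (y : Y), Q (v • y) = v • Q y)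
    (φ : X → G) (hφ : Measurable φ)
    (hφc : ∀ H : Subgroup G, Finite H → ∀ (l : G) (p : X → G), Measurable p →
      ¬ ∀ᵐ x ∂μ, φ x * p x / p (S x) / l ∈ H) (k : ℕ) :
    (∀ F : Fin (k + 1) → X × Y → ℝ, (∀ i, Measurable (F i)) →
      (∀ i, ∃ C : ℝ, ∀ z, |F i z| ≤ C) → ∀ ε : ℝ, 0 < ε →
      ∃ N : ℕ, ∀ n : Fin (k + 1) → ℕ, n 0 = 0 → (∀ j : Fin k, n j.castSucc + N ≤ n j.succ) →
        |∫ z, ∏ i, F i ((skw S φ Q)^[n i] z) ∂(μ.prod ν) -
          ∫ x, ∏ i, (∫ y, F i (S^[n i] x, y) ∂ν) ∂μ| < ε) ∧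
    (MixOrd (μ.prod ν) (skw S φ Q) k ↔ MixOrd μ S k) := by
  have : MeasurableSMul₂ G Y := ⟨measurable_from_prod_countable_right fun v => (hR v).measurable⟩
  have h : Sys μ ν S φ Q := ⟨hS, hQ, hφ, hR, hQR⟩
  have hρ := rhoSmall_mixing h hmixS hmixR hφc
  have hrel : ∀ F : Fin (k + 1) → X × Y → ℝ, (∀ i, Measurable (F i)) → (∀ i z, |F i z| ≤ 1) →
      Tendsto (fun n => LT (μ.prod ν) (skw S φ Q) F n - ME μ ν S F n) (FF_gap k) (𝓝 0) :=
    fun F hF hF1 => rel_all h gauge2 (baseMix2 hS k hmixS) hρ F hF hF1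
  exact ⟨fun F hF hb ε hε => rel_bdd hrel F hF hb ε hε, fun hk => mix_down h hk,
    fun hk => mix_up h hrel hk⟩

end Pool.Agent.W763.RM
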