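import Pool.Agent.H567R2.MM.Defs

/-!
Skew products with commuting fibre maps: basic facts.
-/

set_option autoImplicit false

namespace Pool.Agent.W763.RM

open MeasureTheory Filter Topology H567MM

/-- the skew product `(x, y) ↦ (S x, φ(x) • Q y)` -/
def skw {X Y G : Type*} [SMul G Y] (S : X → X) (φ : X → G) (Q : Y → Y) (z : X × Y) : X × Y :=
  (S z.1, φ z.1 • Q z.2)

/-- the standing assumptions -/
structure Sys {X Y G : Type*} [MeasurableSpace X] [MeasurableSpace Y] [MeasurableSpace G]
    [SMul G Y] (μ : Measure X) (ν : Measure Y) (S : X → X) (φ : X → G) (Q : Y → Y) : Prop where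
  hS : MeasurePreserving S μ μ
  hQ : MeasurePreserving Q ν ν
  hφ : Measurable φ
  hR : ∀ g : G, MeasurePreserving (fun y : Y => g • y) ν ν
  hQR : ∀ (g : G) (y : Y), Q (g • y) = g • Q y

theorem cocAdd {X G : Type*} [CommMonoid G] (S : X → X) (φ : X → G) (m n : ℕ) (x : X) :
    coc S φ (m + n) x = coc S φ m x * coc S φ n (S^[m] x) := by
  induction n with
  | zero => simp [coc]
  | succ n ih =>
    rw [← add_assoc]
    show coc S φ (m + n) x * φ (S^[m + n] x) =
      coc S φ m x * (coc S φ n (S^[m] x) * φ (S^[n] (S^[m] x)))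
    rw [ih, mul_assoc, add_comm m n, Function.iterate_add_apply]

theorem cocAdd' {X G : Type*} [CommMonoid G] (S : X → X) (φ : X → G) (m n : ℕ) (x : X) :
    coc S φ m x * coc S φ n (S^[m] x) = coc S φ n x * coc S φ m (S^[n] x) := by
  rw [← cocAdd, ← cocAdd, add_comm]

theorem cocMeas {X G : Type*} [MeasurableSpace X] [MeasurableSpace G] [CommMonoid G]
    [MeasurableMul₂ G] (S : X → X) (hS : Measurable S) (φ : X → G)
    (hφ : Measurable φ) (n : ℕ) : Measurable (coc S φ n) := by
  induction n with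
  | zero => exact measurable_const
  | succ n ih =>
    exact ih.mul (hφ.comp (hS.iterate n))

section

variable {X Y G : Type*} [MeasurableSpace X] [MeasurableSpace Y] [MeasurableSpace G]
  [CommGroup G] [MulAction G Y] {μ : Measure X} {ν : Measure Y} {S : X → X} {φ : X → G}
  {Q : Y → Y}

theorem Sys.iter_comm (h : Sys μ ν S φ Q) (n : ℕ) (g : G) (y : Y) :
    Q^[n] (g • y) = g • Q^[n] y := by
  induction n with
  | zero => rfl
  | succ n ih => rw [Function.iterate_succ_apply', ih, h.hQR, Function.iterate_succ_apply']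

theorem Sys.iterate (h : Sys μ ν S φ Q) (n : ℕ) (x : X) (y : Y) :
    (skw S φ Q)^[n] (x, y) = (S^[n] x, coc S φ n x • Q^[n] y) := by
  induction n with
  | zero => simp [coc]
  | succ n ih =>
    rw [Function.iterate_succ_apply', ih]
    refine Prod.ext (Function.iterate_succ_apply' S n x).symm ?_
    show φ (S^[n] x) • Q (coc S φ n x • Q^[n] y) = (coc S φ n x * φ (S^[n] x)) • Q^[n + 1] y
    rw [h.hQR, smul_smul, mul_comm, Function.iterate_succ_apply']

theorem Sys.iterate_fst (h : Sys μ ν S φ Q) (n : ℕ) (z : X × Y) :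
    ((skw S φ Q)^[n] z).1 = S^[n] z.1 := by
  obtain ⟨x, y⟩ := z
  rw [h.iterate]

variable [MeasurableSMul₂ G Y] [IsProbabilityMeasure μ] [IsProbabilityMeasure ν]

/-- the maps `(x, y) ↦ (S^n x, b(x) • Q^s y)` preserve the product measure -/
theorem Sys.mp_gen (h : Sys μ ν S φ Q) (n s : ℕ) (b : X → G) (hb : Measurable b) :
    MeasurePreserving (fun z : X × Y => (S^[n] z.1, b z.1 • Q^[s] z.2)) (μ.prod ν)
      (μ.prod ν) := by
  have hm : Measurable (Function.uncurry fun (x : X) (y : Y) => b x • Q^[s] y) :=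
    (hb.comp measurable_fst).smul ((h.hQ.iterate s).measurable.comp measurable_snd)
  exact (h.hS.iterate n).skew_product hm
    (ae_of_all _ fun x => ((h.hR (b x)).comp (h.hQ.iterate s)).map_eq)

theorem Sys.mp (h : Sys μ ν S φ Q) : MeasurePreserving (skw S φ Q) (μ.prod ν) (μ.prod ν) := by
  have := h.mp_gen 1 1 φ h.hφ
  exact this

end

end Pool.Agent.W763.RM
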