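import Pool.Agent.W763.RM.Rho
import Pool.Agent.H567R2.MMF.CA
import Pool.Agent.H567R2.MNF.GE
import Pool.Agent.H567R2.MNF.CM

/-!
Collisions of the cocycle: if they are frequent then the cocycle is cohomologous to a constant
modulo a finite subgroup.
-/

set_option autoImplicit false
set_option linter.unusedSectionVars false

namespace Pool.Agent.W763.RM

open MeasureTheory Filter Topology H567MM

theorem slot {Z κ : Type*} [MeasurableSpace Z] {P : Measure Z} [IsProbabilityMeasure P]
    (l : Filter κ) (τ : κ → Z → Z) (hτ : ∀ n, MeasurePreserving (τ n) P P) (W : κ → Z → ℝ)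
    (hW : ∀ n, Measurable (W n)) (hW1 : ∀ n z, |W n z| ≤ 1) (c : ℝ) (hc : |c| ≤ 1)
    (h : ∀ A : Set Z, MeasurableSet A →
      Tendsto (fun n => ∫ z, A.indicator (fun _ => (1 : ℝ)) (τ n z) * W n z ∂P) l
        (𝓝 (P.real A * c)))
    (u : Z → ℝ) (hu : Integrable u P) :
    Tendsto (fun n => ∫ z, u (τ n z) * W n z ∂P) l (𝓝 ((∫ z, u z ∂P) * c)) := by
  have hci : ∀ (v : Z → ℝ), Integrable v P → ∀ n, Integrable (fun z => v (τ n z) * W n z) P := by
    intro v hv n
    have h1 : Integrable (fun z => v (τ n z)) P := (hτ n).integrable_comp_of_integrable hv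
    exact h1.mul_bdd (c := 1) (hW n).aestronglyMeasurable (Eventually.of_forall (hW1 n))
  refine Integrable.induction (fun u : Z → ℝ =>
    Tendsto (fun n => ∫ z, u (τ n z) * W n z ∂P) l (𝓝 ((∫ z, u z ∂P) * c))) ?_ ?_ ?_ ?_ hu
  · intro a s hs _
    have e0 : ∀ z, s.indicator (fun _ => a) z = a * s.indicator (fun _ => (1 : ℝ)) z := by
      intro z
      by_cases hz : z ∈ s <;> simp [hz]
    have e1 : (∫ z, s.indicator (fun _ => a) z ∂P) * c = a * (P.real s * c) := by
      rw [integral_indicator_const _ hs, smul_eq_mul]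
      ring
    rw [e1]
    simp only [e0, mul_assoc, integral_const_mul]
    exact (h s hs).const_mul a
  · intro v w _ hv hw h1 h2
    have e1 : (fun n => ∫ z, (v + w) (τ n z) * W n z ∂P) = fun n =>
        ∫ z, v (τ n z) * W n z ∂P + ∫ z, w (τ n z) * W n z ∂P := by
      funext n
      rw [← integral_add (hci v hv n) (hci w hw n)]
      congr 1
      funext z
      rw [Pi.add_apply, add_mul]
    have e2 : (∫ z, (v + w) z ∂P) * c = (∫ z, v z ∂P) * c + (∫ z, w z ∂P) * c := by
      have : ∫ z, (v + w) z ∂P = ∫ z, v z ∂P + ∫ z, w z ∂P := integral_add hv hw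
      rw [this, add_mul]
    rw [e1, e2]
    exact h1.add h2
  · refine isClosed_of_closure_subset fun f hf => ?_
    show Tendsto (fun n => ∫ z, f (τ n z) * W n z ∂P) l (𝓝 ((∫ z, f z ∂P) * c))
    rw [Metric.tendsto_nhds]
    intro ε hε
    obtain ⟨f', hf', hd⟩ := Metric.mem_closure_iff.1 hf (ε / 4) (by positivity)
    have hf'' : Tendsto (fun n => ∫ z, f' (τ n z) * W n z ∂P) l (𝓝 ((∫ z, f' z ∂P) * c)) := hf'
    rw [Metric.tendsto_nhds] at hf''
    filter_upwards [hf'' (ε / 4) (by positivity)] with n hn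
    have hi : Integrable (⇑f) P := L1.integrable_coeFn f
    have hi' : Integrable (⇑f') P := L1.integrable_coeFn f'
    have hd' : ∫ z, |f z - f' z| ∂P < ε / 4 := by
      rw [L1.dist_eq_integral_dist] at hd
      exact hd
    have a1 : |∫ z, f (τ n z) * W n z ∂P - ∫ z, f' (τ n z) * W n z ∂P| ≤ ∫ z, |f z - f' z| ∂P := by
      rw [← integral_sub (hci _ hi n) (hci _ hi' n)]
      refine abs_int_le_int.trans ?_
      have hdi : Integrable (fun z => |f z - f' z|) P := (hi.sub hi').abs
      have e2 : ∫ z, |f (τ n z) - f' (τ n z)| ∂P = ∫ z, |f z - f' z| ∂P := by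
        have h5 := integral_map (μ := P) (φ := τ n) (hτ n).measurable.aemeasurable
          (f := fun z => |f z - f' z|) (by rw [(hτ n).map_eq]; exact hdi.aestronglyMeasurable)
        rw [(hτ n).map_eq] at h5
        exact h5.symm
      rw [← e2]
      refine integral_mono_of_nonneg (Eventually.of_forall fun z => abs_nonneg _)
        ((hτ n).integrable_comp_of_integrable hdi) (Eventually.of_forall fun z => ?_)
      show |f (τ n z) * W n z - f' (τ n z) * W n z| ≤ |f (τ n z) - f' (τ n z)|
      rw [← sub_mul, abs_mul]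
      exact mul_le_of_le_one_right (abs_nonneg _) (hW1 n z)
    have a2 : |(∫ z, f z ∂P) * c - (∫ z, f' z ∂P) * c| ≤ ∫ z, |f z - f' z| ∂P := by
      rw [← sub_mul, abs_mul, ← integral_sub hi hi']
      exact (mul_le_of_le_one_right (abs_nonneg _) hc).trans abs_int_le_int
    rw [Real.dist_eq] at hn ⊢
    have a3 := a1.trans hd'.le
    have a4 := a2.trans hd'.le
    rw [abs_le] at a3 a4
    rw [abs_lt] at hn ⊢
    constructor <;> linarith [hn.1, hn.2, a3.1, a3.2, a4.1, a4.2]
  · intro v w hvw hv h1
    have e1 : (fun n => ∫ z, w (τ n z) * W n z ∂P) = fun n => ∫ z, v (τ n z) * W n z ∂P := by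
      funext n
      refine integral_congr_ae ?_
      filter_upwards [(hτ n).quasiMeasurePreserving.ae_eq hvw] with z hz
      have hz' : v (τ n z) = w (τ n z) := hz
      rw [hz']
    have e2 : ∫ z, w z ∂P = ∫ z, v z ∂P := integral_congr_ae hvw.symm
    rw [e1, e2]
    exact h1

section

variable {X Y G : Type*} [MeasurableSpace X] [MeasurableSpace Y]
  [CommGroup G] [MulAction G Y]
  {μ : Measure X} {ν : Measure Y} [IsProbabilityMeasure μ] [IsProbabilityMeasure ν]
  {S : X → X} {φ : X → G} {Q : Y → Y}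

/-- the action is mixing on functions -/
theorem kap_tendsto (hR : ∀ v : G, MeasurePreserving (fun y : Y => v • y) ν ν)
    (hmix : ∀ A B : Set Y, MeasurableSet A → MeasurableSet B →
      Tendsto (fun v : G => ν.real (A ∩ (fun y : Y => v • y) ⁻¹' B)) cofinite
        (𝓝 (ν.real A * ν.real B))) {g : Y → ℝ} (hg : Measurable g) (hg1 : ∀ y, |g y| ≤ 1)
    (hg0 : ∫ y, g y ∂ν = 0) : Tendsto (kap (G := G) ν g) cofinite (𝓝 0) := by
  have hgi : Integrable g ν := int_bdd hg hg1
  -- first slot
  have h1 : ∀ A : Set Y, MeasurableSet A → Tendsto (fun v : G =>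
      ∫ y, g (v • y) * A.indicator (fun _ => (1 : ℝ)) y ∂ν) cofinite
        (𝓝 ((∫ y, g y ∂ν) * ν.real A)) := by
    intro A hA
    refine slot cofinite (fun v y => v • y) hR (fun _ => A.indicator fun _ => (1 : ℝ))
      (fun _ => measurable_const.indicator hA) (fun _ y => ?_) (ν.real A) ?_ ?_ g hgi
    · by_cases hy : y ∈ A <;> simp [hy]
    · rw [abs_of_nonneg measureReal_nonneg]
      exact measureReal_le_one
    · intro B hB
      have h2 := hmix A B hA hB
      have e : ∀ v : G, ∫ y, B.indicator (fun _ => (1 : ℝ)) (v • y) *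
          A.indicator (fun _ => (1 : ℝ)) y ∂ν = ν.real (A ∩ (fun y : Y => v • y) ⁻¹' B) := by
        intro v
        have e1 : (fun y => B.indicator (fun _ => (1 : ℝ)) (v • y) *
            A.indicator (fun _ => (1 : ℝ)) y) =
            (A ∩ (fun y : Y => v • y) ⁻¹' B).indicator fun _ => (1 : ℝ) := by
          funext y
          by_cases h3 : y ∈ A <;> by_cases h4 : v • y ∈ B <;> simp [Set.indicator, h3, h4]
        rw [e1, integral_indicator_const _ (hA.inter ((hR v).measurable hB)), smul_eq_mul,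
          mul_one]
      simp only [e]
      rw [mul_comm]
      exact h2
  have h2 := slot cofinite (fun (_ : G) y => y) (fun _ => MeasurePreserving.id ν)
    (fun v y => g (v • y)) (fun v => hg.comp (hR v).measurable) (fun v y => hg1 _)
    (∫ y, g y ∂ν) (by rw [hg0]; simp) (fun A hA => by
      have h3 := h1 A hA
      rw [mul_comm] at h3
      simp only [mul_comm (A.indicator _ _)]
      exact h3) g hgi
  rw [hg0, mul_zero] at h2
  refine h2.congr fun v => ?_
  unfold kap
  congr 1
  funext y
  ring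

/-- the skew product -/
private def tauC (S : X → X) (ψ : X → G) (z : X × G) : X × G := (S z.1, z.2 * ψ z.1)

private theorem tauC_iterate (S : X → X) (ψ : X → G) (n : ℕ) (z : X × G) :
    (tauC S ψ)^[n] z = (S^[n] z.1, z.2 * coc S ψ n z.1) := by
  induction n with
  | zero => simp [coc]
  | succ n ih =>
    rw [Function.iterate_succ_apply', ih, tauC, coc]
    simp only [Function.iterate_succ_apply', mul_assoc]

private theorem tauC_mp (P : Measure X)
    [IsProbabilityMeasure P] (S : X → X) (hS : MeasurePreserving S P P)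
    [Countable G] [MeasurableSpace G] [DiscreteMeasurableSpace G] (ψ : X → G)
    (hψ : Measurable ψ) :
    MeasurePreserving (tauC S ψ) (P.prod Measure.count) (P.prod Measure.count) := by
  have hm : Measurable (Function.uncurry fun (ω : X) (g : G) => g * ψ ω) := by
    have h1 : Measurable fun p : G × G => p.1 * p.2 := Measurable.of_discrete
    exact h1.comp (measurable_snd.prodMk (hψ.comp measurable_fst))
  exact hS.skew_product hm (ae_of_all _ fun ω => map_mul_right_eq_self _ _)

/-- frequent collisions -/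
theorem coll_cob (S : X → X) (hS : MeasurePreserving S μ μ) (hmix : MixOrd μ S 1)
    [Countable G] [MeasurableSpace G] [DiscreteMeasurableSpace G] (φ : X → G)
    (hφ : Measurable φ) (K : Finset G) (c : ℝ) (hc : 0 < c)
    (hK : ∀ N₀ : ℕ, ∃ N ≥ N₀, c * N ≤ ∑ n ∈ Finset.range N, ∑ v ∈ K,
      (μ.prod μ).real {z | coc S φ n z.1 / coc S φ n z.2 = v}) :
    ∃ H : Subgroup G, Finite H ∧ ∃ (l : G) (p : X → G), Measurable p ∧
      ∀ᵐ x ∂μ, φ x * p x / p (S x) / l ∈ H := by
  classical
  have hS2 : MeasurePreserving (Prod.map S S) (μ.prod μ) (μ.prod μ) := hS.prod hS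
  have mix2 : MixOrd (μ.prod μ) (Prod.map S S) 1 := mix_prod μ μ S S hS hS hmix hmix
  have mix3 : MixOrd (μ.prod (μ.prod μ)) (Prod.map S (Prod.map S S)) 1 :=
    mix_prod μ (μ.prod μ) S (Prod.map S S) hS hS2 hmix mix2
  have erg2 : Ergodic (Prod.map S S) (μ.prod μ) := ergodic_of_mix _ _ hS2 mix2
  have erg3 : Ergodic (Prod.map S (Prod.map S S)) (μ.prod (μ.prod μ)) :=
    ergodic_of_mix _ _ (hS.prod hS2) mix3
  set P : Measure (X × X) := μ.prod μ with hP
  set ψ : X × X → G := fun z => φ z.1 / φ z.2 with hψdef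
  have hdiv : Measurable (fun q : G × G => q.1 / q.2) := measurable_of_countable _
  have hψ : Measurable ψ :=
    hdiv.comp ((hφ.comp measurable_fst).prodMk (hφ.comp measurable_snd))
  have hcoc : ∀ (n : ℕ) (z : X × X), coc (Prod.map S S) ψ n z = coc S φ n z.1 / coc S φ n z.2 :=
    fun n z => CA_aux_coc S φ n z
  have hKne : K.Nonempty := by
    by_contra hne
    rw [Finset.not_nonempty_iff_eq_empty] at hne
    obtain ⟨N, hN, h1⟩ := hK 1
    rw [hne] at h1
    simp only [Finset.sum_empty, Finset.sum_const_zero] at h1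
    have : (0 : ℝ) < N := by exact_mod_cast hN
    have := mul_pos hc this
    linarith
  have hKc : (0 : ℝ) < K.card := by exact_mod_cast hKne.card_pos
  set c' : ℝ := c / K.card with hc'
  have hc0 : 0 < c' := by positivity
  -- pigeonhole
  obtain ⟨g, hgK, hg⟩ : ∃ g ∈ K, ∀ N₀ : ℕ, ∃ N ≥ N₀, c' * N ≤
      ∑ n ∈ Finset.range N, P.real {z | coc (Prod.map S S) ψ n z = g} := by
    by_contra hcon
    push Not at hcon
    choose! N₀ hN₀ using hcon
    obtain ⟨N, hN, hN2⟩ := hK (K.sup N₀ + 1)
    have hlt : ∑ g ∈ K, ∑ n ∈ Finset.range N, P.real {z | coc (Prod.map S S) ψ n z = g} <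
        ∑ g ∈ K, c' * N := by
      refine Finset.sum_lt_sum_of_nonempty hKne ?_
      intro g hg
      exact hN₀ g hg N ((Finset.le_sup hg).trans (by omega))
    rw [Finset.sum_comm, Finset.sum_const, nsmul_eq_mul] at hlt
    have heq : (K.card : ℝ) * (c' * N) = c * N := by
      rw [hc']
      field_simp
    rw [heq] at hlt
    simp only [hcoc] at hlt
    linarith
  -- invariant set
  obtain ⟨B, hB, hBt, hB0, hinv⟩ := inv_set P (tauC (Prod.map S S) ψ)
    (tauC_mp P (Prod.map S S) hS2 ψ hψ) g 1 c' hc0 (by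
      intro N₀
      obtain ⟨N, hN, hN2⟩ := hg N₀
      refine ⟨N, hN, hN2.trans (le_of_eq (Finset.sum_congr rfl ?_))⟩
      intro n _
      congr 1
      ext z
      simp only [Set.mem_setOf_eq, tauC_iterate, one_mul])
  have hBne : (P.prod Measure.count) B ≠ 0 := by
    intro h0
    apply hB0
    have hsub : {ω | (ω, g) ∈ B} ×ˢ ({g} : Set G) ⊆ B := by
      rintro ⟨ω, g'⟩ ⟨h1, h2⟩
      simp only [Set.mem_singleton_iff] at h2
      subst h2
      exact h1
    have h1 := measure_mono_null hsub h0
    rw [Measure.prod_prod, Measure.count_singleton, mul_one] at h1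
    exact h1
  obtain ⟨H, hHfin, u, hu, hu2⟩ := exists_cob_mod P (Prod.map S S) erg2 ψ hψ B hB hBne hBt (by
    filter_upwards [hinv] with ω hω q
    exact hω q)
  -- the quotient
  letI : MeasurableSpace (G ⧸ H) := ⊤
  haveI : DiscreteMeasurableSpace (G ⧸ H) := ⟨fun _ => trivial⟩
  haveI : Countable (G ⧸ H) := (QuotientGroup.mk_surjective (s := H)).countable
  have hmk : Measurable (fun g : G => (QuotientGroup.mk g : G ⧸ H)) := measurable_of_countable _
  obtain ⟨l', p, hp, hp2⟩ := exists_const μ S hS erg3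
    (fun x => (QuotientGroup.mk (φ x) : G ⧸ H)) (hmk.comp hφ)
    (fun z => (QuotientGroup.mk (u z) : G ⧸ H)) (hmk.comp hu) (by
      filter_upwards [hu2] with z hz
      have h1 : (S z.1, S z.2) = Prod.map S S z := rfl
      rw [h1]
      have h2 : (QuotientGroup.mk (u (Prod.map S S z)) : G ⧸ H) =
          QuotientGroup.mk (u z * ψ z) := by
        rw [eq_comm, QuotientGroup.eq]
        rw [div_eq_mul_inv, mul_comm] at hz
        exact hz
      rw [h2]
      rfl)
  refine ⟨H, hHfin, l'.out, fun x => (p x).out,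
    (measurable_of_countable (fun q : G ⧸ H => q.out)).comp hp, ?_⟩
  filter_upwards [hp2] with x hx
  rw [← QuotientGroup.eq_one_iff]
  have e1 : ∀ q : G ⧸ H, (QuotientGroup.mk q.out : G ⧸ H) = q := fun q => QuotientGroup.out_eq' q
  rw [QuotientGroup.mk_div, QuotientGroup.mk_div, QuotientGroup.mk_mul, e1, e1, e1, hx]
  rw [div_mul_cancel, mul_div_cancel_right, div_self']

end

end Pool.Agent.W763.RM
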