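import Pool.Agent.W763.RM.Pair

/-!
The core theorem: relative mixing of all orders.
-/

set_option autoImplicit false
set_option linter.unusedSectionVars false

namespace Pool.Agent.W763.RM

open MeasureTheory Filter Topology H567MM

section

variable {X Y G : Type*} {ι : Type} [MeasurableSpace X] [MeasurableSpace Y] [MeasurableSpace G]
  [CommGroup G] [MulAction G Y] [MeasurableMul₂ G] [MeasurableInv G] [MeasurableSMul₂ G Y]
  [Fintype ι] [DecidableEq ι]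
  {μ : Measure X} {ν : Measure Y} [IsProbabilityMeasure μ] [IsProbabilityMeasure ν]
  {S : X → X} {φ : X → G} {Q : Y → Y} {𝓕 : Filter (ι → ℕ)}

/-- the double averages of the limit correlations are small -/
def RhoSmall (μ : Measure X) (ν : Measure Y) (S : X → X) (φ : X → G)
    (p : (X → ℝ) → ℝ) : Prop :=
  ∀ (f : X → ℝ) (g : Y → ℝ), Measurable f → Measurable g → (∀ x, |f x| ≤ 1) →
    (∀ y, |g y| ≤ 1) → ∫ y, g y ∂ν = 0 → ∀ η : ℝ, 0 < η → ∃ N : ℕ, 0 < N ∧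
    ∑ r ∈ Finset.range N, ∑ r' ∈ Finset.range N, rho μ ν S φ p f g r r' ≤ η * (N : ℝ) ^ 2

theorem zm_single (h : Sys μ ν S φ Q) {J : Finset ι} {i0 : ι} (h0 : i0 ∈ J)
    (h1 : ∀ i ∈ J, i = i0) : ZM μ ν S φ Q 𝓕 J := by
  intro f g hf hg hf1 hg1 hJ hJ'
  have hcm : ∀ r, Measurable (coc S φ r) := fun r => cocMeas S h.hS.measurable φ h.hφ r
  have key : ∀ n, LT (μ.prod ν) (skw S φ Q) (pf f g) n = 0 := by
    intro n
    unfold LT
    have hm : Measurable fun z => ∏ i, pf f g i ((skw S φ Q)^[n i] z) :=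
      Finset.measurable_prod _ fun i _ => (pf_meas hf hg i).comp (h.mp.iterate (n i)).measurable
    have hb : ∀ z : X × Y, |∏ i, pf f g i ((skw S φ Q)^[n i] z)| ≤ 1 := fun z =>
      abs_prod_le_one _ _ fun i _ => pf_le hf1 hg1 i _
    rw [int_prod hm hb]
    have e : ∀ x y, ∏ i, pf f g i ((skw S φ Q)^[n i] (x, y)) =
        (∏ i, f i (S^[n i] x)) * g i0 (coc S φ (n i0) x • Q^[n i0] y) := by
      intro x y
      simp only [pf, h.iterate, Finset.prod_mul_distrib]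
      congr 1
      refine Finset.prod_eq_single i0 (fun i _ hi => ?_) (fun h2 => absurd (Finset.mem_univ _) h2)
      exact hJ' i (fun h2 => hi (h1 i h2)) _
    simp only [e]
    have e2 : ∀ x, ∫ y, (∏ i, f i (S^[n i] x)) * g i0 (coc S φ (n i0) x • Q^[n i0] y) ∂ν = 0 := by
      intro x
      rw [integral_const_mul]
      have h2 : MeasurePreserving (fun y : Y => coc S φ (n i0) x • Q^[n i0] y) ν ν :=
        (h.hR _).comp (h.hQ.iterate (n i0))
      rw [int_mp h2 (hg i0), hJ i0 h0, mul_zero]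
    simp only [e2, integral_zero]
  have : LT (μ.prod ν) (skw S φ Q) (pf f g) = fun _ => 0 := funext key
  rw [this]
  exact tendsto_const_nhds

theorem zm_step (h : Sys μ ν S φ Q) {p : (X → ℝ) → ℝ} (hp : Gauge μ p)
    (hB : BaseMix μ S 𝓕 p) (hρ : RhoSmall μ ν S φ p) {J : Finset ι} {i0 i1 : ι} (h0 : i0 ∈ J)
    (h1 : i1 ∈ J) (h01 : i0 ≠ i1) (hRel : Rel μ ν S φ Q 𝓕 (J.erase i0)) :
    ZM μ ν S φ Q 𝓕 J := by
  intro f g hf hg hf1 hg1 hJ hJ'
  rw [Metric.tendsto_nhds]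
  intro ε hε
  set η : ℝ := ε ^ 2 / 4 with hη
  have hη0 : 0 < η := by positivity
  obtain ⟨N, hN, hsum⟩ := hρ (f i1) (g i1) (hf i1) (hg i1) (hf1 i1) (hg1 i1) (hJ i1 h1) η hη0
  have hev : ∀ᶠ n in 𝓕, ∀ r ∈ Finset.range N, ∀ r' ∈ Finset.range N,
      ∫ z, Hn S φ Q f g J i0 n r z * Hn S φ Q f g J i0 n r' z ∂(μ.prod ν) ≤
        rho μ ν S φ p (f i1) (g i1) r r' + η := by
    rw [Filter.eventually_all_finset]
    intro r _
    rw [Filter.eventually_all_finset]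
    intro r' _
    exact pair_lim h hp hB h0 h1 h01 hRel hf hg hf1 hg1 r r' hη0
  filter_upwards [hev] with n hn
  have h2 := vdc h hf hg hf1 hg1 J i0 h0 hJ' n N
  have h3 : ∑ r ∈ Finset.range N, ∑ r' ∈ Finset.range N,
        ∫ z, Hn S φ Q f g J i0 n r z * Hn S φ Q f g J i0 n r' z ∂(μ.prod ν) ≤
      ∑ r ∈ Finset.range N, ∑ r' ∈ Finset.range N, (rho μ ν S φ p (f i1) (g i1) r r' + η) :=
    Finset.sum_le_sum fun r hr => Finset.sum_le_sum fun r' hr' => hn r hr r' hr'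
  have h4 : ∑ r ∈ Finset.range N, ∑ r' ∈ Finset.range N, (rho μ ν S φ p (f i1) (g i1) r r' + η) =
      ∑ r ∈ Finset.range N, ∑ r' ∈ Finset.range N, rho μ ν S φ p (f i1) (g i1) r r' +
        η * (N : ℝ) ^ 2 := by
    simp only [Finset.sum_add_distrib, Finset.sum_const, Finset.card_range, nsmul_eq_mul]
    ring
  rw [h4] at h3
  have h5 : ((N : ℝ) * LT (μ.prod ν) (skw S φ Q) (pf f g) n) ^ 2 ≤ 2 * η * (N : ℝ) ^ 2 := by
    linarith
  rw [mul_pow] at h5
  have hN' : (0 : ℝ) < (N : ℝ) ^ 2 := by positivity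
  have h6 : LT (μ.prod ν) (skw S φ Q) (pf f g) n ^ 2 ≤ 2 * η := by
    rw [mul_comm] at h5
    exact le_of_mul_le_mul_right h5 hN'
  rw [Real.dist_eq, sub_zero]
  have h7 : |LT (μ.prod ν) (skw S φ Q) (pf f g) n| ^ 2 < ε ^ 2 := by
    rw [sq_abs]
    have : 2 * η < ε ^ 2 := by rw [hη]; nlinarith [sq_pos_of_pos hε]
    linarith
  exact lt_of_pow_lt_pow_left₀ 2 hε.le h7

/-- **Core theorem** -/
theorem core (h : Sys μ ν S φ Q) {p : (X → ℝ) → ℝ} (hp : Gauge μ p)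
    (hB : BaseMix μ S 𝓕 p) (hρ : RhoSmall μ ν S φ p) :
    ∀ J : Finset ι, J.Nonempty → ZM μ ν S φ Q 𝓕 J := by
  intro J
  induction J using Finset.strongInduction with
  | H J ih =>
    intro hne
    obtain ⟨i0, h0⟩ := hne
    by_cases h1 : ∀ i ∈ J, i = i0
    · exact zm_single h h0 h1
    · push Not at h1
      obtain ⟨i1, h1, h01⟩ := h1
      refine zm_step h hp hB hρ h0 h1 (Ne.symm h01) ?_
      refine rel_of_zm h _ fun J' hJ' hne' => ?_
      exact ih J' (lt_of_le_of_lt hJ' (Finset.erase_ssubset h0)) hne'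

theorem rel_all (h : Sys μ ν S φ Q) {p : (X → ℝ) → ℝ} (hp : Gauge μ p)
    (hB : BaseMix μ S 𝓕 p) (hρ : RhoSmall μ ν S φ p) (F : ι → X × Y → ℝ)
    (hF : ∀ i, Measurable (F i)) (hF1 : ∀ i z, |F i z| ≤ 1) :
    Tendsto (fun n => LT (μ.prod ν) (skw S φ Q) F n - ME μ ν S F n) 𝓕 (𝓝 0) :=
  rel_of_zm h Finset.univ (fun J' _ hne => core h hp hB hρ J' hne) F hF hF1
    fun i hi => absurd (Finset.mem_univ i) hi

end

end Pool.Agent.W763.RM
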