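import Pool.Agent.W763.RM.Asm

/-!
The criterion by ergodicity of the difference skew product.
-/

set_option autoImplicit false
set_option linter.unusedSectionVars false

namespace Pool.Agent.W763.RM

open MeasureTheory Filter Topology H567MM

/-- the mean ergodic theorem for the autocorrelations of a function with integral zero -/
theorem mean_erg {Ω : Type*} [MeasurableSpace Ω] {P : Measure Ω} [IsProbabilityMeasure P]
    {τ : Ω → Ω} (hτ : Ergodic τ P) {Φ : Ω → ℝ} (hΦ : Measurable Φ) {B : ℝ}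
    (hB : ∀ z, |Φ z| ≤ B) (h0 : ∫ z, Φ z ∂P = 0) {η : ℝ} (hη : 0 < η) :
    ∃ N : ℕ, 0 < N ∧ ∑ n ∈ Finset.range N, ∫ z, Φ z * Φ (τ^[n] z) ∂P ≤ η * N := by
  have hmp : MeasurePreserving τ P P := hτ.toMeasurePreserving
  have hL : MemLp Φ 2 P := MemLp.of_bound hΦ.aestronglyMeasurable B (Eventually.of_forall hB)
  set U : Lp ℝ 2 P →L[ℝ] Lp ℝ 2 P :=
    (Lp.compMeasurePreservingₗᵢ ℝ τ hmp).toContinuousLinearMap with hU
  have hUn : ‖U‖ ≤ 1 := LinearIsometry.norm_toContinuousLinearMap_le _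
  set e : Lp ℝ 2 P := hL.toLp Φ with he
  have hUc : ∀ f, U f = Lp.compMeasurePreserving τ hmp f := fun f => rfl
  have hUit : ∀ n : ℕ, (⇑U)^[n] e = Lp.compMeasurePreserving τ^[n] (hmp.iterate n) e := by
    intro n
    rw [← Lp.compMeasurePreserving_iterate hmp n]
    rfl
  have hin : ∀ n : ℕ, inner ℝ e ((⇑U)^[n] e) = ∫ z, Φ z * Φ (τ^[n] z) ∂P := by
    intro n
    rw [hUit n, L2.inner_def]
    refine integral_congr_ae ?_
    have h1 := Lp.coeFn_compMeasurePreserving e (hmp.iterate n)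
    have h2 : ⇑e =ᵐ[P] Φ := hL.coeFn_toLp
    have h3 := (hmp.iterate n).quasiMeasurePreserving.ae_eq h2
    filter_upwards [h1, h2, h3] with z hz1 hz2 hz3
    have hz3' : e (τ^[n] z) = Φ (τ^[n] z) := hz3
    rw [hz1, Function.comp_apply, hz3', hz2]
    simp [mul_comm]
  have hlim := U.tendsto_birkhoffAverage_orthogonalProjection hUn e
  set hp := (U.eqLocus (1 : Lp ℝ 2 P →L[ℝ] Lp ℝ 2 P)).orthogonalProjectionOnto e with hpdef
  have hfix : U (hp : Lp ℝ 2 P) = hp := by
    have := hp.2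
    rw [LinearMap.mem_eqLocus] at this
    exact this
  have hlim2 : Tendsto (fun N : ℕ => inner ℝ e (birkhoffAverage ℝ U _root_.id N e)) atTop
      (𝓝 (inner ℝ e (hp : Lp ℝ 2 P))) := tendsto_const_nhds.inner hlim
  have hav : ∀ N : ℕ, inner ℝ e (birkhoffAverage ℝ U _root_.id N e) =
      (N : ℝ)⁻¹ * ∑ n ∈ Finset.range N, ∫ z, Φ z * Φ (τ^[n] z) ∂P := by
    intro N
    rw [birkhoffAverage, birkhoffSum, inner_smul_right, inner_sum]
    congr 1
    exact Finset.sum_congr rfl fun n _ => hin n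
  -- the projection is constant
  have hfinv : (⇑(hp : Lp ℝ 2 P)) ∘ τ =ᵐ[P] ⇑(hp : Lp ℝ 2 P) := by
    have h1 := Lp.coeFn_compMeasurePreserving (hp : Lp ℝ 2 P) hmp
    rw [← hUc, hfix] at h1
    exact h1.symm
  obtain ⟨c, hc⟩ := hτ.ae_eq_const_of_ae_eq_comp_ae
    (Lp.aestronglyMeasurable (hp : Lp ℝ 2 P)) hfinv
  have hzero : inner ℝ e (hp : Lp ℝ 2 P) = 0 := by
    rw [L2.inner_def]
    have h2 : ⇑e =ᵐ[P] Φ := hL.coeFn_toLp
    have h3 : ∫ z, inner ℝ (e z) ((hp : Lp ℝ 2 P) z) ∂P = ∫ z, c * Φ z ∂P := by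
      refine integral_congr_ae ?_
      filter_upwards [hc, h2] with z hz1 hz2
      rw [hz1, hz2]
      simp [mul_comm]
    rw [h3, integral_const_mul, h0, mul_zero]
  rw [hzero] at hlim2
  obtain ⟨N, hN1, hN2⟩ := ((hlim2.eventually_lt_const hη).and (eventually_gt_atTop 0)).exists
  refine ⟨N, hN2, ?_⟩
  rw [hav] at hN1
  have hN0 : (0 : ℝ) < N := by exact_mod_cast hN2
  rw [inv_mul_eq_div, div_lt_iff₀ hN0] at hN1
  exact hN1.le

section

variable {X Y G : Type*} [MeasurableSpace X] [MeasurableSpace Y] [MeasurableSpace G]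
  [CommGroup G] [MulAction G Y] [MeasurableMul₂ G] [MeasurableInv G] [MeasurableSMul₂ G Y]
  {μ : Measure X} {ν : Measure Y} [IsProbabilityMeasure μ] [IsProbabilityMeasure ν]
  {S : X → X} {φ : X → G} {Q : Y → Y}

/-- the difference cocycle -/
def dif (φ : X → G) (z : X × X) : G := φ z.1 / φ z.2

theorem coc_dif (S : X → X) (φ : X → G) (n : ℕ) (z : X × X) :
    coc (Prod.map S S) (dif φ) n z = coc S φ n z.1 / coc S φ n z.2 := by
  induction n with
  | zero => simp [coc]
  | succ n ih =>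
    simp only [coc]
    rw [ih, Prod.map_iterate]
    simp only [dif, Prod.map_fst, Prod.map_snd]
    rw [div_mul_div_comm]

theorem dif_meas (hφ : Measurable φ) : Measurable (dif φ) := by
  unfold dif
  simp only [div_eq_mul_inv]
  exact (hφ.comp measurable_fst).mul (hφ.comp measurable_snd).inv

theorem Sys.dif (h : Sys μ ν S φ Q) :
    Sys (μ.prod μ) ν (Prod.map S S) (dif φ) (id : Y → Y) where
  hS := h.hS.prod h.hS
  hQ := MeasurePreserving.id ν
  hφ := dif_meas h.hφ
  hR := h.hR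
  hQR := fun _ _ => rfl

theorem Sys.dif2 (h : Sys μ ν S φ Q) :
    Sys (μ.prod μ) (ν.prod ν) (Prod.map S S) (RM.dif φ) (id : Y × Y → Y × Y) where
  hS := h.hS.prod h.hS
  hQ := MeasurePreserving.id _
  hφ := dif_meas h.hφ
  hR := fun v => (h.hR v).prod (h.hR v)
  hQR := fun _ _ => rfl

theorem kap_inv (h : Sys μ ν S φ Q) {g : Y → ℝ} (hg : Measurable g) (v : G) :
    kap ν g v⁻¹ = kap ν g v := by
  have h1 := kap_two h hg 1 v
  rw [one_mul] at h1
  rw [← h1]
  unfold kap
  congr 1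
  funext y
  rw [one_smul, mul_comm]

/-- the test function for the first criterion -/
def Ph1 (f : X → ℝ) (g : Y → ℝ) (z : (X × X) × Y) : ℝ := f z.1.1 * f z.1.2 * g z.2

theorem rho1_sq (h : Sys μ ν S φ Q) {f : X → ℝ} {g : Y → ℝ} (hf : Measurable f)
    (hg : Measurable g) (hf1 : ∀ x, |f x| ≤ 1) (hg1 : ∀ y, |g y| ≤ 1) (m : ℕ) :
    0 ≤ ∫ z, Ph1 f g z * Ph1 f g ((skw (Prod.map S S) (RM.dif φ) (id : Y → Y))^[m] z)
      ∂((μ.prod μ).prod ν) ∧
    rho μ ν S φ (p1 μ) f g m 0 ≤ Real.sqrt (∫ z, Ph1 f g z *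
      Ph1 f g ((skw (Prod.map S S) (RM.dif φ) (id : Y → Y))^[m] z) ∂((μ.prod μ).prod ν)) := by
  have hSm := h.hS.measurable
  have hcm : Measurable (coc S φ m) := cocMeas S hSm φ h.hφ m
  set a : X → G := coc S φ m with ha
  set ff : X → ℝ := fun x => f (S^[m] x) * f x with hff
  have hffm : Measurable ff := (hf.comp (hSm.iterate m)).mul hf
  have hff1 : ∀ x, |ff x| ≤ 1 := by
    intro x
    simp only [hff]
    rw [abs_mul]
    exact mul_le_one₀ (hf1 _) (abs_nonneg _) (hf1 _)
  -- the function `A`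
  set A : Y → ℝ := fun y => ∫ x, ff x * g (a x • y) ∂μ with hA
  have hxy : Measurable fun w : Y × X => ff w.2 * g (a w.2 • w.1) :=
    (hffm.comp measurable_snd).mul (hg.comp ((hcm.comp measurable_snd).smul measurable_fst))
  have hAm : Measurable A := (hxy.stronglyMeasurable.integral_prod_right' (ν := μ)).measurable
  have hA1 : ∀ y, |A y| ≤ 1 := fun y => abs_int_le fun x => by
    rw [abs_mul]; exact mul_le_one₀ (hff1 _) (abs_nonneg _) (hg1 _)
  -- the integral of the square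
  have e1 : ∫ y, A y ^ 2 ∂ν = ∫ z : X × X, ff z.1 * ff z.2 * kap ν g (a z.1 / a z.2) ∂(μ.prod μ) := by
    set W : (X × X) × Y → ℝ := fun w => ff w.1.1 * ff w.1.2 *
      (g (a w.1.1 • w.2) * g (a w.1.2 • w.2)) with hW
    have hWm : Measurable W := by
      refine Measurable.mul (Measurable.mul ?_ ?_) (Measurable.mul ?_ ?_)
      · exact hffm.comp (measurable_fst.comp measurable_fst)
      · exact hffm.comp (measurable_snd.comp measurable_fst)
      · exact hg.comp ((hcm.comp (measurable_fst.comp measurable_fst)).smul measurable_snd)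
      · exact hg.comp ((hcm.comp (measurable_snd.comp measurable_fst)).smul measurable_snd)
    have hW1 : ∀ w, |W w| ≤ 1 := by
      intro w
      simp only [hW]
      rw [abs_mul (ff w.1.1 * ff w.1.2), abs_mul (ff w.1.1), abs_mul (g (a w.1.1 • w.2))]
      exact mul_le_one₀ (mul_le_one₀ (hff1 _) (abs_nonneg _) (hff1 _))
        (by positivity) (mul_le_one₀ (hg1 _) (abs_nonneg _) (hg1 _))
    have e2 : ∫ w, W w ∂((μ.prod μ).prod ν) =
        ∫ z : X × X, ff z.1 * ff z.2 * kap ν g (a z.1 / a z.2) ∂(μ.prod μ) := by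
      rw [int_prod hWm hW1]
      congr 1
      funext z
      simp only [hW]
      rw [integral_const_mul, kap_two h hg, div_eq_mul_inv]
    have e3 : ∫ w, W w ∂((μ.prod μ).prod ν) = ∫ y, A y ^ 2 ∂ν := by
      rw [integral_prod_symm _ (int_bdd hWm hW1)]
      congr 1
      funext y
      have e4 : (fun z : X × X => W (z, y)) = fun z =>
          (ff z.1 * g (a z.1 • y)) * (ff z.2 * g (a z.2 • y)) := by
        funext z
        simp only [hW]
        ring
      rw [e4, integral_prod_mul (fun x => ff x * g (a x • y)) (fun x => ff x * g (a x • y)), sq]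
    rw [← e3, e2]
  have e2 : ∫ z, Ph1 f g z * Ph1 f g ((skw (Prod.map S S) (RM.dif φ) (id : Y → Y))^[m] z)
      ∂((μ.prod μ).prod ν) = ∫ y, A y ^ 2 ∂ν := by
    rw [e1]
    have hPm : Measurable fun z => Ph1 f g z *
        Ph1 f g ((skw (Prod.map S S) (RM.dif φ) (id : Y → Y))^[m] z) := by
      have h1 : Measurable (Ph1 f g) :=
        ((hf.comp (measurable_fst.comp measurable_fst)).mul
          (hf.comp (measurable_snd.comp measurable_fst))).mul (hg.comp measurable_snd)
      exact h1.mul (h1.comp (h.dif.mp.iterate m).measurable)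
    have hP1 : ∀ z, |Ph1 f g z| ≤ 1 := by
      intro z
      unfold Ph1
      rw [abs_mul, abs_mul]
      exact mul_le_one₀ (mul_le_one₀ (hf1 _) (abs_nonneg _) (hf1 _)) (abs_nonneg _) (hg1 _)
    have hPb : ∀ z, |Ph1 f g z *
        Ph1 f g ((skw (Prod.map S S) (RM.dif φ) (id : Y → Y))^[m] z)| ≤ 1 := by
      intro z
      rw [abs_mul]
      exact mul_le_one₀ (hP1 _) (abs_nonneg _) (hP1 _)
    rw [int_prod hPm hPb]
    congr 1
    funext z
    obtain ⟨x, x'⟩ := z
    have e5 : ∀ y, Ph1 f g ((x, x'), y) *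
        Ph1 f g ((skw (Prod.map S S) (RM.dif φ) (id : Y → Y))^[m] ((x, x'), y)) =
        ff x * ff x' * (g ((a x / a x') • y) * g y) := by
      intro y
      rw [h.dif.iterate, coc_dif, Prod.map_iterate]
      simp only [Ph1, Prod.map_apply, Function.iterate_id, id_eq, hff, ha]
      ring
    simp only [e5]
    rw [integral_const_mul]
    rfl
  rw [e2]
  -- the bound
  set D : ℝ := ∫ y, A y ^ 2 ∂ν with hD
  have hD0 : 0 ≤ D := integral_nonneg fun y => sq_nonneg _
  refine ⟨hD0, ?_⟩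
  have key : ∀ x0, p1 μ (fun x => ker ν S φ f g m 0 (x0, x)) ≤ Real.sqrt D := by
    intro x0
    unfold p1
    have e3 : ∫ x, ker ν S φ f g m 0 (x0, x) ∂μ = ∫ y, g (a x0 • y) * A y ∂ν := by
      have e4 : ∀ x, ker ν S φ f g m 0 (x0, x) =
          ∫ y, ff x * (g (a x • y) * g (a x0 • y)) ∂ν := by
        intro x
        rw [ker_zero h hg, integral_const_mul, kap_two h hg, mul_comm (a x)]
      have hm2 : Measurable (Function.uncurry fun (x : X) (y : Y) =>
          ff x * (g (a x • y) * g (a x0 • y))) := by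
        refine (hffm.comp measurable_fst).mul (Measurable.mul ?_ ?_)
        · exact hg.comp ((hcm.comp measurable_fst).smul measurable_snd)
        · exact hg.comp ((h.hR (a x0)).measurable.comp measurable_snd)
      have hb2 : ∀ w, |Function.uncurry (fun (x : X) (y : Y) =>
          ff x * (g (a x • y) * g (a x0 • y))) w| ≤ 1 := by
        intro w
        simp only [Function.uncurry]
        rw [abs_mul (ff w.1), abs_mul (g (a w.1 • w.2))]
        exact mul_le_one₀ (hff1 _) (by positivity) (mul_le_one₀ (hg1 _) (abs_nonneg _) (hg1 _))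
      simp only [e4]
      rw [integral_integral_swap (int_bdd hm2 hb2)]
      congr 1
      funext y
      simp only [hA]
      rw [← integral_const_mul]
      congr 1
      funext x
      ring
    rw [e3]
    have hgA : Measurable fun y => g (a x0 • y) * A y :=
      (hg.comp (h.hR (a x0)).measurable).mul hAm
    have hgA1 : ∀ y, |g (a x0 • y) * A y| ≤ 1 := fun y => by
      rw [abs_mul]; exact mul_le_one₀ (hg1 _) (abs_nonneg _) (hA1 y)
    have e5 : (∫ y, g (a x0 • y) * A y ∂ν) ^ 2 ≤ D := by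
      refine (sq_int_le hgA hgA1).trans ?_
      refine int_mono_bdd (B := 1) (B' := 1) (hgA.pow_const 2) (fun y => ?_) (hAm.pow_const 2)
        (fun y => ?_) fun y => ?_
      · rw [abs_pow]; exact pow_le_one₀ (abs_nonneg _) (hgA1 y)
      · rw [abs_pow]; exact pow_le_one₀ (abs_nonneg _) (hA1 y)
      · show (g (a x0 • y) * A y) ^ 2 ≤ A y ^ 2
        rw [mul_pow]
        refine mul_le_of_le_one_left (sq_nonneg _) ?_
        rw [← sq_abs]
        exact pow_le_one₀ (abs_nonneg _) (hg1 _)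
    rw [← Real.sqrt_sq_eq_abs]
    exact Real.sqrt_le_sqrt e5
  unfold rho
  have hkm := ker_meas (G := G) h hf hg m 0
  have hk1 := ker_le (ν := ν) (S := S) (φ := φ) hf1 hg1 m 0
  have hpm := gauge1.meas _ hkm hk1 (μ := μ)
  have hpb : ∀ x0, |p1 μ (fun x => ker ν S φ f g m 0 (x0, x))| ≤ 1 := fun x0 =>
    gauge1.le_one (hkm.comp measurable_prodMk_left) fun x => hk1 _
  have h9 := integral_mono (μ := μ) (int_bdd hpm hpb) (integrable_const (Real.sqrt D)) key
  refine h9.trans (le_of_eq ?_)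
  simp

theorem sum_sqrt (c : ℕ → ℝ) (hc : ∀ n, 0 ≤ c n) (N : ℕ) {η : ℝ} (hη : 0 ≤ η)
    (h : ∑ n ∈ Finset.range N, c n ≤ η ^ 2 * N) :
    ∑ n ∈ Finset.range N, Real.sqrt (c n) ≤ η * N := by
  have h1 : (∑ n ∈ Finset.range N, Real.sqrt (c n)) ^ 2 ≤
      (Finset.range N).card * ∑ n ∈ Finset.range N, Real.sqrt (c n) ^ 2 :=
    sq_sum_le_card_mul_sum_sq
  have h2 : ∑ n ∈ Finset.range N, Real.sqrt (c n) ^ 2 = ∑ n ∈ Finset.range N, c n :=
    Finset.sum_congr rfl fun n _ => Real.sq_sqrt (hc n)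
  rw [h2, Finset.card_range] at h1
  have h3 : (∑ n ∈ Finset.range N, Real.sqrt (c n)) ^ 2 ≤ (η * N) ^ 2 := by
    refine h1.trans ?_
    calc (N : ℝ) * ∑ n ∈ Finset.range N, c n ≤ N * (η ^ 2 * N) :=
          mul_le_mul_of_nonneg_left h (Nat.cast_nonneg _)
      _ = (η * N) ^ 2 := by ring
  exact (sq_le_sq₀ (Finset.sum_nonneg fun n _ => Real.sqrt_nonneg _) (by positivity)).1 h3

end

end Pool.Agent.W763.RM
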