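import Pool.Agent.W763.RM.Erg

/-!
The criterion by ergodicity of the difference skew product, continued.
-/

set_option autoImplicit false
set_option linter.unusedSectionVars false

namespace Pool.Agent.W763.RM

open MeasureTheory Filter Topology H567MM

section

variable {X Y G : Type*} [MeasurableSpace X] [MeasurableSpace Y] [MeasurableSpace G]
  [CommGroup G] [MulAction G Y] [MeasurableMul₂ G] [MeasurableInv G] [MeasurableSMul₂ G Y]
  {μ : Measure X} {ν : Measure Y} [IsProbabilityMeasure μ] [IsProbabilityMeasure ν]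
  {S : X → X} {φ : X → G} {Q : Y → Y}

instance instSMul2 : MeasurableSMul₂ G (Y × Y) := by
  refine ⟨?_⟩
  have h1 : Measurable fun w : G × (Y × Y) => w.1 • w.2.1 :=
    measurable_fst.smul (measurable_fst.comp measurable_snd)
  have h2 : Measurable fun w : G × (Y × Y) => w.1 • w.2.2 :=
    measurable_fst.smul (measurable_snd.comp measurable_snd)
  exact h1.prodMk h2

/-- the test function for the second criterion -/
def Ph2 (g : Y → ℝ) (z : (X × X) × (Y × Y)) : ℝ := g z.2.1 * g z.2.2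

theorem rho2_sq (h : Sys μ ν S φ Q) {f : X → ℝ} {g : Y → ℝ} (hf : Measurable f)
    (hg : Measurable g) (hf1 : ∀ x, |f x| ≤ 1) (hg1 : ∀ y, |g y| ≤ 1) (m : ℕ) :
    0 ≤ ∫ z, Ph2 g z * Ph2 g ((skw (Prod.map S S) (RM.dif φ) (id : Y × Y → Y × Y))^[m] z)
        ∂((μ.prod μ).prod (ν.prod ν)) ∧
    rho μ ν S φ (p2 μ) f g m 0 ≤ Real.sqrt (∫ z, Ph2 g z *
      Ph2 g ((skw (Prod.map S S) (RM.dif φ) (id : Y × Y → Y × Y))^[m] z)
        ∂((μ.prod μ).prod (ν.prod ν))) := by
  have hSm := h.hS.measurable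
  have hcm : Measurable (coc S φ m) := cocMeas S hSm φ h.hφ m
  have hkm := ker_meas (G := G) h hf hg m 0
  have hk1 := ker_le (ν := ν) (S := S) (φ := φ) hf1 hg1 m 0
  have hkap := kap_meas (G := G) (ν := ν) hg
  have e1 : ∫ z, Ph2 g z * Ph2 g ((skw (Prod.map S S) (RM.dif φ) (id : Y × Y → Y × Y))^[m] z)
        ∂((μ.prod μ).prod (ν.prod ν)) =
      ∫ z : X × X, kap ν g (coc S φ m z.1 / coc S φ m z.2) ^ 2 ∂(μ.prod μ) := by
    have h1 : Measurable (Ph2 (X := X) g) :=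
      (hg.comp (measurable_fst.comp measurable_snd)).mul
        (hg.comp (measurable_snd.comp measurable_snd))
    have hP1 : ∀ z, |Ph2 (X := X) g z| ≤ 1 := by
      intro z
      unfold Ph2
      rw [abs_mul]
      exact mul_le_one₀ (hg1 _) (abs_nonneg _) (hg1 _)
    have hPm : Measurable fun z => Ph2 (X := X) g z *
        Ph2 g ((skw (Prod.map S S) (RM.dif φ) (id : Y × Y → Y × Y))^[m] z) :=
      h1.mul (h1.comp (h.dif2.mp.iterate m).measurable)
    have hPb : ∀ z, |Ph2 (X := X) g z *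
        Ph2 g ((skw (Prod.map S S) (RM.dif φ) (id : Y × Y → Y × Y))^[m] z)| ≤ 1 := by
      intro z
      rw [abs_mul]
      exact mul_le_one₀ (hP1 _) (abs_nonneg _) (hP1 _)
    rw [int_prod hPm hPb]
    congr 1
    funext z
    obtain ⟨x, x'⟩ := z
    set v : G := coc S φ m x / coc S φ m x' with hv
    have e5 : ∀ w : Y × Y, Ph2 (X := X) g ((x, x'), w) *
        Ph2 g ((skw (Prod.map S S) (RM.dif φ) (id : Y × Y → Y × Y))^[m] ((x, x'), w)) =
        (g (v • w.1) * g w.1) * (g (v • w.2) * g w.2) := by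
      intro w
      rw [h.dif2.iterate, coc_dif, Prod.map_iterate]
      simp only [Ph2, Prod.map_apply, Function.iterate_id, id_eq, Prod.smul_fst, Prod.smul_snd,
        hv]
      ring
    simp only [e5]
    rw [integral_prod_mul (fun y => g (v • y) * g y) (fun y => g (v • y) * g y), sq]
    rfl
  rw [e1]
  refine ⟨integral_nonneg fun z => sq_nonneg _, ?_⟩
  have e2 : rho μ ν S φ (p2 μ) f g m 0 = ∫ z, |ker ν S φ f g m 0 z| ∂(μ.prod μ) := by
    rw [int_prod hkm.abs fun z => by rw [abs_abs]; exact hk1 z]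
    rfl
  rw [e2]
  have e3 : (∫ z, |ker ν S φ f g m 0 z| ∂(μ.prod μ)) ^ 2 ≤
      ∫ z : X × X, kap ν g (coc S φ m z.1 / coc S φ m z.2) ^ 2 ∂(μ.prod μ) := by
    refine (sq_int_le hkm.abs fun z => by rw [abs_abs]; exact hk1 z).trans ?_
    have hdm : Measurable fun z : X × X => kap ν g (coc S φ m z.1 / coc S φ m z.2) := by
      simp only [div_eq_mul_inv]
      exact hkap.comp ((hcm.comp measurable_fst).mul (hcm.comp measurable_snd).inv)
    refine int_mono_bdd (B := 1) (B' := 1) (hkm.abs.pow_const 2) (fun z => ?_)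
      (hdm.pow_const 2) (fun z => ?_) fun z => ?_
    · rw [abs_pow, abs_abs]; exact pow_le_one₀ (abs_nonneg _) (hk1 z)
    · rw [abs_pow]; exact pow_le_one₀ (abs_nonneg _) (kap_le hg1 _)
    · simp only [sq_abs]
      rw [ker_zero h hg, mul_pow]
      have e4 : kap ν g (coc S φ m z.1 / coc S φ m z.2) =
          kap ν g ((coc S φ m z.1)⁻¹ * coc S φ m z.2) := by
        rw [← kap_inv h hg (coc S φ m z.1 / coc S φ m z.2)]
        congr 1
        rw [inv_div, div_eq_mul_inv, mul_comm]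
      rw [e4]
      refine mul_le_of_le_one_left (sq_nonneg _) ?_
      rw [← sq_abs, abs_mul]
      exact pow_le_one₀ (by positivity) (mul_le_one₀ (hf1 _) (abs_nonneg _) (hf1 _))
  rw [← Real.sqrt_sq (integral_nonneg fun z => abs_nonneg (ker ν S φ f g m 0 z))]
  exact Real.sqrt_le_sqrt e3

theorem rhoSmall_erg1 (h : Sys μ ν S φ Q)
    (he : Ergodic (skw (Prod.map S S) (RM.dif φ) (id : Y → Y)) ((μ.prod μ).prod ν)) :
    RhoSmall μ ν S φ (p1 μ) := by
  refine rhoSmall_of h gauge1 (ginv1 h.hS) ?_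
  intro f g hf hg hf1 hg1 hg0 η hη
  have h1 : Measurable (Ph1 f g) :=
    ((hf.comp (measurable_fst.comp measurable_fst)).mul
      (hf.comp (measurable_snd.comp measurable_fst))).mul (hg.comp measurable_snd)
  have hP1 : ∀ z, |Ph1 f g z| ≤ 1 := by
    intro z
    unfold Ph1
    rw [abs_mul, abs_mul]
    exact mul_le_one₀ (mul_le_one₀ (hf1 _) (abs_nonneg _) (hf1 _)) (abs_nonneg _) (hg1 _)
  have h0 : ∫ z, Ph1 f g z ∂((μ.prod μ).prod ν) = 0 := by
    have := integral_prod_mul (μ := μ.prod μ) (ν := ν) (fun z : X × X => f z.1 * f z.2) g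
    unfold Ph1
    rw [this, hg0, mul_zero]
  obtain ⟨N, hN, hs⟩ := mean_erg he h1 hP1 h0 (η := η ^ 2) (by positivity)
  refine ⟨N, hN, ?_⟩
  refine (Finset.sum_le_sum fun m _ => (rho1_sq h hf hg hf1 hg1 m).2).trans ?_
  exact sum_sqrt _ (fun m => (rho1_sq h hf hg hf1 hg1 m).1) N hη.le hs

theorem rhoSmall_erg2 (h : Sys μ ν S φ Q)
    (he : Ergodic (skw (Prod.map S S) (RM.dif φ) (id : Y × Y → Y × Y))
      ((μ.prod μ).prod (ν.prod ν))) :
    RhoSmall μ ν S φ (p2 μ) := by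
  refine rhoSmall_of h gauge2 (ginv2 h.hS) ?_
  intro f g hf hg hf1 hg1 hg0 η hη
  have h1 : Measurable (Ph2 (X := X) g) :=
    (hg.comp (measurable_fst.comp measurable_snd)).mul
      (hg.comp (measurable_snd.comp measurable_snd))
  have hP1 : ∀ z, |Ph2 (X := X) g z| ≤ 1 := by
    intro z
    unfold Ph2
    rw [abs_mul]
    exact mul_le_one₀ (hg1 _) (abs_nonneg _) (hg1 _)
  have h0 : ∫ z, Ph2 (X := X) g z ∂((μ.prod μ).prod (ν.prod ν)) = 0 := by
    rw [int_prod h1 hP1]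
    have e1 : ∀ x : X × X, ∫ w : Y × Y, Ph2 g (x, w) ∂(ν.prod ν) = 0 := by
      intro x
      have := integral_prod_mul (μ := ν) (ν := ν) g g
      unfold Ph2
      simp only
      rw [this, hg0, mul_zero]
    simp only [e1, integral_zero]
  obtain ⟨N, hN, hs⟩ := mean_erg he h1 hP1 h0 (η := η ^ 2) (by positivity)
  refine ⟨N, hN, ?_⟩
  refine (Finset.sum_le_sum fun m _ => (rho2_sq h hf hg hf1 hg1 m).2).trans ?_
  exact sum_sqrt _ (fun m => (rho2_sq h hf hg hf1 hg1 m).1) N hη.le hs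

/-- first criterion -/
theorem crit1 (h : Sys μ ν S φ Q) (k : ℕ)
    (he : Ergodic (skw (Prod.map S S) (RM.dif φ) (id : Y → Y)) ((μ.prod μ).prod ν)) :
    MixOrd (μ.prod ν) (skw S φ Q) k ↔ MixOrd μ S k := by
  refine ⟨fun hk => mix_down h hk, fun hk => mix_up h (fun F hF hF1 => ?_) hk⟩
  exact rel_all h gauge1 (baseMix1 h.hS k hk) (rhoSmall_erg1 h he) F hF hF1

/-- second criterion -/
theorem crit2 (h : Sys μ ν S φ Q) (hS : MixOrd μ S 1) (k : ℕ)
    (he : Ergodic (skw (Prod.map S S) (RM.dif φ) (id : Y × Y → Y × Y))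
      ((μ.prod μ).prod (ν.prod ν)))
    (F : Fin (k + 1) → X × Y → ℝ) (hF : ∀ i, Measurable (F i))
    (hb : ∀ i, ∃ C : ℝ, ∀ z, |F i z| ≤ C) (ε : ℝ) (hε : 0 < ε) :
    ∃ N : ℕ, ∀ n : Fin (k + 1) → ℕ, n 0 = 0 → (∀ j : Fin k, n j.castSucc + N ≤ n j.succ) →
      |∫ z, ∏ i, F i ((skw S φ Q)^[n i] z) ∂(μ.prod ν) -
        ∫ x, ∏ i, (∫ y, F i (S^[n i] x, y) ∂ν) ∂μ| < ε :=
  rel_bdd (fun F hF hF1 => rel_all h gauge2 (baseMix2 h.hS k hS) (rhoSmall_erg2 h he) F hF hF1)
    F hF hb ε hε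

end

end Pool.Agent.W763.RM
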