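import Mathlib

/-!
Approximation of functions on a product by functions which depend on the first coordinate
through a finite partition only.
-/

set_option autoImplicit false

namespace Pool.Agent.W763.RM

open MeasureTheory Filter Topology

variable {X Y : Type*} [MeasurableSpace X] [MeasurableSpace Y]

/-- the function `z ↦ h (c z.1) z.2` -/
def fp {C : Type} (c : X → C) (h : C → Y → ℝ) (z : X × Y) : ℝ := h (c z.1) z.2

theorem fp_meas {C : Type} [Fintype C] [MeasurableSpace C] [DiscreteMeasurableSpace C]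
    {c : X → C} (hc : Measurable c) {h : C → Y → ℝ} (hh : ∀ i, Measurable (h i)) :
    Measurable (fp c h) := by
  have h1 : Measurable (fun p : C × Y => h p.1 p.2) :=
    measurable_from_prod_countable_right hh
  exact h1.comp ((hc.comp measurable_fst).prodMk measurable_snd)

/-- approximable functions -/
def FinApp (m : Measure (X × Y)) (u : X × Y → ℝ) : Prop :=
  ∀ ε : ℝ, 0 < ε → ∃ (C : Type) (_ : Fintype C) (_ : MeasurableSpace C)
    (_ : DiscreteMeasurableSpace C) (c : X → C) (h : C → Y → ℝ) (K : ℝ), Measurable c ∧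
    (∀ i, Measurable (h i)) ∧ (∀ i y, |h i y| ≤ K) ∧ ∫ z, |u z - fp c h z| ∂m < ε

variable (m : Measure (X × Y)) [IsProbabilityMeasure m]

theorem fp_int {C : Type} [Fintype C] [MeasurableSpace C] [DiscreteMeasurableSpace C]
    {c : X → C} (hc : Measurable c) {h : C → Y → ℝ} (hh : ∀ i, Measurable (h i)) {K : ℝ}
    (hK : ∀ i y, |h i y| ≤ K) : Integrable (fp c h) m :=
  Integrable.of_bound (fp_meas hc hh).aestronglyMeasurable K
    (Eventually.of_forall fun z => hK _ _)

/-- the algebra -/
def pAlg (X Y : Type*) [MeasurableSpace X] [MeasurableSpace Y] : Set (Set (X × Y)) :=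
  {A | ∃ (C : Type) (_ : Fintype C) (_ : MeasurableSpace C) (_ : DiscreteMeasurableSpace C)
    (c : X → C) (B : C → Set Y), Measurable c ∧ (∀ i, MeasurableSet (B i)) ∧
    A = {z | z.2 ∈ B (c z.1)}}

theorem pAlg_alg : IsSetAlgebra (pAlg X Y) := by
  constructor
  · refine ⟨Unit, inferInstance, inferInstance, inferInstance, fun _ => (), fun _ => ∅,
      measurable_const, fun _ => MeasurableSet.empty, ?_⟩
    ext z; simp
  · rintro s ⟨C, i1, i2, i3, c, B, hc, hB, rfl⟩
    exact ⟨C, i1, i2, i3, c, fun i => (B i)ᶜ, hc, fun i => (hB i).compl, rfl⟩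
  · rintro s t ⟨C, i1, i2, i3, c, B, hc, hB, rfl⟩ ⟨C', i1', i2', i3', c', B', hc', hB', rfl⟩
    refine ⟨C × C', inferInstance, inferInstance, inferInstance, fun x => (c x, c' x),
      fun i => B i.1 ∪ B' i.2, hc.prodMk hc', fun i => (hB _).union (hB' _), rfl⟩

theorem pAlg_meas {A : Set (X × Y)} (hA : A ∈ pAlg X Y) : MeasurableSet A := by
  obtain ⟨C, i1, i2, i3, c, B, hc, hB, rfl⟩ := hA
  have : {z : X × Y | z.2 ∈ B (c z.1)} = ⋃ i : C, (c ⁻¹' {i}) ×ˢ (B i) := by
    ext z
    simp only [Set.mem_setOf_eq, Set.mem_iUnion, Set.mem_prod, Set.mem_preimage,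
      Set.mem_singleton_iff]
    constructor
    · intro h
      exact ⟨c z.1, rfl, h⟩
    · rintro ⟨i, rfl, h⟩
      exact h
  rw [this]
  exact MeasurableSet.iUnion fun i => (hc (measurableSet_singleton i)).prod (hB i)

theorem pAlg_gen : (Prod.instMeasurableSpace : MeasurableSpace (X × Y)) =
    MeasurableSpace.generateFrom (pAlg X Y) := by
  classical
  apply le_antisymm
  · rw [← generateFrom_prod]
    apply MeasurableSpace.generateFrom_mono
    rintro _ ⟨A, hA, B, hB, rfl⟩
    refine ⟨Bool, inferInstance, inferInstance, inferInstance, fun x => decide (x ∈ A),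
      fun b => if b then B else ∅, ?_, ?_, ?_⟩
    · exact measurable_to_bool (by
        have : (fun x => decide (x ∈ A)) ⁻¹' {true} = A := by ext x; simp
        rw [this]; exact hA)
    · intro b
      cases b
      · simp
      · simpa using hB
    · ext z
      by_cases h : z.1 ∈ A <;> simp [h, Set.mem_prod]
  · apply MeasurableSpace.generateFrom_le
    intro s hs
    exact pAlg_meas hs

theorem finApp_ind {A : Set (X × Y)} (hA : MeasurableSet A) :
    FinApp m (A.indicator fun _ => (1 : ℝ)) := by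
  classical
  intro ε hε
  have hd : m.MeasureDense (pAlg X Y) :=
    Measure.MeasureDense.of_generateFrom_isSetAlgebra_finite _ pAlg_alg pAlg_gen
  obtain ⟨t, ht, hm⟩ := hd.approx A hA (measure_ne_top _ _) ε hε
  have htm := pAlg_meas ht
  obtain ⟨C, i1, i2, i3, c, B, hc, hB, rfl⟩ := ht
  refine ⟨C, i1, i2, i3, c, fun i => (B i).indicator fun _ => 1, 1, hc,
    fun i => measurable_const.indicator (hB i), ?_, ?_⟩
  · intro i y
    by_cases h : y ∈ B i <;> simp [h]
  · have e : (fun z => |(A.indicator (fun _ => (1 : ℝ)) z) -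
        fp c (fun i => (B i).indicator fun _ => (1 : ℝ)) z|) =
        (symmDiff A {z | z.2 ∈ B (c z.1)}).indicator fun _ => (1 : ℝ) := by
      funext z
      by_cases h1 : z ∈ A <;> by_cases h2 : z.2 ∈ B (c z.1) <;>
        simp [fp, h1, h2, Set.mem_symmDiff, Set.indicator]
    rw [e, integral_indicator_const _ (hA.symmDiff htm)]
    rw [smul_eq_mul, mul_one, Measure.real]
    exact (ENNReal.toReal_lt_of_lt_ofReal hm)

theorem FinApp.add {u v : X × Y → ℝ} (hu : FinApp m u) (hv : FinApp m v)
    (hui : Integrable u m) (hvi : Integrable v m) : FinApp m (u + v) := by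
  intro ε hε
  obtain ⟨C, i1, i2, i3, c, h, K, hc, hh, hK, hlt⟩ := hu (ε / 2) (by positivity)
  obtain ⟨C', i1', i2', i3', c', h', K', hc', hh', hK', hlt'⟩ := hv (ε / 2) (by positivity)
  refine ⟨C × C', inferInstance, inferInstance, inferInstance, fun x => (c x, c' x),
      fun i y => h i.1 y + h' i.2 y, K + K', hc.prodMk hc', fun i => (hh _).add (hh' _), ?_, ?_⟩
  · intro i y
    exact (abs_add_le _ _).trans (add_le_add (hK _ _) (hK' _ _))
  · have hi1 : Integrable (fun z => |u z - fp c h z|) m := (hui.sub (fp_int m hc hh hK)).abs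
    have hi2 : Integrable (fun z => |v z - fp c' h' z|) m := (hvi.sub (fp_int m hc' hh' hK')).abs
    calc ∫ z, |(u + v) z - fp (fun x => (c x, c' x)) (fun i y => h i.1 y + h' i.2 y) z| ∂m
        ≤ ∫ z, (|u z - fp c h z| + |v z - fp c' h' z|) ∂m := by
          refine integral_mono_of_nonneg (Eventually.of_forall fun z => abs_nonneg _)
            (hi1.add hi2) (Eventually.of_forall fun z => ?_)
          have : (u + v) z - fp (fun x => (c x, c' x)) (fun i y => h i.1 y + h' i.2 y) z =
            (u z - fp c h z) + (v z - fp c' h' z) := by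
            simp only [Pi.add_apply, fp]; ring
          show |_| ≤ _
          rw [this]
          exact abs_add_le _ _
      _ = ∫ z, |u z - fp c h z| ∂m + ∫ z, |v z - fp c' h' z| ∂m := integral_add hi1 hi2
      _ < ε := by linarith

theorem FinApp.smul {u : X × Y → ℝ} (hu : FinApp m u) (a : ℝ) :
    FinApp m (fun z => a * u z) := by
  intro ε hε
  obtain ⟨C, i1, i2, i3, c, h, K, hc, hh, hK, hlt⟩ := hu (ε / (|a| + 1)) (by positivity)
  refine ⟨C, i1, i2, i3, c, fun i y => a * h i y, |a| * K, hc, fun i => (hh i).const_mul a, ?_, ?_⟩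
  · intro i y
    rw [abs_mul]
    exact mul_le_mul_of_nonneg_left (hK _ _) (abs_nonneg _)
  · have e : (fun z => |a * u z - fp c (fun i y => a * h i y) z|) =
        fun z => |a| * |u z - fp c h z| := by
      funext z
      rw [← abs_mul]
      congr 1
      simp only [fp]; ring
    rw [e, integral_const_mul]
    rw [lt_div_iff₀ (by positivity)] at hlt
    have h0 : 0 ≤ ∫ z, |u z - fp c h z| ∂m := integral_nonneg fun z => abs_nonneg _
    have h1 : 0 ≤ |a| := abs_nonneg a
    nlinarith

theorem FinApp.lim {u : X × Y → ℝ} (hui : Integrable u m)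
    (h : ∀ ε : ℝ, 0 < ε → ∃ v : X × Y → ℝ, Integrable v m ∧ FinApp m v ∧
      ∫ z, |u z - v z| ∂m < ε) : FinApp m u := by
  intro ε hε
  obtain ⟨v, hvi, hv, hlt⟩ := h (ε / 2) (by positivity)
  obtain ⟨C, i1, i2, i3, c, h, K, hc, hh, hK, hlt'⟩ := hv (ε / 2) (by positivity)
  refine ⟨C, i1, i2, i3, c, h, K, hc, hh, hK, ?_⟩
  have hi1 : Integrable (fun z => |u z - v z|) m := (hui.sub hvi).abs
  have hi2 : Integrable (fun z => |v z - fp c h z|) m := (hvi.sub (fp_int m hc hh hK)).abs
  calc ∫ z, |u z - fp c h z| ∂m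
      ≤ ∫ z, (|u z - v z| + |v z - fp c h z|) ∂m := by
        refine integral_mono_of_nonneg (Eventually.of_forall fun z => abs_nonneg _)
          (hi1.add hi2) (Eventually.of_forall fun z => abs_sub_le _ _ _)
    _ = ∫ z, |u z - v z| ∂m + ∫ z, |v z - fp c h z| ∂m := integral_add hi1 hi2
    _ < ε := by linarith

theorem finApp_integrable {u : X × Y → ℝ} (hu : Integrable u m) : FinApp m u := by
  refine Integrable.induction (fun u => FinApp m u) ?_ ?_ ?_ ?_ hu
  · intro a s hs _
    have h1 := (finApp_ind m hs).smul m a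
    have e : (fun z => a * s.indicator (fun _ => (1 : ℝ)) z) = s.indicator fun _ => a := by
      funext z
      by_cases h : z ∈ s <;> simp [h]
    rwa [e] at h1
  · intro f g _ hf hg h1 h2
    exact h1.add m h2 hf hg
  · refine isClosed_of_closure_subset fun f hf => ?_
    refine FinApp.lim m (L1.integrable_coeFn f) fun ε hε => ?_
    obtain ⟨g, hg, hd⟩ := Metric.mem_closure_iff.1 hf ε hε
    refine ⟨g, L1.integrable_coeFn g, hg, ?_⟩
    rw [L1.dist_eq_integral_dist] at hd
    exact hd
  · intro f g hfg hf h1 ε hε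
    obtain ⟨C, i1, i2, i3, c, h, K, hc, hh, hK, hlt⟩ := h1 ε hε
    refine ⟨C, i1, i2, i3, c, h, K, hc, hh, hK, ?_⟩
    refine lt_of_eq_of_lt ?_ hlt
    refine integral_congr_ae ?_
    filter_upwards [hfg] with z hz
    rw [hz]

/-- truncation -/
noncomputable def trunc (t : ℝ) : ℝ := max (-1) (min 1 t)

theorem trunc_abs (t : ℝ) : |trunc t| ≤ 1 := by
  unfold trunc
  rw [abs_le]
  constructor
  · exact le_max_left _ _
  · exact max_le (by norm_num) (min_le_left _ _)

theorem trunc_dist (s t : ℝ) (hs : |s| ≤ 1) : |s - trunc t| ≤ |s - t| := by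
  unfold trunc
  rw [abs_le] at hs
  rcases le_total 1 t with h | h
  · rw [min_eq_left h, max_eq_right (by norm_num)]
    rw [abs_of_nonpos (by linarith), abs_of_nonpos (by linarith)]
    linarith
  · rw [min_eq_right h]
    rcases le_total (-1) t with h2 | h2
    · rw [max_eq_right h2]
    · rw [max_eq_left h2, abs_of_nonneg (by linarith), abs_of_nonneg (by linarith)]
      linarith

theorem trunc_meas : Measurable trunc := by
  unfold trunc
  fun_prop

/-- the finite approximation of a finite family of functions bounded by one -/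
theorem finApp_family {κ : Type} [Fintype κ] (u : κ → X × Y → ℝ) (hu : ∀ j, Measurable (u j))
    (hb : ∀ j z, |u j z| ≤ 1) (ε : ℝ) (hε : 0 < ε) :
    ∃ (C : Type) (_ : Fintype C) (_ : MeasurableSpace C) (_ : DiscreteMeasurableSpace C)
      (c : X → C) (h : κ → C → Y → ℝ), Measurable c ∧ (∀ j i, Measurable (h j i)) ∧
      (∀ j i y, |h j i y| ≤ 1) ∧ ∀ j, ∫ z, |u j z - fp c (h j) z| ∂m < ε := by
  classical
  have H : ∀ j, ∃ (C : Type) (_ : Fintype C) (_ : MeasurableSpace C)
      (_ : DiscreteMeasurableSpace C) (c : X → C) (h : C → Y → ℝ), Measurable c ∧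
      (∀ i, Measurable (h i)) ∧ (∀ i y, |h i y| ≤ 1) ∧ ∫ z, |u j z - fp c h z| ∂m < ε := by
    intro j
    have hint : Integrable (u j) m := Integrable.of_bound (hu j).aestronglyMeasurable 1
      (Eventually.of_forall (hb j))
    obtain ⟨C, i1, i2, i3, c, h, K, hc, hh, hK, hlt⟩ := finApp_integrable m hint ε hε
    refine ⟨C, i1, i2, i3, c, fun i y => trunc (h i y), hc, fun i => trunc_meas.comp (hh i),
      fun i y => trunc_abs _, ?_⟩
    refine lt_of_le_of_lt ?_ hlt
    refine integral_mono_of_nonneg (Eventually.of_forall fun z => abs_nonneg _)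
      ((hint.sub (fp_int m hc hh hK)).abs) (Eventually.of_forall fun z => ?_)
    exact trunc_dist _ _ (hb j z)
  choose C i1 i2 i3 c h hc hh hK hlt using H
  refine ⟨∀ j, C j, inferInstance, inferInstance, inferInstance, fun x j => c j x,
    fun j i y => h j (i j) y, measurable_pi_lambda _ hc, fun j i => hh j (i j),
    fun j i y => hK j (i j) y, fun j => hlt j⟩

end Pool.Agent.W763.RM
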