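import Pool.Agent.W763.RM.Core
import Pool.Agent.H567R2.MMF.MF
import Pool.Agent.H567R2.MMF.FF
import Pool.Agent.H567R2.MNF.DS

/-!
The two gauges, and the mixing of the base relative to them.
-/

set_option autoImplicit false
set_option linter.unusedSectionVars false

namespace Pool.Agent.W763.RM

open MeasureTheory Filter Topology H567MM

section

variable {X : Type*} [MeasurableSpace X] {μ : Measure X} [IsProbabilityMeasure μ] {S : X → X}

/-- the absolute value of the integral -/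
noncomputable def p1 (μ : Measure X) (e : X → ℝ) : ℝ := |∫ x, e x ∂μ|

/-- the integral of the absolute value -/
noncomputable def p2 (μ : Measure X) (e : X → ℝ) : ℝ := ∫ x, |e x| ∂μ

theorem gauge1 : Gauge μ (p1 μ) := by
  constructor
  · simp [p1]
  · intro e e' he he' h1 h1'
    unfold p1
    refine (abs_abs_sub_abs_le_abs_sub _ _).trans ?_
    rw [← integral_sub (int_bdd he h1) (int_bdd he' h1')]
    exact abs_int_le_int
  · intro K hK _
    exact ((hK.stronglyMeasurable.integral_prod_right' (ν := μ)).measurable).abs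

theorem gauge2 : Gauge μ (p2 μ) := by
  constructor
  · simp [p2]
  · intro e e' he he' h1 h1'
    unfold p2
    have h2 : ∀ x, |(|e x|)| ≤ 1 := fun x => by rw [abs_abs]; exact h1 x
    have h2' : ∀ x, |(|e' x|)| ≤ 1 := fun x => by rw [abs_abs]; exact h1' x
    have a1 : Measurable fun x => |e x| := he.abs
    have a2 : Measurable fun x => |e' x| := he'.abs
    rw [← integral_sub (int_bdd a1 h2) (int_bdd a2 h2')]
    refine abs_int_le_int.trans ?_
    have a3 : Measurable fun x => |(|e x| - |e' x|)| := (a1.sub a2).abs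
    have a4 : Measurable fun x => |e x - e' x| := (he.sub he').abs
    refine int_mono_bdd (B := 2) (B' := 2) a3 (fun x => ?_) a4 (fun x => ?_) fun x => ?_
    · rw [abs_abs]
      have b1 := h2 x
      have b2 := h2' x
      refine (abs_sub _ _).trans ?_
      linarith
    · rw [abs_abs]
      have b1 := h1 x
      have b2 := h1' x
      refine (abs_sub _ _).trans ?_
      linarith
    · exact abs_abs_sub_abs_le_abs_sub _ _
  · intro K hK _
    have hK' : Measurable fun z => |K z| := hK.abs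
    exact (hK'.stronglyMeasurable.integral_prod_right' (ν := μ)).measurable

/-- mixing for real functions -/
theorem mix_real (hS : MeasurePreserving S μ μ) (k : ℕ) (hk : MixOrd μ S k)
    (e : Fin (k + 1) → X → ℝ) (he : ∀ i, Measurable (e i)) (he1 : ∀ i x, |e i x| ≤ 1) :
    Tendsto (fun n : Fin (k + 1) → ℕ => ∫ x, ∏ i, e i (S^[n i] x) ∂μ) (FF_gap k)
      (𝓝 (∏ i, ∫ x, e i x ∂μ)) := by
  rw [Metric.tendsto_nhds]
  intro ε hε
  rw [FF_eventually]
  obtain ⟨G, hG⟩ := mix_fun μ S hS k hk (fun i x => (e i x : ℂ))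
    (fun i => Complex.measurable_ofReal.comp (he i)) 1 (fun i x => by
      rw [Complex.norm_real]; exact he1 i x) ε hε
  refine ⟨G, fun n h0 hn => ?_⟩
  have h1 := hG n h0 hn
  have e1 : ∫ x, ∏ j, ((e j (S^[n j] x) : ℝ) : ℂ) ∂μ =
      ((∫ x, ∏ j, e j (S^[n j] x) ∂μ : ℝ) : ℂ) := by
    rw [← integral_complex_ofReal]
    congr 1
    funext x
    rw [Complex.ofReal_prod]
  have e2 : ∏ j, ∫ x, ((e j x : ℝ) : ℂ) ∂μ = ((∏ j, ∫ x, e j x ∂μ : ℝ) : ℂ) := by
    rw [Complex.ofReal_prod]
    exact Finset.prod_congr rfl fun j _ => integral_complex_ofReal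
  rw [e1, e2, ← Complex.ofReal_sub, Complex.norm_real] at h1
  rw [Real.dist_eq]
  exact h1

theorem baseMix1 (hS : MeasurePreserving S μ μ) (k : ℕ) (hk : MixOrd μ S k) :
    BaseMix μ S (FF_gap k) (p1 μ) := by
  intro i0 i1 h01 e he he1 A hA hA0 δ hδ
  have h1 := (mix_real hS k hk e he he1).abs
  have h2 : |∏ i, ∫ x, e i x ∂μ| ≤ μ.real A * p1 μ (e i1) := by
    rw [← Finset.mul_prod_erase Finset.univ _ (Finset.mem_univ i0), abs_mul,
      ← Finset.mul_prod_erase (Finset.univ.erase i0) _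
        (Finset.mem_erase.2 ⟨Ne.symm h01, Finset.mem_univ i1⟩), abs_mul]
    have a1 : |∫ x, e i0 x ∂μ| ≤ μ.real A := by
      refine abs_int_le_int.trans ?_
      have e1 : μ.real A = ∫ x, A.indicator (fun _ => (1 : ℝ)) x ∂μ := by
        rw [integral_indicator_const _ hA, smul_eq_mul, mul_one]
      rw [e1]
      refine int_mono_bdd (B := 1) (B' := 1) (he i0).abs (fun x => ?_)
        (measurable_const.indicator hA) (fun x => ?_) fun x => ?_
      · rw [abs_abs]; exact he1 i0 x
      · by_cases hx : x ∈ A <;> simp [hx]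
      · by_cases hx : x ∈ A
        · simp only [hx, Set.indicator_of_mem]; exact he1 i0 x
        · simp [hx, hA0 x hx]
    have a2 : |∏ i ∈ (Finset.univ.erase i0).erase i1, ∫ x, e i x ∂μ| ≤ 1 :=
      abs_prod_le_one _ _ fun i _ => abs_int_le (he1 i)
    have a3 : (0 : ℝ) ≤ |∫ x, e i1 x ∂μ| := abs_nonneg _
    have a4 : (0 : ℝ) ≤ μ.real A := measureReal_nonneg
    unfold p1
    calc |∫ x, e i0 x ∂μ| * (|∫ x, e i1 x ∂μ| *
          |∏ i ∈ (Finset.univ.erase i0).erase i1, ∫ x, e i x ∂μ|)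
        ≤ μ.real A * (|∫ x, e i1 x ∂μ| * 1) := by
          refine mul_le_mul a1 (mul_le_mul_of_nonneg_left a2 a3) (by positivity) a4
      _ = _ := by rw [mul_one]
  exact h1.eventually_lt_const (by linarith)

/-- two point correlations -/
theorem two_point (hS : MeasurePreserving S μ μ) (hk : MixOrd μ S 1) (u v : X → ℝ)
    (hu : Measurable u) (hv : Measurable v) (hu1 : ∀ x, |u x| ≤ 1) (hv1 : ∀ x, |v x| ≤ 1)
    {δ : ℝ} (hδ : 0 < δ) : ∃ G : ℕ, ∀ a b : ℕ, a + G ≤ b →
      |∫ x, u (S^[a] x) * v (S^[b] x) ∂μ - (∫ x, u x ∂μ) * ∫ x, v x ∂μ| < δ := by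
  have h1 := mix_real hS 1 hk ![u, v] (by intro i; fin_cases i <;> simpa)
    (by intro i x; fin_cases i <;> simp [hu1, hv1])
  rw [Metric.tendsto_nhds] at h1
  obtain ⟨G, hG⟩ := (FF_eventually 1 _).1 (h1 δ hδ)
  refine ⟨G, fun a b hab => ?_⟩
  have h2 := hG ![0, b - a] rfl (by
    intro j
    fin_cases j
    simp
    omega)
  rw [Real.dist_eq, Fin.prod_univ_two] at h2
  have e0 : ∫ x, ∏ i, (![u, v] : Fin 2 → X → ℝ) i (S^[(![0, b - a] : Fin 2 → ℕ) i] x) ∂μ =
      ∫ x, u x * v (S^[b - a] x) ∂μ := by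
    congr 1
    funext x
    rw [Fin.prod_univ_two]
    rfl
  have e1 : ∫ x, u (S^[a] x) * v (S^[b] x) ∂μ = ∫ x, u x * v (S^[b - a] x) ∂μ := by
    have h3 := int_mp (hS.iterate a) (u := fun x => u x * v (S^[b - a] x))
      (hu.mul (hv.comp (hS.iterate (b - a)).measurable))
    rw [← h3]
    congr 1
    funext x
    rw [← Function.iterate_add_apply]
    congr 3
    omega
  rw [e1, ← e0]
  exact h2

theorem gaps_lt {k G : ℕ} {n : Fin (k + 1) → ℕ} (h : ∀ j : Fin k, n j.castSucc + G ≤ n j.succ)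
    {i j : Fin (k + 1)} (hij : i < j) : n i + G ≤ n j := by
  have key : ∀ d : ℕ, ∀ i j : Fin (k + 1), i.val + d + 1 = j.val → n i + G ≤ n j := by
    intro d
    induction d with
    | zero =>
      intro i j hij
      have hi : i.val < k := by have := j.2; omega
      have h1 := h ⟨i.val, hi⟩
      have e1 : (⟨i.val, hi⟩ : Fin k).castSucc = i := Fin.ext rfl
      have e2 : (⟨i.val, hi⟩ : Fin k).succ = j := Fin.ext (by simp; omega)
      rwa [e1, e2] at h1
    | succ d ih =>
      intro i j hij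
      have hj : j.val - 1 < k := by have := j.2; omega
      have h1 := h ⟨j.val - 1, hj⟩
      have e2 : (⟨j.val - 1, hj⟩ : Fin k).succ = j := Fin.ext (by simp; omega)
      rw [e2] at h1
      have h2 := ih i (⟨j.val - 1, hj⟩ : Fin k).castSucc (by simp; omega)
      omega
  have h1 : i.val < j.val := hij
  exact key (j.val - i.val - 1) i j (by omega)

theorem baseMix2 (hS : MeasurePreserving S μ μ) (k : ℕ) (hk : MixOrd μ S 1) :
    BaseMix μ S (FF_gap k) (p2 μ) := by
  intro i0 i1 h01 e he he1 A hA hA0 δ hδ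
  rw [FF_eventually]
  have hm : ∀ i, Measurable fun x => |e i x| := fun i => (he i).abs
  have hm1 : ∀ i x, |(|e i x|)| ≤ 1 := fun i x => by rw [abs_abs]; exact he1 i x
  obtain ⟨G, hG⟩ := two_point hS hk (fun x => |e i0 x|) (fun x => |e i1 x|) (hm i0) (hm i1)
    (hm1 i0) (hm1 i1) hδ
  obtain ⟨G', hG'⟩ := two_point hS hk (fun x => |e i1 x|) (fun x => |e i0 x|) (hm i1) (hm i0)
    (hm1 i1) (hm1 i0) hδ
  refine ⟨max G G', fun n _ hn => ?_⟩
  have hS' : ∀ a, Measurable S^[a] := fun a => (hS.iterate a).measurable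
  have h1 : |∫ x, ∏ i, e i (S^[n i] x) ∂μ| ≤
      ∫ x, |e i0 (S^[n i0] x)| * |e i1 (S^[n i1] x)| ∂μ := by
    refine abs_int_le_int.trans ?_
    have a1 : Measurable fun x => |∏ i, e i (S^[n i] x)| :=
      (Finset.measurable_prod _ fun i _ => (he i).comp (hS' _)).abs
    have a2 : Measurable fun x => |e i0 (S^[n i0] x)| * |e i1 (S^[n i1] x)| :=
      ((hm i0).comp (hS' _)).mul ((hm i1).comp (hS' _))
    refine int_mono_bdd (B := 1) (B' := 1) a1 (fun x => ?_) a2 (fun x => ?_) fun x => ?_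
    · rw [abs_abs]; exact abs_prod_le_one _ _ fun i _ => he1 i _
    · rw [abs_mul, abs_abs, abs_abs]
      exact mul_le_one₀ (he1 _ _) (abs_nonneg _) (he1 _ _)
    · rw [← Finset.mul_prod_erase Finset.univ _ (Finset.mem_univ i0), abs_mul,
        ← Finset.mul_prod_erase (Finset.univ.erase i0) _
          (Finset.mem_erase.2 ⟨Ne.symm h01, Finset.mem_univ i1⟩), abs_mul]
      have b1 : |∏ i ∈ (Finset.univ.erase i0).erase i1, e i (S^[n i] x)| ≤ 1 :=
        abs_prod_le_one _ _ fun i _ => he1 i _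
      refine mul_le_mul_of_nonneg_left ?_ (abs_nonneg _)
      exact mul_le_of_le_one_right (abs_nonneg _) b1
  have h2 : |∫ x, |e i0 (S^[n i0] x)| * |e i1 (S^[n i1] x)| ∂μ -
      (∫ x, |e i0 x| ∂μ) * ∫ x, |e i1 x| ∂μ| < δ := by
    rcases lt_or_gt_of_ne h01 with hlt | hlt
    · exact hG _ _ ((Nat.add_le_add_left (le_max_left _ _) _).trans (gaps_lt hn hlt))
    · have h3 := hG' _ _ ((Nat.add_le_add_left (le_max_right _ _) _).trans (gaps_lt hn hlt))
      rw [mul_comm (∫ x, |e i0 x| ∂μ)]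
      simp only [mul_comm (|e i0 _|)]
      exact h3
  have h3 : ∫ x, |e i0 x| ∂μ ≤ μ.real A := by
    have e1 : μ.real A = ∫ x, A.indicator (fun _ => (1 : ℝ)) x ∂μ := by
      rw [integral_indicator_const _ hA, smul_eq_mul, mul_one]
    rw [e1]
    refine int_mono_bdd (B := 1) (B' := 1) (he i0).abs (fun x => ?_)
      (measurable_const.indicator hA) (fun x => ?_) fun x => ?_
    · rw [abs_abs]; exact he1 i0 x
    · by_cases hx : x ∈ A <;> simp [hx]
    · by_cases hx : x ∈ A
      · simp only [hx, Set.indicator_of_mem]; exact he1 i0 x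
      · simp [hx, hA0 x hx]
  have h4 : (∫ x, |e i0 x| ∂μ) * ∫ x, |e i1 x| ∂μ ≤ μ.real A * p2 μ (e i1) :=
    mul_le_mul_of_nonneg_right h3 (integral_nonneg fun x => abs_nonneg _)
  have h5 := (abs_lt.1 h2).2
  linarith

end

end Pool.Agent.W763.RM
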