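import Pool.Agent.W763.RM.Basic
import Pool.Agent.W763.RM.Fin

/-!
The multilinear forms attached to a skew product.
-/

set_option autoImplicit false

namespace Pool.Agent.W763.RM

open MeasureTheory Filter Topology H567MM

theorem prod_diff {ι : Type*} (s : Finset ι) (a b : ι → ℝ) (ha : ∀ i ∈ s, |a i| ≤ 1)
    (hb : ∀ i ∈ s, |b i| ≤ 1) : |∏ i ∈ s, a i - ∏ i ∈ s, b i| ≤ ∑ i ∈ s, |a i - b i| := by
  classical
  induction s using Finset.induction_on with
  | empty => simp
  | insert i s hi ih =>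
    rw [Finset.prod_insert hi, Finset.prod_insert hi, Finset.sum_insert hi]
    have h1 := ih (fun j hj => ha j (Finset.mem_insert_of_mem hj))
      (fun j hj => hb j (Finset.mem_insert_of_mem hj))
    have h2 : |∏ j ∈ s, a j| ≤ 1 := by
      rw [Finset.abs_prod]
      exact Finset.prod_le_one (fun j _ => abs_nonneg _)
        fun j hj => ha j (Finset.mem_insert_of_mem hj)
    have h3 := hb i (Finset.mem_insert_self i s)
    have e : a i * ∏ j ∈ s, a j - b i * ∏ j ∈ s, b j =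
        (a i - b i) * ∏ j ∈ s, a j + b i * (∏ j ∈ s, a j - ∏ j ∈ s, b j) := by ring
    rw [e]
    refine (abs_add_le _ _).trans ?_
    rw [abs_mul, abs_mul]
    have h4 : |a i - b i| * |∏ j ∈ s, a j| ≤ |a i - b i| :=
      mul_le_of_le_one_right (abs_nonneg _) h2
    have h5 : |b i| * |∏ j ∈ s, a j - ∏ j ∈ s, b j| ≤ |∏ j ∈ s, a j - ∏ j ∈ s, b j| :=
      mul_le_of_le_one_left (abs_nonneg _) h3
    linarith

theorem abs_prod_le_one {ι : Type*} (s : Finset ι) (a : ι → ℝ) (ha : ∀ i ∈ s, |a i| ≤ 1) :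
    |∏ i ∈ s, a i| ≤ 1 := by
  rw [Finset.abs_prod]
  exact Finset.prod_le_one (fun j _ => abs_nonneg _) ha

theorem int_bdd {Z : Type*} [MeasurableSpace Z] {m : Measure Z} [IsProbabilityMeasure m]
    {u : Z → ℝ} (hu : Measurable u) {B : ℝ} (hb : ∀ z, |u z| ≤ B) : Integrable u m :=
  Integrable.of_bound hu.aestronglyMeasurable B (Eventually.of_forall hb)

theorem abs_int_le {Z : Type*} [MeasurableSpace Z] {m : Measure Z} [IsProbabilityMeasure m]
    {u : Z → ℝ} {B : ℝ} (hb : ∀ z, |u z| ≤ B) : |∫ z, u z ∂m| ≤ B := by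
  have := norm_integral_le_of_norm_le_const (μ := m) (f := u) (C := B)
    (Eventually.of_forall hb)
  rwa [probReal_univ, mul_one] at this

theorem int_mono_bdd {Z : Type*} [MeasurableSpace Z] {m : Measure Z} [IsProbabilityMeasure m]
    {u v : Z → ℝ} (hu : Measurable u) {B : ℝ} (hb : ∀ z, |u z| ≤ B) (hv : Measurable v)
    {B' : ℝ} (hb' : ∀ z, |v z| ≤ B') (h : ∀ z, u z ≤ v z) : ∫ z, u z ∂m ≤ ∫ z, v z ∂m :=
  integral_mono (int_bdd hu hb) (int_bdd hv hb') h

theorem abs_int_le_int {Z : Type*} [MeasurableSpace Z] {m : Measure Z}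
    {u : Z → ℝ} : |∫ z, u z ∂m| ≤ ∫ z, |u z| ∂m := by
  exact norm_integral_le_integral_norm u

/-- integration along a measure preserving map -/
theorem int_mp {Z W : Type*} [MeasurableSpace Z] [MeasurableSpace W] {m : Measure Z}
    {m' : Measure W} {τ : Z → W} (hτ : MeasurePreserving τ m m') {u : W → ℝ}
    (hu : Measurable u) : ∫ z, u (τ z) ∂m = ∫ w, u w ∂m' := by
  have h1 := integral_map (μ := m) (φ := τ) hτ.measurable.aemeasurable (f := u)
    hu.aestronglyMeasurable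
  rw [hτ.map_eq] at h1
  exact h1.symm

section

variable {X Y G ι : Type*} [MeasurableSpace X] [MeasurableSpace Y] [MeasurableSpace G]
  [CommGroup G] [MulAction G Y] [Fintype ι]

/-- the correlation along the skew product -/
noncomputable def LT (m : Measure (X × Y)) (T : X × Y → X × Y) (F : ι → X × Y → ℝ)
    (n : ι → ℕ) : ℝ := ∫ z, ∏ i, F i (T^[n i] z) ∂m

/-- the fibre mean -/
noncomputable def E (ν : Measure Y) (u : X × Y → ℝ) (x : X) : ℝ := ∫ y, u (x, y) ∂ν

/-- the correlation of the fibre means along the base -/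
noncomputable def ME (μ : Measure X) (ν : Measure Y) (S : X → X) (F : ι → X × Y → ℝ)
    (n : ι → ℕ) : ℝ := ∫ x, ∏ i, E ν (F i) (S^[n i] x) ∂μ

variable {μ : Measure X} {ν : Measure Y} [IsProbabilityMeasure μ] [IsProbabilityMeasure ν]

theorem E_meas {u : X × Y → ℝ} (hu : Measurable u) : Measurable (E ν u) :=
  (hu.stronglyMeasurable.integral_prod_right' (ν := ν)).measurable

theorem E_le {u : X × Y → ℝ} {B : ℝ} (hb : ∀ z, |u z| ≤ B) (x : X) : |E ν u x| ≤ B :=
  abs_int_le fun y => hb (x, y)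

theorem int_prod {u : X × Y → ℝ} (hu : Measurable u) {B : ℝ} (hb : ∀ z, |u z| ≤ B) :
    ∫ z, u z ∂(μ.prod ν) = ∫ x, ∫ y, u (x, y) ∂ν ∂μ :=
  integral_prod _ (int_bdd hu hb)

/-- differences of correlations in an abstract setting -/
theorem corr_diff {Z κ : Type*} {W : κ → Type*} [MeasurableSpace Z] [∀ j, MeasurableSpace (W j)]
    {m : Measure Z} [IsProbabilityMeasure m] {m' : ∀ j, Measure (W j)} (s : Finset κ)
    (τ : ∀ j, Z → W j) (hτ : ∀ j ∈ s, MeasurePreserving (τ j) m (m' j))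
    [∀ j, IsProbabilityMeasure (m' j)]
    (A : Z → ℝ) (hA : Measurable A) (hA1 : ∀ z, |A z| ≤ 1)
    (F H : ∀ j, W j → ℝ) (hF : ∀ j, Measurable (F j)) (hH : ∀ j, Measurable (H j))
    (hF1 : ∀ j w, |F j w| ≤ 1) (hH1 : ∀ j w, |H j w| ≤ 1) :
    |∫ z, A z * ∏ j ∈ s, F j (τ j z) ∂m - ∫ z, A z * ∏ j ∈ s, H j (τ j z) ∂m| ≤
      ∑ j ∈ s, ∫ w, |F j w - H j w| ∂(m' j) := by
  have hFm : Measurable fun z => A z * ∏ j ∈ s, F j (τ j z) :=
    hA.mul (Finset.measurable_prod _ fun j hj => (hF j).comp (hτ j hj).measurable)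
  have hHm : Measurable fun z => A z * ∏ j ∈ s, H j (τ j z) :=
    hA.mul (Finset.measurable_prod _ fun j hj => (hH j).comp (hτ j hj).measurable)
  have hFb : ∀ z, |A z * ∏ j ∈ s, F j (τ j z)| ≤ 1 := fun z => by
    rw [abs_mul]
    exact mul_le_one₀ (hA1 z) (abs_nonneg _) (abs_prod_le_one _ _ fun j _ => hF1 j _)
  have hHb : ∀ z, |A z * ∏ j ∈ s, H j (τ j z)| ≤ 1 := fun z => by
    rw [abs_mul]
    exact mul_le_one₀ (hA1 z) (abs_nonneg _) (abs_prod_le_one _ _ fun j _ => hH1 j _)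
  rw [← integral_sub (int_bdd hFm hFb) (int_bdd hHm hHb)]
  refine abs_int_le_int.trans ?_
  have hd : ∀ j, Measurable fun w => |F j w - H j w| := fun j => ((hF j).sub (hH j)).abs
  have e : ∑ j ∈ s, ∫ w, |F j w - H j w| ∂(m' j) =
      ∫ z, ∑ j ∈ s, |F j (τ j z) - H j (τ j z)| ∂m := by
    rw [integral_finsetSum]
    · exact Finset.sum_congr rfl fun j hj => (int_mp (hτ j hj) (hd j)).symm
    · intro j hj
      refine int_bdd (B := 2) ((hd j).comp (hτ j hj).measurable) fun z => ?_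
      rw [abs_abs]
      have h1 := hF1 j (τ j z)
      have h2 := hH1 j (τ j z)
      refine (abs_sub _ _).trans ?_
      linarith
  rw [e]
  refine integral_mono_of_nonneg (Eventually.of_forall fun z => abs_nonneg _) ?_
    (Eventually.of_forall fun z => ?_)
  · refine integrable_finsetSum _ fun j hj => ?_
    refine int_bdd (B := 2) ((hd j).comp (hτ j hj).measurable) fun z => ?_
    rw [abs_abs]
    have h1 := hF1 j (τ j z)
    have h2 := hH1 j (τ j z)
    refine (abs_sub _ _).trans ?_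
    linarith
  · show |A z * ∏ j ∈ s, F j (τ j z) - A z * ∏ j ∈ s, H j (τ j z)| ≤ _
    rw [← mul_sub, abs_mul]
    refine (mul_le_of_le_one_left (abs_nonneg _) (hA1 z)).trans ?_
    exact prod_diff s _ _ (fun j _ => hF1 j _) fun j _ => hH1 j _

end


section

variable {X Y G ι : Type*} [MeasurableSpace X] [MeasurableSpace Y] [MeasurableSpace G]
  [CommGroup G] [MulAction G Y] [MeasurableSMul₂ G Y] [Fintype ι]
  {μ : Measure X} {ν : Measure Y} [IsProbabilityMeasure μ] [IsProbabilityMeasure ν]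
  {S : X → X} {φ : X → G} {Q : Y → Y}

theorem LT_diff (h : Sys μ ν S φ Q) (F H : ι → X × Y → ℝ) (hF : ∀ j, Measurable (F j))
    (hH : ∀ j, Measurable (H j)) (hF1 : ∀ j w, |F j w| ≤ 1) (hH1 : ∀ j w, |H j w| ≤ 1)
    (n : ι → ℕ) : |LT (μ.prod ν) (skw S φ Q) F n - LT (μ.prod ν) (skw S φ Q) H n| ≤
      ∑ j, ∫ z, |F j z - H j z| ∂(μ.prod ν) := by
  have h1 := corr_diff (m := μ.prod ν) (m' := fun _ : ι => μ.prod ν) Finset.univ
    (fun j => (skw S φ Q)^[n j]) (fun j _ => h.mp.iterate (n j)) (fun _ => 1) measurable_const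
    (fun _ => by simp) F H hF hH hF1 hH1
  simp only [one_mul] at h1
  exact h1

theorem E_sub_int (F H : X × Y → ℝ) (hF : Measurable F)
    (hH : Measurable H) (hF1 : ∀ w, |F w| ≤ 1) (hH1 : ∀ w, |H w| ≤ 1) :
    ∫ x, |E ν F x - E ν H x| ∂μ ≤ ∫ z, |F z - H z| ∂(μ.prod ν) := by
  have hFx : ∀ x, Measurable fun y => F (x, y) := fun x => hF.comp measurable_prodMk_left
  have hHx : ∀ x, Measurable fun y => H (x, y) := fun x => hH.comp measurable_prodMk_left
  have hd : ∀ w, |(|F w - H w|)| ≤ 2 := fun w => by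
    rw [abs_abs]
    have h1 := hF1 w
    have h2 := hH1 w
    refine (abs_sub _ _).trans ?_
    linarith
  have hdm : Measurable fun z => |F z - H z| := (hF.sub hH).abs
  rw [int_prod (B := 2) hdm hd]
  have hm : Measurable fun x => ∫ y, |F (x, y) - H (x, y)| ∂ν := E_meas hdm
  have hb : ∀ x, |(∫ y, |F (x, y) - H (x, y)| ∂ν)| ≤ 2 := fun x => abs_int_le fun y => hd (x, y)
  refine integral_mono_of_nonneg (Eventually.of_forall fun x => abs_nonneg _) (int_bdd hm hb)
    (Eventually.of_forall fun x => ?_)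
  show |∫ y, F (x, y) ∂ν - ∫ y, H (x, y) ∂ν| ≤ _
  rw [← integral_sub (int_bdd (hFx x) fun y => hF1 (x, y)) (int_bdd (hHx x) fun y => hH1 (x, y))]
  exact abs_int_le_int

theorem ME_diff (hS : MeasurePreserving S μ μ) (F H : ι → X × Y → ℝ)
    (hF : ∀ j, Measurable (F j)) (hH : ∀ j, Measurable (H j)) (hF1 : ∀ j w, |F j w| ≤ 1)
    (hH1 : ∀ j w, |H j w| ≤ 1) (n : ι → ℕ) : |ME μ ν S F n - ME μ ν S H n| ≤
      ∑ j, ∫ z, |F j z - H j z| ∂(μ.prod ν) := by
  have h1 := corr_diff (m := μ) (m' := fun _ : ι => μ) Finset.univ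
    (fun j => S^[n j]) (fun j _ => hS.iterate (n j)) (fun _ => 1) measurable_const
    (fun _ => by simp) (fun j => E ν (F j)) (fun j => E ν (H j)) (fun j => E_meas (hF j))
    (fun j => E_meas (hH j)) (fun j w => E_le (hF1 j) w) (fun j w => E_le (hH1 j) w)
  simp only [one_mul] at h1
  exact h1.trans (Finset.sum_le_sum fun j _ =>
    E_sub_int (F j) (H j) (hF j) (hH j) (hF1 j) (hH1 j))

/-- multilinear expansion of the correlations -/
theorem LT_expand (h : Sys μ ν S φ Q) {C : Type} [Fintype C] [DecidableEq ι]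
    (K : ι → C → X × Y → ℝ)
    (hK : ∀ i c, Measurable (K i c)) {B : ℝ} (hB : ∀ i c z, |K i c z| ≤ B) (n : ι → ℕ) :
    LT (μ.prod ν) (skw S φ Q) (fun i z => ∑ c, K i c z) n =
      ∑ σ : ι → C, LT (μ.prod ν) (skw S φ Q) (fun i => K i (σ i)) n := by
  have hm : ∀ σ : ι → C, Measurable fun z => ∏ i, K i (σ i) ((skw S φ Q)^[n i] z) := fun σ =>
    Finset.measurable_prod _ fun i _ => (hK i _).comp (h.mp.iterate (n i)).measurable
  have hb : ∀ (σ : ι → C) z, |∏ i, K i (σ i) ((skw S φ Q)^[n i] z)| ≤ B ^ Fintype.card ι := by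
    intro σ z
    rw [Finset.abs_prod]
    refine (Finset.prod_le_prod (fun i _ => abs_nonneg _) fun i _ => hB i _ _).trans ?_
    rw [Finset.prod_const, Finset.card_univ]
  unfold LT
  rw [← integral_finsetSum _ fun σ _ => int_bdd (hm σ) (hb σ)]
  congr 1
  funext z
  rw [Finset.prod_univ_sum, Fintype.piFinset_univ]

theorem ME_expand (hS : MeasurePreserving S μ μ) {C : Type} [Fintype C] [DecidableEq ι]
    (K : ι → C → X × Y → ℝ)
    (hK : ∀ i c, Measurable (K i c)) {B : ℝ} (hB : ∀ i c z, |K i c z| ≤ B) (n : ι → ℕ) :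
    ME μ ν S (fun i z => ∑ c, K i c z) n = ∑ σ : ι → C, ME μ ν S (fun i => K i (σ i)) n := by
  have hm : ∀ σ : ι → C, Measurable fun x => ∏ i, E ν (K i (σ i)) (S^[n i] x) := fun σ =>
    Finset.measurable_prod _ fun i _ => (E_meas (hK i _)).comp (hS.iterate (n i)).measurable
  have hb : ∀ (σ : ι → C) x, |∏ i, E ν (K i (σ i)) (S^[n i] x)| ≤ B ^ Fintype.card ι := by
    intro σ x
    rw [Finset.abs_prod]
    refine (Finset.prod_le_prod (fun i _ => abs_nonneg _) fun i _ => E_le (hB i _) _).trans ?_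
    rw [Finset.prod_const, Finset.card_univ]
  unfold ME
  rw [← integral_finsetSum _ fun σ _ => int_bdd (hm σ) (hb σ)]
  congr 1
  funext x
  have e : ∀ i, E ν (fun z => ∑ c, K i c z) (S^[n i] x) = ∑ c, E ν (K i c) (S^[n i] x) := by
    intro i
    unfold E
    exact integral_finsetSum _ fun c _ => int_bdd ((hK i c).comp measurable_prodMk_left)
      fun y => hB i c _
  simp only [e]
  rw [Finset.prod_univ_sum, Fintype.piFinset_univ]

theorem LT_smul (m : Measure (X × Y)) (T : X × Y → X × Y) (α : ι → ℝ) (F : ι → X × Y → ℝ)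
    (n : ι → ℕ) : LT m T (fun i z => α i * F i z) n = (∏ i, α i) * LT m T F n := by
  unfold LT
  rw [← integral_const_mul]
  congr 1
  funext z
  rw [Finset.prod_mul_distrib]

theorem ME_smul (α : ι → ℝ) (F : ι → X × Y → ℝ)
    (n : ι → ℕ) : ME μ ν S (fun i z => α i * F i z) n = (∏ i, α i) * ME μ ν S F n := by
  unfold ME E
  rw [← integral_const_mul]
  congr 1
  funext x
  simp only [integral_const_mul]
  rw [Finset.prod_mul_distrib]

end

end Pool.Agent.W763.RM
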