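import Pool.Agent.W763.RM.Coll

/-!
Skew products with a mixing fibre action.
-/

set_option autoImplicit false
set_option linter.unusedSectionVars false

namespace Pool.Agent.W763.RM

open MeasureTheory Filter Topology H567MM

section

variable {X Y G : Type*} [MeasurableSpace X] [MeasurableSpace Y]
  [CommGroup G] [MulAction G Y]
  {μ : Measure X} {ν : Measure Y} [IsProbabilityMeasure μ] [IsProbabilityMeasure ν]
  {S : X → X} {φ : X → G} {Q : Y → Y}

theorem rho_p2_le [Countable G] [MeasurableSpace G] [DiscreteMeasurableSpace G]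
    [MeasurableSMul₂ G Y] (h : Sys μ ν S φ Q) {f : X → ℝ} {g : Y → ℝ} (hf : Measurable f)
    (hg : Measurable g) (hf1 : ∀ x, |f x| ≤ 1) (hg1 : ∀ y, |g y| ≤ 1) (K : Finset G) (η : ℝ)
    (hη : 0 ≤ η) (hK : ∀ v : G, v⁻¹ ∉ K → |kap ν g v| ≤ η) (m : ℕ) :
    rho μ ν S φ (p2 μ) f g m 0 ≤
      η + ∑ v ∈ K, (μ.prod μ).real {z | coc S φ m z.1 / coc S φ m z.2 = v} := by
  classical
  have hkm := ker_meas (G := G) h hf hg m 0
  have hk1 := ker_le (ν := ν) (S := S) (φ := φ) hf1 hg1 m 0
  have hcm : Measurable (coc S φ m) := cocMeas S h.hS.measurable φ h.hφ m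
  have hkm' : Measurable fun z => |ker ν S φ f g m 0 z| := hkm.abs
  have hk1' : ∀ z, |(|ker ν S φ f g m 0 z|)| ≤ 1 := fun z => by rw [abs_abs]; exact hk1 z
  have e1 : rho μ ν S φ (p2 μ) f g m 0 = ∫ z, |ker ν S φ f g m 0 z| ∂(μ.prod μ) := by
    rw [int_prod hkm' hk1']
    rfl
  have hs : ∀ v : G, MeasurableSet {z : X × X | coc S φ m z.1 / coc S φ m z.2 = v} := by
    intro v
    have hdiv : Measurable (fun q : G × G => q.1 / q.2) := measurable_of_countable _
    have h2 := hdiv.comp ((hcm.comp measurable_fst).prodMk (hcm.comp (measurable_snd (α := X))))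
    exact h2 (measurableSet_singleton v)
  have hptw : ∀ z, |ker ν S φ f g m 0 z| ≤ η + ∑ v ∈ K,
      ({z : X × X | coc S φ m z.1 / coc S φ m z.2 = v}).indicator (fun _ => (1 : ℝ)) z := by
    intro z
    rw [ker_zero h hg, abs_mul]
    have h1 : |f (S^[m] z.2) * f z.2| ≤ 1 := by
      rw [abs_mul]; exact mul_le_one₀ (hf1 _) (abs_nonneg _) (hf1 _)
    refine (mul_le_of_le_one_left (abs_nonneg _) h1).trans ?_
    set v : G := (coc S φ m z.1)⁻¹ * coc S φ m z.2 with hv
    have hsum0 : 0 ≤ ∑ v ∈ K,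
        ({z : X × X | coc S φ m z.1 / coc S φ m z.2 = v}).indicator (fun _ => (1 : ℝ)) z :=
      Finset.sum_nonneg fun v _ => Set.indicator_nonneg (fun _ _ => zero_le_one) _
    by_cases hvK : v⁻¹ ∈ K
    · have h2 : (1 : ℝ) ≤ ∑ v ∈ K,
          ({z : X × X | coc S φ m z.1 / coc S φ m z.2 = v}).indicator (fun _ => (1 : ℝ)) z := by
        have h3 : ({z : X × X | coc S φ m z.1 / coc S φ m z.2 = v⁻¹}).indicator
            (fun _ => (1 : ℝ)) z = 1 := by
          rw [Set.indicator_of_mem]
          show coc S φ m z.1 / coc S φ m z.2 = v⁻¹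
          rw [hv, mul_inv, inv_inv, div_eq_mul_inv]
        exact h3.symm.le.trans (Finset.single_le_sum (f := fun v =>
          ({z : X × X | coc S φ m z.1 / coc S φ m z.2 = v}).indicator (fun _ => (1 : ℝ)) z)
          (fun v _ => Set.indicator_nonneg (fun _ _ => zero_le_one) _) hvK)
      have h4 := kap_le (ν := ν) hg1 v
      linarith
    · have h4 := hK v hvK
      linarith
  rw [e1]
  have hb : ∀ z, |η + ∑ v ∈ K, ({z : X × X | coc S φ m z.1 / coc S φ m z.2 = v}).indicator
      (fun _ => (1 : ℝ)) z| ≤ η + K.card := by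
    intro z
    rw [abs_of_nonneg (add_nonneg hη (Finset.sum_nonneg fun v _ =>
      Set.indicator_nonneg (fun _ _ => zero_le_one) _))]
    have : ∑ v ∈ K, ({z : X × X | coc S φ m z.1 / coc S φ m z.2 = v}).indicator
        (fun _ => (1 : ℝ)) z ≤ ∑ v ∈ K, 1 := by
      refine Finset.sum_le_sum fun v _ => ?_
      by_cases hz : z ∈ {z : X × X | coc S φ m z.1 / coc S φ m z.2 = v}
      · rw [Set.indicator_of_mem hz]
      · rw [Set.indicator_of_notMem hz]; exact zero_le_one
    rw [Finset.sum_const, nsmul_eq_mul, mul_one] at this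
    linarith
  have hmeas : Measurable fun z => η + ∑ v ∈ K,
      ({z : X × X | coc S φ m z.1 / coc S φ m z.2 = v}).indicator (fun _ => (1 : ℝ)) z :=
    measurable_const.add (Finset.measurable_sum _ fun v _ => measurable_const.indicator (hs v))
  refine (int_mono_bdd hkm' hk1' hmeas hb hptw).trans (le_of_eq ?_)
  rw [integral_add (integrable_const _) (integrable_finsetSum _ fun v _ =>
    (integrable_const _).indicator (hs v)), integral_finsetSum _ fun v _ =>
    (integrable_const _).indicator (hs v)]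
  congr 1
  · simp
  · refine Finset.sum_congr rfl fun v _ => ?_
    rw [integral_indicator_const _ (hs v), smul_eq_mul, mul_one]

/-- the averages are small when the action is mixing and the cocycle is not cohomologous to a
constant modulo a finite subgroup -/
theorem rhoSmall_mixing [Countable G] [MeasurableSpace G] [DiscreteMeasurableSpace G]
    [MeasurableSMul₂ G Y] (h : Sys μ ν S φ Q) (hS : MixOrd μ S 1)
    (hmix : ∀ A B : Set Y, MeasurableSet A → MeasurableSet B →
      Tendsto (fun v : G => ν.real (A ∩ (fun y : Y => v • y) ⁻¹' B)) cofinite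
        (𝓝 (ν.real A * ν.real B)))
    (hφ : ∀ H : Subgroup G, Finite H → ∀ (l : G) (p : X → G), Measurable p →
      ¬ ∀ᵐ x ∂μ, φ x * p x / p (S x) / l ∈ H) :
    RhoSmall μ ν S φ (p2 μ) := by
  classical
  refine rhoSmall_of h gauge2 (ginv2 h.hS) ?_
  intro f g hf hg hf1 hg1 hg0 η hη
  by_contra hcon
  push Not at hcon
  have hk := kap_tendsto h.hR hmix hg hg1 hg0
  rw [Metric.tendsto_nhds] at hk
  have hfin := hk (η / 2) (by positivity)
  rw [Filter.eventually_cofinite] at hfin
  set K : Finset G := hfin.toFinset.image fun v => v⁻¹ with hKdef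
  have hK : ∀ v : G, v⁻¹ ∉ K → |kap ν g v| ≤ η / 2 := by
    intro v hv
    by_contra h2
    apply hv
    rw [hKdef, Finset.mem_image]
    refine ⟨v, ?_, rfl⟩
    rw [Set.Finite.mem_toFinset]
    show ¬ dist (kap ν g v) 0 < η / 2
    rw [Real.dist_eq, sub_zero]
    intro h3
    exact h2 h3.le
  obtain ⟨H, hH, l, p, hp, hae⟩ := coll_cob S h.hS hS φ h.hφ K (η / 2) (by positivity) (by
    intro N₀
    refine ⟨N₀ + 1, by omega, ?_⟩
    have h1 := hcon (N₀ + 1) (by omega)
    have h2 : ∑ m ∈ Finset.range (N₀ + 1), rho μ ν S φ (p2 μ) f g m 0 ≤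
        ∑ m ∈ Finset.range (N₀ + 1), (η / 2 +
          ∑ v ∈ K, (μ.prod μ).real {z | coc S φ m z.1 / coc S φ m z.2 = v}) :=
      Finset.sum_le_sum fun m _ => rho_p2_le h hf hg hf1 hg1 K (η / 2) (by positivity) hK m
    rw [Finset.sum_add_distrib, Finset.sum_const, Finset.card_range, nsmul_eq_mul] at h2
    linarith)
  exact hφ H hH l p hp hae

end

end Pool.Agent.W763.RM
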