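import Pool.Agent.W763.RM.Step

/-!
The limit of the pair correlations in the van der Corput step.
-/

set_option autoImplicit false
set_option linter.unusedSectionVars false

namespace Pool.Agent.W763.RM

open MeasureTheory Filter Topology H567MM

section

variable {X Y G : Type*} {ι : Type} [MeasurableSpace X] [MeasurableSpace Y] [MeasurableSpace G]
  [CommGroup G] [MulAction G Y] [MeasurableMul₂ G] [MeasurableInv G] [MeasurableSMul₂ G Y]
  [Fintype ι] [DecidableEq ι]
  {μ : Measure X} {ν : Measure Y} [IsProbabilityMeasure μ] [IsProbabilityMeasure ν]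
  {S : X → X} {φ : X → G} {Q : Y → Y} {𝓕 : Filter (ι → ℕ)}

/-- a gauge: a functional like `|∫ e|` or `∫ |e|` -/
structure Gauge (μ : Measure X) (p : (X → ℝ) → ℝ) : Prop where
  zero : p (fun _ => 0) = 0
  lip : ∀ e e' : X → ℝ, Measurable e → Measurable e' → (∀ x, |e x| ≤ 1) → (∀ x, |e' x| ≤ 1) →
    |p e - p e'| ≤ ∫ x, |e x - e' x| ∂μ
  meas : ∀ K : X × X → ℝ, Measurable K → (∀ z, |K z| ≤ 1) →
    Measurable fun x0 => p fun x => K (x0, x)

/-- the mixing property of the base relative to a gauge -/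
def BaseMix (μ : Measure X) (S : X → X) (𝓕 : Filter (ι → ℕ)) (p : (X → ℝ) → ℝ) : Prop :=
  ∀ (i0 i1 : ι), i0 ≠ i1 → ∀ e : ι → X → ℝ, (∀ i, Measurable (e i)) → (∀ i x, |e i x| ≤ 1) →
    ∀ A : Set X, MeasurableSet A → (∀ x, x ∉ A → e i0 x = 0) → ∀ δ : ℝ, 0 < δ →
    ∀ᶠ n in 𝓕, |∫ x, ∏ i, e i (S^[n i] x) ∂μ| < μ.real A * p (e i1) + δ

/-- the kernel -/
noncomputable def ker (ν : Measure Y) (S : X → X) (φ : X → G) (f : X → ℝ) (g : Y → ℝ) (r r' : ℕ)
    (z : X × X) : ℝ :=
  f (S^[r] z.2) * f (S^[r'] z.2) * ∫ y, g ((coc S φ r z.1)⁻¹ • coc S φ r z.2 • y) *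
    g ((coc S φ r' z.1)⁻¹ • coc S φ r' z.2 • y) ∂ν

/-- the limit of the pair correlations -/
noncomputable def rho (μ : Measure X) (ν : Measure Y) (S : X → X) (φ : X → G)
    (p : (X → ℝ) → ℝ) (f : X → ℝ) (g : Y → ℝ) (r r' : ℕ) : ℝ :=
  ∫ x0, p (fun x => ker ν S φ f g r r' (x0, x)) ∂μ

theorem ker_meas (h : Sys μ ν S φ Q) {f : X → ℝ} {g : Y → ℝ} (hf : Measurable f)
    (hg : Measurable g) (r r' : ℕ) : Measurable (ker ν S φ f g r r') := by
  have hS := h.hS.measurable
  have hc : ∀ r, Measurable (coc S φ r) := fun r => cocMeas S hS φ h.hφ r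
  unfold ker
  refine Measurable.mul (Measurable.mul ?_ ?_) ?_
  · exact hf.comp ((hS.iterate r).comp measurable_snd)
  · exact hf.comp ((hS.iterate r').comp measurable_snd)
  · have hm : Measurable fun w : (X × X) × Y =>
        g ((coc S φ r w.1.1)⁻¹ • coc S φ r w.1.2 • w.2) *
        g ((coc S φ r' w.1.1)⁻¹ • coc S φ r' w.1.2 • w.2) := by
      have h1 : ∀ s, Measurable fun w : (X × X) × Y =>
          (coc S φ s w.1.1)⁻¹ • coc S φ s w.1.2 • w.2 := fun s =>
        (((hc s).comp (measurable_fst.comp measurable_fst)).inv).smul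
          (((hc s).comp (measurable_snd.comp measurable_fst)).smul measurable_snd)
      exact (hg.comp (h1 r)).mul (hg.comp (h1 r'))
    exact (hm.stronglyMeasurable.integral_prod_right' (ν := ν)).measurable

theorem ker_le {f : X → ℝ} {g : Y → ℝ} (hf : ∀ x, |f x| ≤ 1)
    (hg : ∀ y, |g y| ≤ 1) (r r' : ℕ) (z : X × X) : |ker ν S φ f g r r' z| ≤ 1 := by
  unfold ker
  rw [abs_mul, abs_mul]
  refine mul_le_one₀ (mul_le_one₀ (hf _) (abs_nonneg _) (hf _)) (abs_nonneg _) ?_
  refine abs_int_le fun y => ?_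
  rw [abs_mul]
  exact mul_le_one₀ (hg _) (abs_nonneg _) (hg _)

theorem Gauge.le_one {p : (X → ℝ) → ℝ} (hp : Gauge μ p) {e : X → ℝ} (he : Measurable e)
    (he1 : ∀ x, |e x| ≤ 1) : |p e| ≤ 1 := by
  have h1 := hp.lip e (fun _ => 0) he measurable_const he1 (fun _ => by simp)
  rw [hp.zero, sub_zero] at h1
  simp only [sub_zero] at h1
  refine h1.trans ?_
  have h2 : |∫ x, |e x| ∂μ| ≤ 1 := abs_int_le fun x => by rw [abs_abs]; exact he1 x
  exact (le_abs_self _).trans h2

theorem sum_partition {C : Type} [Fintype C] [DecidableEq C] [MeasurableSpace C]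
    [DiscreteMeasurableSpace C]
    {c : X → C} (hc : Measurable c) (v : C → ℝ) :
    ∑ c', μ.real {x | c x = c'} * v c' = ∫ x, v (c x) ∂μ := by
  have hcs : ∀ c' : C, MeasurableSet {x | c x = c'} := fun c' => hc (measurableSet_singleton c')
  have e : (fun x => v (c x)) = fun x => ∑ c', ({x | c x = c'}).indicator (fun _ => v c') x := by
    funext x
    simp [Set.indicator]
  rw [e, integral_finsetSum]
  · refine Finset.sum_congr rfl fun c' _ => ?_
    rw [integral_indicator_const _ (hcs c'), smul_eq_mul]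
  · intro c' _
    exact (integrable_const _).indicator (hcs c')

theorem pair_lim (h : Sys μ ν S φ Q) {p : (X → ℝ) → ℝ} (hp : Gauge μ p)
    (hB : BaseMix μ S 𝓕 p) {J : Finset ι} {i0 i1 : ι} (h0 : i0 ∈ J) (h1 : i1 ∈ J)
    (h01 : i0 ≠ i1) (hRel : Rel μ ν S φ Q 𝓕 (J.erase i0)) {f : ι → X → ℝ} {g : ι → Y → ℝ}
    (hf : ∀ i, Measurable (f i)) (hg : ∀ i, Measurable (g i)) (hf1 : ∀ i x, |f i x| ≤ 1)
    (hg1 : ∀ i y, |g i y| ≤ 1) (r r' : ℕ) {δ : ℝ} (hδ : 0 < δ) :
    ∀ᶠ n in 𝓕, ∫ z, Hn S φ Q f g J i0 n r z * Hn S φ Q f g J i0 n r' z ∂(μ.prod ν) ≤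
      rho μ ν S φ p (f i1) (g i1) r r' + δ := by
  classical
  have hS := h.hS.measurable
  have hcm : ∀ r, Measurable (coc S φ r) := fun r => cocMeas S hS φ h.hφ r
  set s : Bool → ℕ := fun b => if b then r else r' with hs
  -- the functions to approximate
  set u : ι × Bool → X × Y → ℝ := fun j z => g j.1 ((coc S φ (s j.2) z.1)⁻¹ • z.2) with hu
  have hum : ∀ j, Measurable (u j) := fun j =>
    (hg j.1).comp ((((hcm _).comp measurable_fst).inv).smul measurable_snd)
  have hu1 : ∀ j z, |u j z| ≤ 1 := fun j z => hg1 _ _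
  set M : ℝ := (Fintype.card ι : ℝ) + 1 with hM
  have hM0 : 0 < M := by positivity
  set δ' : ℝ := δ / (8 * M) with hδ'
  have hδ'0 : 0 < δ' := by positivity
  obtain ⟨C, i1', i2', i3', c, hh, hc, hhm, hh1, hlt⟩ :=
    finApp_family (μ.prod ν) u hum hu1 δ' hδ'0
  have hcs : ∀ c' : C, MeasurableSet {x | c x = c'} := fun c' => hc (measurableSet_singleton c')
  -- the approximating families
  set ff : ι → X → ℝ := fun i x => f i (S^[r] x) * f i (S^[r'] x) with hff
  have hffm : ∀ i, Measurable (ff i) := fun i =>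
    ((hf i).comp (hS.iterate r)).mul ((hf i).comp (hS.iterate r'))
  have hff1 : ∀ i x, |ff i x| ≤ 1 := by
    intro i x
    simp only [hff]
    rw [abs_mul]
    exact mul_le_one₀ (hf1 i _) (abs_nonneg _) (hf1 i _)
  set β : ι → C → X × Y → ℝ := fun i c' z =>
    hh (i, true) c' (coc S φ r z.1 • z.2) * hh (i, false) c' (coc S φ r' z.1 • z.2) with hβ
  have hsm : ∀ r, Measurable fun z : X × Y => coc S φ r z.1 • z.2 := fun r =>
    ((hcm r).comp measurable_fst).smul measurable_snd
  have hβm : ∀ i c', Measurable (β i c') := fun i c' =>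
    ((hhm _ _).comp (hsm r)).mul ((hhm _ _).comp (hsm r'))
  have hβ1 : ∀ i c' z, |β i c' z| ≤ 1 := by
    intro i c' z
    simp only [hβ]
    rw [abs_mul]
    exact mul_le_one₀ (hh1 _ _ _) (abs_nonneg _) (hh1 _ _ _)
  set Ψ : C → ι → X × Y → ℝ := fun c' i z => ff i z.1 *
    (if i = i0 then (if c z.1 = c' then 1 else 0) else if i ∈ J then β i c' z else 1) with hΨ
  have hΨm : ∀ c' i, Measurable (Ψ c' i) := by
    intro c' i
    refine ((hffm i).comp measurable_fst).mul ?_
    by_cases hi : i = i0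
    · simp only [hi, if_true]
      exact Measurable.ite (measurable_fst (hcs c')) measurable_const measurable_const
    · by_cases hi2 : i ∈ J
      · simp only [hi, hi2, if_true, if_false]; exact hβm i c'
      · simp only [hi, hi2, if_false]; exact measurable_const
  have hΨ1 : ∀ c' i z, |Ψ c' i z| ≤ 1 := by
    intro c' i z
    simp only [hΨ]
    rw [abs_mul]
    refine mul_le_one₀ (hff1 i _) (abs_nonneg _) ?_
    by_cases hi : i = i0
    · simp only [hi, if_true]
      by_cases hc' : c z.1 = c' <;> simp [hc']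
    · by_cases hi2 : i ∈ J
      · simp only [hi, hi2, if_true, if_false]; exact hβ1 i c' z
      · simp [hi, hi2]
  have hΨE : ∀ c' i, i ∉ J.erase i0 → ∀ z, Ψ c' i z = E ν (Ψ c' i) z.1 := by
    intro c' i hi z
    unfold E
    by_cases hi0 : i = i0
    · simp only [hΨ, hi0, if_true]
      simp
    · have hi2 : i ∉ J := fun hh => hi (Finset.mem_erase.2 ⟨hi0, hh⟩)
      simp only [hΨ, hi0, hi2, if_false]
      simp
  -- the limit of each piece
  set c₁ : ℝ := (Fintype.card C : ℝ) + 1 with hc₁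
  have hc₁0 : 0 < c₁ := by positivity
  set δ₁ : ℝ := δ / (4 * c₁) with hδ₁
  have hδ₁0 : 0 < δ₁ := by positivity
  have hev1 : ∀ᶠ n in 𝓕, ∀ c', LT (μ.prod ν) (skw S φ Q) (Ψ c') n - ME μ ν S (Ψ c') n < δ₁ := by
    rw [Filter.eventually_all]
    intro c'
    have h2 := hRel (Ψ c') (hΨm c') (hΨ1 c') (hΨE c')
    exact (h2.eventually_lt_const hδ₁0)
  have hev2 : ∀ᶠ n in 𝓕, ∀ c', ME μ ν S (Ψ c') n <
      μ.real {x | c x = c'} * p (E ν (Ψ c' i1)) + δ₁ := by
    rw [Filter.eventually_all]
    intro c'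
    have h2 := hB i0 i1 h01 (fun i => E ν (Ψ c' i)) (fun i => E_meas (hΨm c' i))
      (fun i x => E_le (hΨ1 c' i) x) {x | c x = c'} (hcs c') (by
        intro x hx
        have hx' : c x ≠ c' := hx
        unfold E
        simp only [hΨ, if_true]
        simp [hx']) δ₁ hδ₁0
    filter_upwards [h2] with n hn
    exact (le_abs_self _).trans_lt hn
  -- the bound of the sum of the limits
  have hbound : ∑ c', μ.real {x | c x = c'} * p (E ν (Ψ c' i1)) ≤
      rho μ ν S φ p (f i1) (g i1) r r' + 2 * δ' := by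
    rw [sum_partition hc fun c' => p (E ν (Ψ c' i1))]
    set D : Bool → X → ℝ := fun b x0 => ∫ y, |u (i1, b) (x0, y) - hh (i1, b) (c x0) y| ∂ν with hD
    have hdm : ∀ b, Measurable fun z : X × Y => |u (i1, b) z - fp c (hh (i1, b)) z| := fun b =>
      ((hum (i1, b)).sub (fp_meas hc (hhm (i1, b)))).abs
    have hdb : ∀ b z, |(|u (i1, b) z - fp c (hh (i1, b)) z|)| ≤ 2 := by
      intro b z
      rw [abs_abs]
      have e1 := hu1 (i1, b) z
      have e2 : |fp c (hh (i1, b)) z| ≤ 1 := hh1 _ _ _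
      refine (abs_sub _ _).trans ?_
      linarith
    have hDm : ∀ b, Measurable (D b) := fun b => E_meas (hdm b)
    have hDb : ∀ b x, |D b x| ≤ 2 := fun b x => E_le (hdb b) x
    have hDi : ∀ b, ∫ x, D b x ∂μ < δ' := by
      intro b
      have e1 := int_prod (μ := μ) (ν := ν) (hdm b) (hdb b)
      have e2 : ∫ x, D b x ∂μ = ∫ z, |u (i1, b) z - fp c (hh (i1, b)) z| ∂(μ.prod ν) := by
        rw [e1]
        rfl
      rw [e2]
      exact hlt (i1, b)
    have hE : ∀ x0 x, E ν (Ψ (c x0) i1) x = ff i1 x * ∫ y, β i1 (c x0) (x, y) ∂ν := by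
      intro x0 x
      unfold E
      simp only [hΨ, (Ne.symm h01), h1, if_true, if_false]
      exact integral_const_mul _ _
    have hEm : ∀ c', Measurable (E ν (Ψ c' i1)) := fun c' => E_meas (hΨm c' i1)
    have hE1 : ∀ c' x, |E ν (Ψ c' i1) x| ≤ 1 := fun c' x => E_le (hΨ1 c' i1) x
    have hkm := ker_meas (G := G) h (hf i1) (hg i1) r r'
    have hk1 := ker_le (ν := ν) (S := S) (φ := φ) (hf1 i1) (hg1 i1) r r'
    have hker : ∀ x0 x, |E ν (Ψ (c x0) i1) x - ker ν S φ (f i1) (g i1) r r' (x0, x)| ≤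
        D true x0 + D false x0 := by
      intro x0 x
      rw [hE]
      have e1 : ker ν S φ (f i1) (g i1) r r' (x0, x) = ff i1 x *
          ∫ y, u (i1, true) (x0, coc S φ r x • y) * u (i1, false) (x0, coc S φ r' x • y) ∂ν := rfl
      rw [e1, ← mul_sub, abs_mul]
      refine (mul_le_of_le_one_left (abs_nonneg _) (hff1 i1 x)).trans ?_
      have hR : ∀ b : Bool, MeasurePreserving (fun y : Y => coc S φ (s b) x • y) ν ν :=
        fun b => h.hR _
      have e2 := corr_diff (m := ν) (m' := fun _ : Bool => ν) Finset.univ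
        (fun b => fun y => coc S φ (s b) x • y) (fun b _ => hR b) (fun _ => 1) measurable_const
        (fun _ => by simp) (fun b y => hh (i1, b) (c x0) y) (fun b y => u (i1, b) (x0, y))
        (fun b => hhm _ _) (fun b => (hum (i1, b)).comp measurable_prodMk_left)
        (fun b y => hh1 _ _ _) (fun b y => hu1 _ _)
      simp only [one_mul, Fintype.prod_bool, Fintype.sum_bool] at e2
      have e3 : ∀ b, ∫ w, |hh (i1, b) (c x0) w - u (i1, b) (x0, w)| ∂ν = D b x0 := by
        intro b
        simp only [hD, abs_sub_comm]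
      rw [e3, e3] at e2
      exact e2
    have hpd : ∀ x0, p (E ν (Ψ (c x0) i1)) ≤
        p (fun x => ker ν S φ (f i1) (g i1) r r' (x0, x)) + (D true x0 + D false x0) := by
      intro x0
      have e1 := hp.lip (E ν (Ψ (c x0) i1)) (fun x => ker ν S φ (f i1) (g i1) r r' (x0, x))
        (hEm _) (hkm.comp measurable_prodMk_left) (hE1 _) (fun x => hk1 _)
      have e2 : ∫ x, |E ν (Ψ (c x0) i1) x - ker ν S φ (f i1) (g i1) r r' (x0, x)| ∂μ ≤
          D true x0 + D false x0 := by
        have e3 := integral_mono_of_nonneg (μ := μ)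
          (f := fun x => |E ν (Ψ (c x0) i1) x - ker ν S φ (f i1) (g i1) r r' (x0, x)|)
          (g := fun _ => D true x0 + D false x0) (Eventually.of_forall fun x => abs_nonneg _)
          (integrable_const _) (Eventually.of_forall fun x => hker x0 x)
        refine e3.trans (le_of_eq ?_)
        simp
      have e4 := (abs_le.1 e1).2
      linarith
    have hpm : Measurable fun x0 => p (fun x => ker ν S φ (f i1) (g i1) r r' (x0, x)) :=
      hp.meas _ hkm hk1
    have hpb : ∀ x0, |p (fun x => ker ν S φ (f i1) (g i1) r r' (x0, x))| ≤ 1 := fun x0 =>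
      hp.le_one (hkm.comp measurable_prodMk_left) fun x => hk1 _
    have hpm' : Measurable fun x0 => p (E ν (Ψ (c x0) i1)) :=
      (Measurable.of_discrete (f := fun c' : C => p (E ν (Ψ c' i1)))).comp hc
    have hpb' : ∀ x0, |p (E ν (Ψ (c x0) i1))| ≤ 1 := fun x0 => hp.le_one (hEm _) (hE1 _)
    calc ∫ x0, p (E ν (Ψ (c x0) i1)) ∂μ
        ≤ ∫ x0, (p (fun x => ker ν S φ (f i1) (g i1) r r' (x0, x)) +
            (D true x0 + D false x0)) ∂μ := by
          refine int_mono_bdd (B := 1) (B' := 5) hpm' hpb'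
            (hpm.add ((hDm true).add (hDm false))) (fun x0 => ?_) hpd
          have e1 := hpb x0
          have e2 := hDb true x0
          have e3 := hDb false x0
          refine (abs_add_le _ _).trans ?_
          have e4 := abs_add_le (D true x0) (D false x0)
          linarith
      _ = rho μ ν S φ p (f i1) (g i1) r r' + (∫ x0, D true x0 ∂μ + ∫ x0, D false x0 ∂μ) := by
          have a1 : ∫ x0, (D true x0 + D false x0) ∂μ = ∫ x0, D true x0 ∂μ + ∫ x0, D false x0 ∂μ :=
            integral_add (int_bdd (hDm true) (hDb true)) (int_bdd (hDm false) (hDb false))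
          rw [← a1]
          exact integral_add (int_bdd hpm hpb)
            ((int_bdd (hDm true) (hDb true)).add (int_bdd (hDm false) (hDb false)))
      _ ≤ rho μ ν S φ p (f i1) (g i1) r r' + 2 * δ' := by
          have e1 := hDi true
          have e2 := hDi false
          linarith
  -- the comparison
  filter_upwards [hev1, hev2] with n hn1 hn2
  set J' : Finset (ι × Bool) := (J.erase i0) ×ˢ Finset.univ with hJ'
  set τ : ι × Bool → X × Y → X × Y := fun j z =>
    (S^[n i0] z.1, (coc S φ (s j.2) (S^[n j.1] z.1) * coc S φ (n j.1) z.1) • Q^[n j.1] z.2)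
    with hτ
  have hτm : ∀ j, MeasurePreserving (τ j) (μ.prod ν) (μ.prod ν) := fun j =>
    h.mp_gen (n i0) (n j.1) (fun x => coc S φ (s j.2) (S^[n j.1] x) * coc S φ (n j.1) x)
      (((hcm _).comp (hS.iterate _)).mul (hcm _))
  set A : X × Y → ℝ := fun z => ∏ i, ff i (S^[n i] z.1) with hA
  have hAm : Measurable A := Finset.measurable_prod _ fun i _ =>
    (hffm i).comp ((hS.iterate (n i)).comp measurable_fst)
  have hA1 : ∀ z, |A z| ≤ 1 := fun z => abs_prod_le_one _ _ fun i _ => hff1 i _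
  have e1 : ∀ z, Hn S φ Q f g J i0 n r z * Hn S φ Q f g J i0 n r' z =
      A z * ∏ j ∈ J', u j (τ j z) := by
    intro z
    unfold Hn
    rw [hJ', Finset.prod_product]
    simp only [Fintype.prod_bool, hu, hτ, hA, hff, hs, if_true, Bool.false_eq_true, if_false,
      Finset.prod_mul_distrib, mul_smul]
    ring
  have e2 : ∑ c', LT (μ.prod ν) (skw S φ Q) (Ψ c') n =
      ∫ z, A z * ∏ j ∈ J', fp c (hh j) (τ j z) ∂(μ.prod ν) := by
    unfold LT
    rw [← integral_finsetSum]
    · congr 1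
      funext z
      have e3 : ∀ c', ∏ i, Ψ c' i ((skw S φ Q)^[n i] z) =
          A z * ((if c (S^[n i0] z.1) = c' then 1 else 0) *
            ∏ i ∈ J.erase i0, β i c' ((skw S φ Q)^[n i] z)) := by
        intro c'
        have e4 : ∀ i, Ψ c' i ((skw S φ Q)^[n i] z) = ff i (S^[n i] z.1) *
            (if i = i0 then (if c (S^[n i0] z.1) = c' then 1 else 0) else
              if i ∈ J then β i c' ((skw S φ Q)^[n i] z) else 1) := by
          intro i
          simp only [hΨ, h.iterate_fst]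
          by_cases hi : i = i0
          · simp only [hi, if_true]
          · simp only [hi, if_false]
        rw [Finset.prod_congr rfl fun i _ => e4 i, Finset.prod_mul_distrib, prod_split J h0]
      simp only [e3]
      rw [← Finset.mul_sum]
      congr 1
      have e5 : ∑ c' : C, (if c (S^[n i0] z.1) = c' then (1 : ℝ) else 0) *
            ∏ i ∈ J.erase i0, β i c' ((skw S φ Q)^[n i] z) =
          ∏ i ∈ J.erase i0, β i (c (S^[n i0] z.1)) ((skw S φ Q)^[n i] z) := by
        simp only [ite_mul, one_mul, zero_mul]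
        rw [Finset.sum_ite_eq, if_pos (Finset.mem_univ _)]
      rw [e5, hJ', Finset.prod_product]
      refine Finset.prod_congr rfl fun i _ => ?_
      obtain ⟨x, y⟩ := z
      simp only [Fintype.prod_bool, hβ, fp, hτ, hs, if_true, Bool.false_eq_true, if_false,
        h.iterate, mul_smul]
    · intro c' _
      refine int_bdd (B := 1) (Finset.measurable_prod _ fun i _ =>
        (hΨm c' i).comp (h.mp.iterate (n i)).measurable) fun z => ?_
      exact abs_prod_le_one _ _ fun i _ => hΨ1 c' i _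
  have e3 := corr_diff (m := μ.prod ν) (m' := fun _ : ι × Bool => μ.prod ν) J' τ
    (fun j _ => hτm j) A hAm hA1 u (fun j => fp c (hh j)) hum
    (fun j => fp_meas hc (hhm j)) hu1 (fun j z => hh1 j _ _)
  have e4 : ∑ j ∈ J', ∫ w, |u j w - fp c (hh j) w| ∂(μ.prod ν) ≤ 2 * M * δ' := by
    refine (Finset.sum_le_sum fun j _ => (hlt j).le).trans ?_
    rw [Finset.sum_const, nsmul_eq_mul]
    refine mul_le_mul_of_nonneg_right ?_ hδ'0.le
    have : J'.card ≤ 2 * Fintype.card ι := by
      rw [hJ', Finset.card_product]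
      simp only [Finset.card_univ, Fintype.card_bool]
      have := (Finset.card_le_univ (J.erase i0))
      omega
    have h2 : (J'.card : ℝ) ≤ 2 * (Fintype.card ι : ℝ) := by exact_mod_cast this
    rw [hM]
    linarith
  have e5 : ∫ z, Hn S φ Q f g J i0 n r z * Hn S φ Q f g J i0 n r' z ∂(μ.prod ν) =
      ∫ z, A z * ∏ j ∈ J', u j (τ j z) ∂(μ.prod ν) := by
    congr 1
    funext z
    exact e1 z
  rw [e5]
  have e6 : ∑ c', LT (μ.prod ν) (skw S φ Q) (Ψ c') n ≤
      ∑ c', (μ.real {x | c x = c'} * p (E ν (Ψ c' i1)) + 2 * δ₁) := by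
    refine Finset.sum_le_sum fun c' _ => ?_
    have a1 := hn1 c'
    have a2 := hn2 c'
    linarith
  rw [Finset.sum_add_distrib, Finset.sum_const, Finset.card_univ, nsmul_eq_mul] at e6
  have e7 : (Fintype.card C : ℝ) * (2 * δ₁) ≤ δ / 2 := by
    rw [hδ₁, hc₁]
    rw [show (Fintype.card C : ℝ) * (2 * (δ / (4 * ((Fintype.card C : ℝ) + 1)))) =
      (δ / 2) * ((Fintype.card C : ℝ) / ((Fintype.card C : ℝ) + 1)) by field_simp; ring]
    refine mul_le_of_le_one_right (by positivity) ?_
    rw [div_le_one (by positivity)]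
    linarith
  have e8 : 2 * M * δ' = δ / 4 := by
    rw [hδ']
    field_simp
    ring
  have hM1 : 1 ≤ M := by
    rw [hM]
    have : (0 : ℝ) ≤ (Fintype.card ι : ℝ) := by positivity
    linarith
  have e9 : 2 * δ' ≤ δ / 4 := by
    rw [← e8]
    nlinarith
  have e10 := (abs_le.1 (e3.trans e4)).2
  rw [← e2] at e10
  linarith

end

end Pool.Agent.W763.RM
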