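import Pool.Agent.W763.RM.Lin

/-!
Reduction of relative mixing to product functions with fibre mean zero.
-/

set_option autoImplicit false
set_option linter.unusedSectionVars false

namespace Pool.Agent.W763.RM

open MeasureTheory Filter Topology H567MM

section

variable {X Y G : Type*} {ι : Type} [MeasurableSpace X] [MeasurableSpace Y] [MeasurableSpace G]
  [CommGroup G] [MulAction G Y] [MeasurableSMul₂ G Y] [Fintype ι] [DecidableEq ι]
  {μ : Measure X} {ν : Measure Y} [IsProbabilityMeasure μ] [IsProbabilityMeasure ν]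
  {S : X → X} {φ : X → G} {Q : Y → Y} {𝓕 : Filter (ι → ℕ)}

/-- relative mixing for functions which do not depend on the fibre outside `J` -/
def Rel (μ : Measure X) (ν : Measure Y) (S : X → X) (φ : X → G) (Q : Y → Y)
    (𝓕 : Filter (ι → ℕ)) (J : Finset ι) : Prop :=
  ∀ F : ι → X × Y → ℝ, (∀ i, Measurable (F i)) → (∀ i z, |F i z| ≤ 1) →
    (∀ i, i ∉ J → ∀ z, F i z = E ν (F i) z.1) →
    Tendsto (fun n => LT (μ.prod ν) (skw S φ Q) F n - ME μ ν S F n) 𝓕 (𝓝 0)

/-- product functions -/
def pf (f : ι → X → ℝ) (g : ι → Y → ℝ) (i : ι) (z : X × Y) : ℝ := f i z.1 * g i z.2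

/-- mixing for product functions with mean zero fibre part on `J` -/
def ZM (μ : Measure X) (ν : Measure Y) (S : X → X) (φ : X → G) (Q : Y → Y)
    (𝓕 : Filter (ι → ℕ)) (J : Finset ι) : Prop :=
  ∀ (f : ι → X → ℝ) (g : ι → Y → ℝ), (∀ i, Measurable (f i)) → (∀ i, Measurable (g i)) →
    (∀ i x, |f i x| ≤ 1) → (∀ i y, |g i y| ≤ 1) → (∀ i ∈ J, ∫ y, g i y ∂ν = 0) →
    (∀ i, i ∉ J → ∀ y, g i y = 1) →
    Tendsto (LT (μ.prod ν) (skw S φ Q) (pf f g)) 𝓕 (𝓝 0)

theorem pf_meas {f : ι → X → ℝ} {g : ι → Y → ℝ} (hf : ∀ i, Measurable (f i))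
    (hg : ∀ i, Measurable (g i)) (i : ι) : Measurable (pf f g i) :=
  ((hf i).comp measurable_fst).mul ((hg i).comp measurable_snd)

theorem pf_le {f : ι → X → ℝ} {g : ι → Y → ℝ} (hf : ∀ i x, |f i x| ≤ 1)
    (hg : ∀ i y, |g i y| ≤ 1) (i : ι) (z : X × Y) : |pf f g i z| ≤ 1 := by
  unfold pf
  rw [abs_mul]
  exact mul_le_one₀ (hf i _) (abs_nonneg _) (hg i _)

theorem E_pf (f : ι → X → ℝ) (g : ι → Y → ℝ) (i : ι) (x : X) :
    E ν (pf f g i) x = f i x * ∫ y, g i y ∂ν := by
  exact integral_const_mul (f i x) (g i)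

/-- fibre-constant functions -/
theorem LT_eq_ME (h : Sys μ ν S φ Q) (F : ι → X × Y → ℝ) (hF : ∀ i, Measurable (F i))
    (hc : ∀ i z, F i z = E ν (F i) z.1) (n : ι → ℕ) :
    LT (μ.prod ν) (skw S φ Q) F n = ME μ ν S F n := by
  unfold LT ME
  have e : ∀ z : X × Y, ∏ i, F i ((skw S φ Q)^[n i] z) = ∏ i, E ν (F i) (S^[n i] z.1) := by
    intro z
    refine Finset.prod_congr rfl fun i _ => ?_
    rw [hc i, h.iterate_fst]
  simp only [e]
  have hm : Measurable fun x : X => ∏ i, E ν (F i) (S^[n i] x) :=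
    Finset.measurable_prod _ fun i _ => (E_meas (hF i)).comp (h.hS.iterate (n i)).measurable
  exact int_mp (measurePreserving_fst (μ := μ) (ν := ν)) hm

theorem relP (h : Sys μ ν S φ Q) (J : Finset ι)
    (hZ : ∀ J' ⊆ J, J'.Nonempty → ZM μ ν S φ Q 𝓕 J') (f : ι → X → ℝ) (g : ι → Y → ℝ)
    (hf : ∀ i, Measurable (f i)) (hg : ∀ i, Measurable (g i)) (hf1 : ∀ i x, |f i x| ≤ 1)
    (hg1 : ∀ i y, |g i y| ≤ 1) (hJ : ∀ i, i ∉ J → ∀ y, g i y = 1) :
    Tendsto (fun n => LT (μ.prod ν) (skw S φ Q) (pf f g) n - ME μ ν S (pf f g) n) 𝓕 (𝓝 0) := by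
  classical
  set a : ι → ℝ := fun i => ∫ y, g i y ∂ν with ha
  have ha1 : ∀ i, |a i| ≤ 1 := fun i => abs_int_le (hg1 i)
  -- the pieces
  set k : ι → Bool → Y → ℝ := fun i b y => if b then (g i y - a i) / 2 else 1 with hk
  set α : ι → Bool → ℝ := fun i b => if b then 2 else a i with hα
  have hkm : ∀ i b, Measurable (k i b) := by
    intro i b
    cases b
    · simp only [hk]; exact measurable_const
    · simp only [hk]; exact ((hg i).sub measurable_const).div_const 2
  have hk1 : ∀ i b y, |k i b y| ≤ 1 := by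
    intro i b y
    cases b
    · simp [hk]
    · simp only [hk, if_true]
      rw [abs_div, abs_of_pos (by norm_num : (0 : ℝ) < 2), div_le_one (by norm_num)]
      have h1 := hg1 i y
      have h2 := ha1 i
      refine (abs_sub _ _).trans ?_
      linarith
  have hα2 : ∀ i b, |α i b| ≤ 2 := by
    intro i b
    cases b
    · simp only [hα]
      have := ha1 i
      simp only [Bool.false_eq_true, if_false]
      linarith
    · simp [hα]
  set K : ι → Bool → X × Y → ℝ := fun i b z => α i b * (f i z.1 * k i b z.2) with hK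
  have hsum : ∀ i, (fun z => ∑ b, K i b z) = pf f g i := by
    intro i
    funext z
    simp only [hK, hα, hk, pf, Fintype.sum_bool, if_true, Bool.false_eq_true, if_false]
    ring
  have hKm : ∀ i b, Measurable (K i b) := fun i b =>
    (((hf i).comp measurable_fst).mul ((hkm i b).comp measurable_snd)).const_mul _
  have hK2 : ∀ i b z, |K i b z| ≤ 2 := by
    intro i b z
    simp only [hK]
    rw [abs_mul, abs_mul]
    have h1 := hα2 i b
    have h2 := hf1 i z.1
    have h3 := hk1 i b z.2
    have h4 : |f i z.1| * |k i b z.2| ≤ 1 := mul_le_one₀ h2 (abs_nonneg _) h3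
    calc |α i b| * (|f i z.1| * |k i b z.2|) ≤ 2 * 1 :=
          mul_le_mul h1 h4 (by positivity) (by norm_num)
      _ = 2 := by norm_num
  have e1 : ∀ n, LT (μ.prod ν) (skw S φ Q) (pf f g) n - ME μ ν S (pf f g) n =
      ∑ σ : ι → Bool, (∏ i, α i (σ i)) * (LT (μ.prod ν) (skw S φ Q) (pf f fun i => k i (σ i)) n -
        ME μ ν S (pf f fun i => k i (σ i)) n) := by
    intro n
    have e2 : pf f g = fun i z => ∑ b, K i b z := by
      funext i
      exact (hsum i).symm
    rw [e2, LT_expand h K hKm hK2, ME_expand h.hS K hKm hK2, ← Finset.sum_sub_distrib]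
    refine Finset.sum_congr rfl fun σ _ => ?_
    have e3 : (fun i => K i (σ i)) = fun i z => α i (σ i) * (pf f fun i => k i (σ i)) i z := by
      funext i z
      simp only [hK, pf]
    rw [e3, LT_smul, ME_smul (μ := μ) (ν := ν), mul_sub]
  have e2 : (fun n => LT (μ.prod ν) (skw S φ Q) (pf f g) n - ME μ ν S (pf f g) n) = fun n =>
      ∑ σ : ι → Bool, (∏ i, α i (σ i)) * (LT (μ.prod ν) (skw S φ Q) (pf f fun i => k i (σ i)) n -
        ME μ ν S (pf f fun i => k i (σ i)) n) := funext e1
  rw [e2]
  have e0 : (0 : ℝ) = ∑ σ : ι → Bool, (∏ i, α i (σ i)) * 0 := by simp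
  rw [e0]
  refine tendsto_finsetSum _ fun σ _ => Tendsto.const_mul _ ?_
  -- one piece
  by_cases hc : ∃ i, i ∉ J ∧ σ i = true
  · obtain ⟨i, hi, hσ⟩ := hc
    have hk0 : ∀ y, k i (σ i) y = 0 := by
      intro y
      simp only [hk, hσ, if_true, ha]
      have h1 : ∀ y, g i y = 1 := hJ i hi
      simp [h1]
    have hLT : ∀ n, LT (μ.prod ν) (skw S φ Q) (pf f fun i => k i (σ i)) n = 0 := by
      intro n
      unfold LT
      have : ∀ z : X × Y, ∏ i, pf f (fun i => k i (σ i)) i ((skw S φ Q)^[n i] z) = 0 := by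
        intro z
        refine Finset.prod_eq_zero (Finset.mem_univ i) ?_
        show f i _ * k i (σ i) _ = 0
        rw [hk0, mul_zero]
      simp only [this, integral_zero]
    have hME : ∀ n, ME μ ν S (pf f fun i => k i (σ i)) n = 0 := by
      intro n
      unfold ME
      have : ∀ x : X, ∏ i, E ν (pf f (fun i => k i (σ i)) i) (S^[n i] x) = 0 := by
        intro z
        refine Finset.prod_eq_zero (Finset.mem_univ i) ?_
        rw [E_pf]
        have : ∫ y, k i (σ i) y ∂ν = 0 := by simp only [hk0, integral_zero]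
        rw [this, mul_zero]
      simp only [this, integral_zero]
    simp only [hLT, hME, sub_zero]
    exact tendsto_const_nhds
  · push Not at hc
    set J' : Finset ι := Finset.univ.filter fun i => σ i = true with hJ'
    have hsub : J' ⊆ J := by
      intro i hi
      rw [hJ', Finset.mem_filter] at hi
      by_contra hcon
      exact hc i hcon hi.2
    have hkf : ∀ i, i ∉ J' → ∀ y, k i (σ i) y = 1 := by
      intro i hi y
      rw [hJ', Finset.mem_filter] at hi
      have : σ i = false := by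
        by_contra h2
        exact hi ⟨Finset.mem_univ i, by simpa using h2⟩
      simp [hk, this]
    have hkt : ∀ i, i ∈ J' → ∫ y, k i (σ i) y ∂ν = 0 := by
      intro i hi
      rw [hJ', Finset.mem_filter] at hi
      simp only [hk, hi.2, if_true]
      rw [integral_div, integral_sub (int_bdd (hg i) (hg1 i)) (integrable_const _)]
      simp [ha]
    by_cases hne : J'.Nonempty
    · have h1 := hZ J' hsub hne f (fun i => k i (σ i)) hf (fun i => hkm i _) hf1
        (fun i y => hk1 i _ y) hkt hkf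
      have hME : ∀ n, ME μ ν S (pf f fun i => k i (σ i)) n = 0 := by
        intro n
        obtain ⟨i, hi⟩ := hne
        unfold ME
        have : ∀ x : X, ∏ i, E ν (pf f (fun i => k i (σ i)) i) (S^[n i] x) = 0 := by
          intro z
          refine Finset.prod_eq_zero (Finset.mem_univ i) ?_
          rw [E_pf, hkt i hi, mul_zero]
        simp only [this, integral_zero]
      simp only [hME, sub_zero]
      exact h1
    · rw [Finset.not_nonempty_iff_eq_empty] at hne
      have hk1' : ∀ i y, k i (σ i) y = 1 := fun i y => hkf i (by rw [hne]; exact Finset.notMem_empty i) y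
      have h2 : ∀ n, LT (μ.prod ν) (skw S φ Q) (pf f fun i => k i (σ i)) n =
          ME μ ν S (pf f fun i => k i (σ i)) n := by
        intro n
        refine LT_eq_ME h _ (fun i => pf_meas hf (fun i => hkm i _) i) ?_ n
        intro i z
        rw [E_pf]
        simp only [hk1', pf]
        simp
      simp only [h2, sub_self]
      exact tendsto_const_nhds

theorem rel_of_zm (h : Sys μ ν S φ Q) (J : Finset ι)
    (hZ : ∀ J' ⊆ J, J'.Nonempty → ZM μ ν S φ Q 𝓕 J') : Rel μ ν S φ Q 𝓕 J := by
  classical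
  intro F hF hF1 hJ
  rw [Metric.tendsto_nhds]
  intro ε hε
  set δ : ℝ := ε / (4 * ((Fintype.card ι : ℝ) + 1)) with hδ
  have hδ0 : 0 < δ := by positivity
  obtain ⟨C, i1, i2, i3, c, hh, hc, hhm, hh1, hlt⟩ := finApp_family (μ.prod ν) F hF hF1 δ hδ0
  -- the pieces
  set A : ι → C → X → ℝ := fun i c' x =>
    (if c x = c' then 1 else 0) * (if i ∈ J then 1 else E ν (F i) x) with hA
  set B : ι → C → Y → ℝ := fun i c' y => if i ∈ J then hh i c' y else 1 with hB
  set K : ι → C → X × Y → ℝ := fun i c' z => A i c' z.1 * B i c' z.2 with hK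
  have hcs : ∀ c' : C, MeasurableSet {x | c x = c'} := fun c' => hc (measurableSet_singleton c')
  have hAm : ∀ i c', Measurable (A i c') := by
    intro i c'
    refine Measurable.mul ?_ ?_
    · exact Measurable.ite (hcs c') measurable_const measurable_const
    · by_cases hi : i ∈ J
      · simp only [hi, if_true]; exact measurable_const
      · simp only [hi, if_false]; exact E_meas (hF i)
  have hA1 : ∀ i c' x, |A i c' x| ≤ 1 := by
    intro i c' x
    simp only [hA]
    rw [abs_mul]
    refine mul_le_one₀ ?_ (abs_nonneg _) ?_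
    · by_cases h : c x = c' <;> simp [h]
    · by_cases hi : i ∈ J
      · simp [hi]
      · simp only [hi, if_false]; exact E_le (hF1 i) x
  have hBm : ∀ i c', Measurable (B i c') := by
    intro i c'
    by_cases hi : i ∈ J
    · simp only [hB, hi, if_true]; exact hhm i c'
    · simp only [hB, hi, if_false]; exact measurable_const
  have hB1 : ∀ i c' y, |B i c' y| ≤ 1 := by
    intro i c' y
    by_cases hi : i ∈ J
    · simp only [hB, hi, if_true]; exact hh1 i c' y
    · simp [hB, hi]
  have hKm : ∀ i c', Measurable (K i c') := fun i c' =>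
    ((hAm i c').comp measurable_fst).mul ((hBm i c').comp measurable_snd)
  have hK1 : ∀ i c' z, |K i c' z| ≤ 1 := by
    intro i c' z
    simp only [hK]
    rw [abs_mul]
    exact mul_le_one₀ (hA1 i c' _) (abs_nonneg _) (hB1 i c' _)
  set H : ι → X × Y → ℝ := fun i z => ∑ c', K i c' z with hH
  have hHe : ∀ i z, H i z = if i ∈ J then hh i (c z.1) z.2 else F i z := by
    intro i z
    simp only [hH, hK, hA, hB]
    by_cases hi : i ∈ J
    · simp [hi]
    · simp only [hi, if_false]
      rw [hJ i hi z]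
      simp
  have hHm : ∀ i, Measurable (H i) := fun i => Finset.measurable_sum _ fun c' _ => hKm i c'
  have hH1 : ∀ i z, |H i z| ≤ 1 := by
    intro i z
    rw [hHe]
    by_cases hi : i ∈ J
    · simp only [hi, if_true]; exact hh1 i _ _
    · simp only [hi, if_false]; exact hF1 i z
  have hd : ∀ i, ∫ z, |F i z - H i z| ∂(μ.prod ν) ≤ δ := by
    intro i
    by_cases hi : i ∈ J
    · simp only [hHe, hi, if_true]
      exact (hlt i).le
    · simp only [hHe, hi, if_false, sub_self, abs_zero, integral_zero]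
      exact hδ0.le
  have hsumd : ∑ i, ∫ z, |F i z - H i z| ∂(μ.prod ν) ≤ ε / 4 := by
    refine (Finset.sum_le_sum fun i _ => hd i).trans ?_
    rw [Finset.sum_const, Finset.card_univ, nsmul_eq_mul, hδ, mul_div_assoc',
      div_le_div_iff₀ (by positivity) (by norm_num)]
    nlinarith
  have hlim : Tendsto (fun n => LT (μ.prod ν) (skw S φ Q) H n - ME μ ν S H n) 𝓕 (𝓝 0) := by
    have e1 : (fun n => LT (μ.prod ν) (skw S φ Q) H n - ME μ ν S H n) = fun n =>
        ∑ σ : ι → C, (LT (μ.prod ν) (skw S φ Q) (pf (fun i => A i (σ i)) fun i => B i (σ i)) n -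
          ME μ ν S (pf (fun i => A i (σ i)) fun i => B i (σ i)) n) := by
      funext n
      simp only [hH]
      rw [LT_expand h K hKm hK1, ME_expand h.hS K hKm hK1, ← Finset.sum_sub_distrib]
      rfl
    rw [e1]
    have e0 : (0 : ℝ) = ∑ σ : ι → C, 0 := by simp
    rw [e0]
    refine tendsto_finsetSum _ fun σ _ => ?_
    refine relP h J hZ _ _ (fun i => hAm i _) (fun i => hBm i _) (fun i x => hA1 i _ x)
      (fun i y => hB1 i _ y) ?_
    intro i hi y
    simp [hB, hi]
  rw [Metric.tendsto_nhds] at hlim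
  filter_upwards [hlim (ε / 2) (by positivity)] with n hn
  rw [Real.dist_eq, sub_zero] at hn ⊢
  have h1 := LT_diff h F H hF hHm hF1 hH1 n
  have h2 := ME_diff (ν := ν) h.hS F H hF hHm hF1 hH1 n
  have h3 := h1.trans hsumd
  have h4 := h2.trans hsumd
  rw [abs_lt] at hn ⊢
  rw [abs_le] at h3 h4
  constructor <;> linarith [hn.1, hn.2, h3.1, h3.2, h4.1, h4.2]

end

end Pool.Agent.W763.RM
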