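import Pool.Agent.W763.RM.Gau

/-!
The limit correlations depend on the difference of the times only.
-/

set_option autoImplicit false
set_option linter.unusedSectionVars false

namespace Pool.Agent.W763.RM

open MeasureTheory Filter Topology H567MM

section

variable {X Y G : Type*} [MeasurableSpace X] [MeasurableSpace Y] [MeasurableSpace G]
  [CommGroup G] [MulAction G Y] [MeasurableMul₂ G] [MeasurableInv G] [MeasurableSMul₂ G Y]
  {μ : Measure X} {ν : Measure Y} [IsProbabilityMeasure μ] [IsProbabilityMeasure ν]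
  {S : X → X} {φ : X → G} {Q : Y → Y}

/-- the autocorrelation of `g` -/
noncomputable def kap (ν : Measure Y) (g : Y → ℝ) (v : G) : ℝ := ∫ y, g (v • y) * g y ∂ν

theorem kap_meas {g : Y → ℝ} (hg : Measurable g) : Measurable (kap (G := G) ν g) := by
  have hm : Measurable fun w : G × Y => g (w.1 • w.2) * g w.2 :=
    (hg.comp (measurable_fst.smul measurable_snd)).mul (hg.comp measurable_snd)
  exact (hm.stronglyMeasurable.integral_prod_right' (ν := ν)).measurable

theorem kap_le {g : Y → ℝ} (hg : ∀ y, |g y| ≤ 1) (v : G) : |kap ν g v| ≤ 1 := by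
  refine abs_int_le fun y => ?_
  rw [abs_mul]
  exact mul_le_one₀ (hg _) (abs_nonneg _) (hg _)

theorem kap_two (h : Sys μ ν S φ Q) {g : Y → ℝ} (hg : Measurable g) (a b : G) :
    ∫ y, g (a • y) * g (b • y) ∂ν = kap ν g (a * b⁻¹) := by
  unfold kap
  have hH : Measurable fun y : Y => g ((a * b⁻¹) • y) * g y :=
    (hg.comp (h.hR _).measurable).mul hg
  rw [← int_mp (h.hR b) hH]
  congr 1
  funext y
  rw [smul_smul]
  congr 3
  simp

theorem ker_eq (h : Sys μ ν S φ Q) {f : X → ℝ} {g : Y → ℝ}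
    (hg : Measurable g) (r r' : ℕ) (z : X × X) :
    ker ν S φ f g r r' z = f (S^[r] z.2) * f (S^[r'] z.2) *
      kap ν g (((coc S φ r z.1)⁻¹ * coc S φ r z.2) *
        ((coc S φ r' z.1)⁻¹ * coc S φ r' z.2)⁻¹) := by
  unfold ker
  simp only [smul_smul]
  rw [kap_two h hg]

theorem ker_symm (f : X → ℝ) (g : Y → ℝ) (r r' : ℕ) (z : X × X) :
    ker ν S φ f g r r' z = ker ν S φ f g r' r z := by
  unfold ker
  rw [mul_comm (f (S^[r] z.2))]
  congr 2
  funext y
  rw [mul_comm]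

theorem ker_zero (h : Sys μ ν S φ Q) {f : X → ℝ} {g : Y → ℝ}
    (hg : Measurable g) (m : ℕ) (z : X × X) :
    ker ν S φ f g m 0 z = f (S^[m] z.2) * f z.2 *
      kap ν g ((coc S φ m z.1)⁻¹ * coc S φ m z.2) := by
  rw [ker_eq h hg]
  have hc0 : ∀ x, coc S φ 0 x = 1 := fun x => rfl
  simp only [Function.iterate_zero, id_eq, hc0, inv_one, mul_one]

theorem ker_shift (h : Sys μ ν S φ Q) {f : X → ℝ} {g : Y → ℝ}
    (hg : Measurable g) (r' m : ℕ) (z : X × X) :
    ker ν S φ f g (r' + m) r' z = ker ν S φ f g m 0 (S^[r'] z.1, S^[r'] z.2) := by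
  rw [ker_zero h hg, ker_eq h hg]
  have e0 : ∀ x, S^[r' + m] x = S^[m] (S^[r'] x) := by
    intro x
    rw [← Function.iterate_add_apply, add_comm]
  rw [e0]
  congr 2
  rw [cocAdd, cocAdd]
  simp only [mul_inv_rev, inv_inv]
  have : ∀ a b c d : G, b⁻¹ * a⁻¹ * (c * d) * (c⁻¹ * a) = b⁻¹ * d := by
    intro a b c d
    have h1 : c * d * (c⁻¹ * a) = a * d := by
      rw [mul_comm c d, mul_assoc, mul_inv_cancel_left, mul_comm]
    rw [mul_assoc, h1, mul_assoc, inv_mul_cancel_left]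
  exact this _ _ _ _

/-- invariance of a gauge -/
def GInv (μ : Measure X) (S : X → X) (p : (X → ℝ) → ℝ) : Prop :=
  (∀ e : X → ℝ, 0 ≤ p e) ∧
  ∀ e : X → ℝ, Measurable e → (∀ x, |e x| ≤ 1) → ∀ n : ℕ, p (fun x => e (S^[n] x)) = p e

theorem ginv1 (hS : MeasurePreserving S μ μ) : GInv μ S (p1 μ) := by
  refine ⟨fun e => abs_nonneg _, fun e he _ n => ?_⟩
  unfold p1
  rw [int_mp (hS.iterate n) he]

theorem ginv2 (hS : MeasurePreserving S μ μ) : GInv μ S (p2 μ) := by
  refine ⟨fun e => integral_nonneg fun x => abs_nonneg _, fun e he _ n => ?_⟩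
  unfold p2
  exact int_mp (hS.iterate n) he.abs

theorem rho_shift (h : Sys μ ν S φ Q) {p : (X → ℝ) → ℝ} (hp : Gauge μ p) (hi : GInv μ S p)
    {f : X → ℝ} {g : Y → ℝ} (hf : Measurable f) (hg : Measurable g) (hf1 : ∀ x, |f x| ≤ 1)
    (hg1 : ∀ y, |g y| ≤ 1) (r' m : ℕ) :
    rho μ ν S φ p f g (r' + m) r' = rho μ ν S φ p f g m 0 := by
  unfold rho
  have hkm := ker_meas (G := G) h hf hg m 0
  have hk1 := ker_le (ν := ν) (S := S) (φ := φ) hf1 hg1 m 0
  have e1 : ∀ x0, p (fun x => ker ν S φ f g (r' + m) r' (x0, x)) =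
      p (fun x => ker ν S φ f g m 0 (S^[r'] x0, x)) := by
    intro x0
    simp only [ker_shift h hg]
    exact hi.2 (fun x => ker ν S φ f g m 0 (S^[r'] x0, x)) (hkm.comp measurable_prodMk_left)
      (fun x => hk1 _) r'
  simp only [e1]
  exact int_mp (h.hS.iterate r') (hp.meas _ hkm hk1)

theorem rho_symm (p : (X → ℝ) → ℝ) (f : X → ℝ) (g : Y → ℝ) (r r' : ℕ) :
    rho μ ν S φ p f g r r' = rho μ ν S φ p f g r' r := by
  unfold rho
  simp only [ker_symm f g r r']

/-- the double averages are controlled by the simple averages -/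
theorem rhoSmall_of (h : Sys μ ν S φ Q) {p : (X → ℝ) → ℝ} (hp : Gauge μ p) (hi : GInv μ S p)
    (H : ∀ (f : X → ℝ) (g : Y → ℝ), Measurable f → Measurable g → (∀ x, |f x| ≤ 1) →
      (∀ y, |g y| ≤ 1) → ∫ y, g y ∂ν = 0 → ∀ η : ℝ, 0 < η → ∃ N : ℕ, 0 < N ∧
      ∑ m ∈ Finset.range N, rho μ ν S φ p f g m 0 ≤ η * (N : ℝ)) :
    RhoSmall μ ν S φ p := by
  intro f g hf hg hf1 hg1 hg0 η hη
  obtain ⟨N, hN, hs⟩ := H f g hf hg hf1 hg1 hg0 (η / 2) (by positivity)
  refine ⟨N, hN, ?_⟩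
  set c : ℕ → ℝ := fun m => rho μ ν S φ p f g m 0 with hc
  have hc0 : ∀ m, 0 ≤ c m := fun m => integral_nonneg fun x => hi.1 _
  have e1 : ∀ r r', rho μ ν S φ p f g r r' = c (if r' ≤ r then r - r' else r' - r) := by
    intro r r'
    by_cases hrr : r' ≤ r
    · rw [if_pos hrr]
      obtain ⟨m, rfl⟩ := Nat.exists_eq_add_of_le hrr
      rw [Nat.add_sub_cancel_left, rho_shift h hp hi hf hg hf1 hg1]
    · rw [if_neg hrr]
      obtain ⟨m, rfl⟩ := Nat.exists_eq_add_of_le (not_le.1 hrr).le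
      rw [Nat.add_sub_cancel_left, rho_symm, rho_shift h hp hi hf hg hf1 hg1]
  calc ∑ r ∈ Finset.range N, ∑ r' ∈ Finset.range N, rho μ ν S φ p f g r r'
      ≤ ∑ r ∈ Finset.range N, 2 * ∑ m ∈ Finset.range N, c m := by
        refine Finset.sum_le_sum fun r hr => ?_
        simp only [e1]
        exact DS_aux1 c hc0 N r (Finset.mem_range.1 hr)
    _ = N * (2 * ∑ m ∈ Finset.range N, c m) := by
        rw [Finset.sum_const, Finset.card_range, nsmul_eq_mul]
    _ ≤ N * (2 * (η / 2 * N)) := by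
        refine mul_le_mul_of_nonneg_left ?_ (Nat.cast_nonneg _)
        linarith
    _ = η * (N : ℝ) ^ 2 := by ring

end

end Pool.Agent.W763.RM
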