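import Pool.Agent.W763.RM.Red

/-!
The van der Corput step.
-/

set_option autoImplicit false
set_option linter.unusedSectionVars false

namespace Pool.Agent.W763.RM

open MeasureTheory Filter Topology H567MM

section

variable {X Y G : Type*} {ι : Type} [MeasurableSpace X] [MeasurableSpace Y] [MeasurableSpace G]
  [CommGroup G] [MulAction G Y] [MeasurableMul₂ G] [MeasurableInv G] [MeasurableSMul₂ G Y]
  [Fintype ι] [DecidableEq ι]
  {μ : Measure X} {ν : Measure Y} [IsProbabilityMeasure μ] [IsProbabilityMeasure ν]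
  {S : X → X} {φ : X → G} {Q : Y → Y} {𝓕 : Filter (ι → ℕ)}

/-- the function with the frozen coordinate `i0` -/
noncomputable def Hn (S : X → X) (φ : X → G) (Q : Y → Y) (f : ι → X → ℝ) (g : ι → Y → ℝ)
    (J : Finset ι) (i0 : ι) (n : ι → ℕ) (r : ℕ) (z : X × Y) : ℝ :=
  (∏ i, f i (S^[r] (S^[n i] z.1))) * ∏ i ∈ J.erase i0,
    g i ((coc S φ r (S^[n i0] z.1))⁻¹ • coc S φ r (S^[n i] z.1) • coc S φ (n i) z.1 • Q^[n i] z.2)

theorem prod_split (J : Finset ι) {i0 : ι} (h0 : i0 ∈ J) (α : ℝ) (β : ι → ℝ) :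
    ∏ i, (if i = i0 then α else if i ∈ J then β i else 1) = α * ∏ i ∈ J.erase i0, β i := by
  rw [← Finset.mul_prod_erase Finset.univ _ (Finset.mem_univ i0), if_pos rfl]
  congr 1
  have hsub : J.erase i0 ⊆ Finset.univ.erase i0 := Finset.erase_subset_erase _ (Finset.subset_univ J)
  rw [← Finset.prod_subset hsub]
  · refine Finset.prod_congr rfl fun i hi => ?_
    rw [Finset.mem_erase] at hi
    rw [if_neg hi.1, if_pos hi.2]
  · intro i hi hi2
    rw [Finset.mem_erase] at hi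
    have : i ∉ J := fun h => hi2 (Finset.mem_erase.2 ⟨hi.1, h⟩)
    rw [if_neg hi.1, if_neg this]

theorem Hn_meas (h : Sys μ ν S φ Q) {f : ι → X → ℝ} {g : ι → Y → ℝ} (hf : ∀ i, Measurable (f i))
    (hg : ∀ i, Measurable (g i)) (J : Finset ι) (i0 : ι) (n : ι → ℕ) (r : ℕ) :
    Measurable (Hn S φ Q f g J i0 n r) := by
  unfold Hn
  have hS := h.hS.measurable
  have hc : ∀ r, Measurable (coc S φ r) := fun r => cocMeas S hS φ h.hφ r
  refine Measurable.mul (Finset.measurable_prod _ fun i _ => ?_)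
    (Finset.measurable_prod _ fun i _ => ?_)
  · exact (hf i).comp ((hS.iterate r).comp ((hS.iterate (n i)).comp measurable_fst))
  · refine (hg i).comp ?_
    refine Measurable.smul ?_ (Measurable.smul ?_ (Measurable.smul ?_ ?_))
    · exact ((hc r).comp ((hS.iterate (n i0)).comp measurable_fst)).inv
    · exact (hc r).comp ((hS.iterate (n i)).comp measurable_fst)
    · exact (hc (n i)).comp measurable_fst
    · exact (h.hQ.measurable.iterate (n i)).comp measurable_snd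

theorem Hn_le {f : ι → X → ℝ} {g : ι → Y → ℝ} (hf : ∀ i x, |f i x| ≤ 1)
    (hg : ∀ i y, |g i y| ≤ 1) (J : Finset ι) (i0 : ι) (n : ι → ℕ) (r : ℕ) (z : X × Y) :
    |Hn S φ Q f g J i0 n r z| ≤ 1 := by
  unfold Hn
  rw [abs_mul]
  exact mul_le_one₀ (abs_prod_le_one _ _ fun i _ => hf i _) (abs_nonneg _)
    (abs_prod_le_one _ _ fun i _ => hg i _)

/-- freezing the coordinate `i0` -/
theorem frozen (h : Sys μ ν S φ Q) {f : ι → X → ℝ} {g : ι → Y → ℝ} (hf : ∀ i, Measurable (f i))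
    (hg : ∀ i, Measurable (g i)) (J : Finset ι) (i0 : ι) (h0 : i0 ∈ J)
    (hJ : ∀ i, i ∉ J → ∀ y, g i y = 1) (n : ι → ℕ) (r : ℕ) :
    LT (μ.prod ν) (skw S φ Q) (pf f g) n =
      ∫ z, g i0 (coc S φ (n i0) z.1 • Q^[n i0] z.2) * Hn S φ Q f g J i0 n r z ∂(μ.prod ν) := by
  have hS := h.hS.measurable
  have hc : ∀ r, Measurable (coc S φ r) := fun r => cocMeas S hS φ h.hφ r
  set b : X → G := fun x => coc S φ r x * (coc S φ r (S^[n i0] x))⁻¹ with hb
  have hbm : Measurable b := (hc r).mul ((hc r).comp (hS.iterate (n i0))).inv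
  have hΘ := h.mp_gen r 0 b hbm
  set Φ : X × Y → ℝ := fun z => ∏ i, pf f g i ((skw S φ Q)^[n i] z) with hΦ
  have hΦm : Measurable Φ :=
    Finset.measurable_prod _ fun i _ => (pf_meas hf hg i).comp (h.mp.iterate (n i)).measurable
  have e1 : LT (μ.prod ν) (skw S φ Q) (pf f g) n = ∫ z, Φ z ∂(μ.prod ν) := rfl
  rw [e1, ← int_mp hΘ hΦm]
  congr 1
  funext z
  obtain ⟨x, y⟩ := z
  simp only [hΦ, Function.iterate_zero, id_eq]
  have key : ∀ i, (skw S φ Q)^[n i] (S^[r] x, b x • y) = (S^[r] (S^[n i] x),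
      (coc S φ r (S^[n i0] x))⁻¹ • coc S φ r (S^[n i] x) • coc S φ (n i) x • Q^[n i] y) := by
    intro i
    rw [h.iterate]
    refine Prod.ext ?_ ?_
    · show S^[n i] (S^[r] x) = S^[r] (S^[n i] x)
      rw [← Function.iterate_add_apply, ← Function.iterate_add_apply, add_comm]
    · show coc S φ (n i) (S^[r] x) • Q^[n i] (b x • y) = _
      rw [h.iter_comm, smul_smul, smul_smul, smul_smul]
      congr 1
      have h2 := cocAdd' S φ r (n i) x
      simp only [hb]
      calc coc S φ (n i) (S^[r] x) * (coc S φ r x * (coc S φ r (S^[n i0] x))⁻¹)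
          = (coc S φ r x * coc S φ (n i) (S^[r] x)) * (coc S φ r (S^[n i0] x))⁻¹ := by
            rw [← mul_assoc, mul_comm (coc S φ (n i) (S^[r] x))]
        _ = (coc S φ (n i) x * coc S φ r (S^[n i] x)) * (coc S φ r (S^[n i0] x))⁻¹ := by rw [h2]
        _ = _ := by
            simp only [mul_comm, mul_assoc, mul_left_comm]
  have e2 : ∀ i, pf f g i ((skw S φ Q)^[n i] (S^[r] x, b x • y)) = f i (S^[r] (S^[n i] x)) *
      (if i = i0 then g i0 (coc S φ (n i0) x • Q^[n i0] y) else if i ∈ J then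
        g i ((coc S φ r (S^[n i0] x))⁻¹ • coc S φ r (S^[n i] x) • coc S φ (n i) x • Q^[n i] y)
        else 1) := by
    intro i
    rw [key i]
    unfold pf
    congr 1
    by_cases h1 : i = i0
    · subst h1
      rw [if_pos rfl, inv_smul_smul]
    · rw [if_neg h1]
      by_cases h2 : i ∈ J
      · rw [if_pos h2]
      · rw [if_neg h2, hJ i h2]
  rw [Finset.prod_congr rfl fun i _ => e2 i, Finset.prod_mul_distrib, prod_split J h0]
  unfold Hn
  ring

theorem sq_int_le {Z : Type*} [MeasurableSpace Z] {m : Measure Z} [IsProbabilityMeasure m]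
    {u : Z → ℝ} (hu : Measurable u) {B : ℝ} (hb : ∀ z, |u z| ≤ B) :
    (∫ z, u z ∂m) ^ 2 ≤ ∫ z, u z ^ 2 ∂m := by
  set c := ∫ z, u z ∂m with hc
  have h0 : 0 ≤ ∫ z, (u z - c) ^ 2 ∂m := integral_nonneg fun z => sq_nonneg _
  have hi : Integrable u m := int_bdd hu hb
  have hi2 : Integrable (fun z => u z ^ 2) m := by
    refine int_bdd (B := B ^ 2) (hu.pow_const 2) fun z => ?_
    rw [abs_pow]
    exact pow_le_pow_left₀ (abs_nonneg _) (hb z) 2
  have h3 : ∫ z, (u z - c) ^ 2 ∂m = ∫ z, u z ^ 2 ∂m - c ^ 2 := by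
    have e : (fun z => (u z - c) ^ 2) = fun z => (u z ^ 2 - 2 * c * u z) + c ^ 2 := by
      funext z; ring
    have e1 : ∫ z, ((u z ^ 2 - 2 * c * u z) + c ^ 2) ∂m =
        ∫ z, (u z ^ 2 - 2 * c * u z) ∂m + ∫ _z, c ^ 2 ∂m :=
      integral_add (hi2.sub (hi.const_mul (2 * c))) (integrable_const _)
    have e2 : ∫ z, (u z ^ 2 - 2 * c * u z) ∂m = ∫ z, u z ^ 2 ∂m - ∫ z, 2 * c * u z ∂m :=
      integral_sub hi2 (hi.const_mul (2 * c))
    have e3 : ∫ z, 2 * c * u z ∂m = 2 * c * c := by rw [integral_const_mul]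
    have e4 : ∫ _z : Z, c ^ 2 ∂m = c ^ 2 := by simp
    rw [e, e1, e2, e3, e4]
    ring
  linarith

/-- the inequality of van der Corput type -/
theorem vdc (h : Sys μ ν S φ Q) {f : ι → X → ℝ} {g : ι → Y → ℝ} (hf : ∀ i, Measurable (f i))
    (hg : ∀ i, Measurable (g i)) (hf1 : ∀ i x, |f i x| ≤ 1) (hg1 : ∀ i y, |g i y| ≤ 1)
    (J : Finset ι) (i0 : ι) (h0 : i0 ∈ J)
    (hJ : ∀ i, i ∉ J → ∀ y, g i y = 1) (n : ι → ℕ) (N : ℕ) :
    ((N : ℝ) * LT (μ.prod ν) (skw S φ Q) (pf f g) n) ^ 2 ≤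
      ∑ r ∈ Finset.range N, ∑ r' ∈ Finset.range N,
        ∫ z, Hn S φ Q f g J i0 n r z * Hn S φ Q f g J i0 n r' z ∂(μ.prod ν) := by
  set m := μ.prod ν with hm
  set c := LT m (skw S φ Q) (pf f g) n with hc
  have hHm := fun r => Hn_meas h hf hg J i0 n r
  have hHb := fun r z => Hn_le (S := S) (φ := φ) (Q := Q) hf1 hg1 J i0 n r z
  have hcm : Measurable fun z : X × Y => g i0 (coc S φ (n i0) z.1 • Q^[n i0] z.2) :=
    (hg i0).comp (((cocMeas S h.hS.measurable φ h.hφ (n i0)).comp measurable_fst).smul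
      ((h.hQ.measurable.iterate (n i0)).comp measurable_snd))
  have e1 : (N : ℝ) * c = ∫ z, g i0 (coc S φ (n i0) z.1 • Q^[n i0] z.2) *
      ∑ r ∈ Finset.range N, Hn S φ Q f g J i0 n r z ∂m := by
    simp only [Finset.mul_sum]
    rw [integral_finsetSum]
    · rw [Finset.sum_congr rfl fun r _ => (frozen h hf hg J i0 h0 hJ n r).symm]
      simp [hc, hm]
    · intro r _
      refine int_bdd (B := 1) (hcm.mul (hHm r)) fun z => ?_
      rw [abs_mul]
      exact mul_le_one₀ (hg1 _ _) (abs_nonneg _) (hHb r z)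
  have hsm : Measurable fun z => ∑ r ∈ Finset.range N, Hn S φ Q f g J i0 n r z :=
    Finset.measurable_sum _ fun r _ => hHm r
  have hsb : ∀ z, |∑ r ∈ Finset.range N, Hn S φ Q f g J i0 n r z| ≤ N := fun z => by
    refine (Finset.abs_sum_le_sum_abs _ _).trans ?_
    refine (Finset.sum_le_sum fun r _ => hHb r z).trans ?_
    simp
  have hub : ∀ z, |g i0 (coc S φ (n i0) z.1 • Q^[n i0] z.2) *
      ∑ r ∈ Finset.range N, Hn S φ Q f g J i0 n r z| ≤ N := fun z => by
    rw [abs_mul]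
    exact (mul_le_of_le_one_left (abs_nonneg _) (hg1 _ _)).trans (hsb z)
  rw [e1]
  refine (sq_int_le (hcm.mul hsm) hub).trans ?_
  have e2 : ∑ r ∈ Finset.range N, ∑ r' ∈ Finset.range N,
        ∫ z, Hn S φ Q f g J i0 n r z * Hn S φ Q f g J i0 n r' z ∂m =
      ∫ z, (∑ r ∈ Finset.range N, Hn S φ Q f g J i0 n r z) ^ 2 ∂m := by
    have hint : ∀ r r', Integrable
        (fun z => Hn S φ Q f g J i0 n r z * Hn S φ Q f g J i0 n r' z) m := fun r r' => by
      refine int_bdd (B := 1) ((hHm r).mul (hHm r')) fun z => ?_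
      rw [abs_mul]
      exact mul_le_one₀ (hHb r z) (abs_nonneg _) (hHb r' z)
    have e3 : (fun z => (∑ r ∈ Finset.range N, Hn S φ Q f g J i0 n r z) ^ 2) = fun z =>
        ∑ r ∈ Finset.range N, ∑ r' ∈ Finset.range N,
          Hn S φ Q f g J i0 n r z * Hn S φ Q f g J i0 n r' z := by
      funext z
      rw [sq, Finset.sum_mul_sum]
    rw [e3, integral_finsetSum _ fun r _ => integrable_finsetSum _ fun r' _ => hint r r']
    refine Finset.sum_congr rfl fun r _ => ?_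
    rw [integral_finsetSum _ fun r' _ => hint r r']
  rw [e2]
  refine int_mono_bdd (B := (N : ℝ) ^ 2) (B' := (N : ℝ) ^ 2) ((hcm.mul hsm).pow_const 2)
    (fun z => ?_) (hsm.pow_const 2) (fun z => ?_) fun z => ?_
  · rw [abs_pow]
    exact pow_le_pow_left₀ (abs_nonneg _) (hub z) 2
  · rw [abs_pow]
    exact pow_le_pow_left₀ (abs_nonneg _) (hsb z) 2
  · simp only [Pi.mul_apply]
    rw [mul_pow]
    refine mul_le_of_le_one_left (sq_nonneg _) ?_
    rw [← sq_abs]
    exact pow_le_one₀ (abs_nonneg _) (hg1 _ _)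

end

end Pool.Agent.W763.RM
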